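import Pool.Agent.LibLin93.Defs

/-! Row LS A1: Buchstab's identity, monotonicity, trivial facts on `V`. -/

set_option autoImplicit false

namespace Pool.Agent.LibLin93

open Finset Filter Topology

private theorem A1_succ (z : ℕ) :
    V (z + 1) = if z.Prime then V z * (1 - 1 / (z : ℝ)) else V z := by
  unfold V
  rw [range_add_one, filter_insert]
  split_ifs with h
  · rw [prod_insert (by simp), mul_comm]
  · rfl

private theorem A1_fac {p : ℕ} (hp : p.Prime) : 0 < 1 - 1 / (p : ℝ) ∧ 1 - 1 / (p : ℝ) ≤ 1 := by
  have h1 : (1 : ℝ) < p := by exact_mod_cast hp.one_lt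
  constructor
  · rw [sub_pos, div_lt_one (by linarith)]
    exact h1
  · have h2 : 0 ≤ 1 / (p : ℝ) := by positivity
    linarith

/-- PROOF. Every factor `1 - 1/p` is in `(0,1)`. -/
theorem V_pos (z : ℕ) : 0 < V z := by
  unfold V
  apply prod_pos
  intro p hp
  exact (A1_fac (mem_filter.1 hp).2).1

/-- PROOF. `V (z+1) = V z` or `V z (1 - 1/z)`. -/
theorem V_anti : Antitone V := by
  apply antitone_nat_of_succ_le
  intro z
  rw [A1_succ]
  split_ifs with h
  · have h1 := A1_fac h
    have h2 := V_pos z
    nlinarith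
  · exact le_rfl

/-- PROOF. For `p` prime `V (p+1) = V p (1 - 1/p)`, so `V p / p = V p - V (p+1)`; for `n` not prime
`V (n+1) = V n`; telescope (induction on `z`). -/
theorem sum_V (w z : ℕ) (h : w ≤ z) :
    ∑ p ∈ (Ico w z).filter Nat.Prime, V p / p = V w - V z := by
  rw [sum_filter]
  induction z, h using Nat.le_induction with
  | base => simp
  | succ z hz ih =>
    rw [sum_Ico_succ_top hz, ih, A1_succ]
    split_ifs with h
    · ring
    · ring

theorem S_anti (a : ℕ → ℕ) (N w z : ℕ) (h : w ≤ z) : S a N z ≤ S a N w := by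
  classical
  unfold S
  apply card_le_card
  intro n hn
  rw [mem_filter] at hn ⊢
  exact ⟨hn.1, fun p hp hpw => hn.2 p hp (lt_of_lt_of_le hpw h)⟩

theorem S_mono (a : ℕ → ℕ) (N M z : ℕ) (h : N ≤ M) : S a N z ≤ S a M z := by
  classical
  unfold S
  apply card_le_card
  intro n hn
  rw [mem_filter, mem_range] at hn ⊢
  exact ⟨lt_of_lt_of_le hn.1 h, hn.2⟩

private theorem A1_step (a : ℕ → ℕ) (N z : ℕ) :
    S a N z = S a N (z + 1) + if z.Prime then T a N z else 0 := by
  classical
  split_ifs with hz
  · unfold S T
    rw [← card_filter_add_card_filter_not (s := {n ∈ range N | ∀ p : ℕ, p.Prime → p < z →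
      ¬ n ≡ a p [MOD p]}) (fun n => n ≡ a z [MOD z]), add_comm, filter_filter, filter_filter]
    congr 1
    · apply congrArg
      ext n
      simp only [mem_filter, and_congr_right_iff]
      intro _
      constructor
      · rintro ⟨h1, h2⟩ p hp hpz
        rcases Nat.lt_succ_iff_lt_or_eq.1 hpz with h3 | h3
        · exact h1 p hp h3
        · rw [h3]
          exact h2
      · intro h1
        exact ⟨fun p hp hpz => h1 p hp (Nat.lt_succ_of_lt hpz), h1 z hz (Nat.lt_succ_self z)⟩
    · apply congrArg
      ext n
      simp only [mem_filter, and_congr_right_iff]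
      intro _
      constructor
      · rintro ⟨h1, h2⟩
        exact ⟨h2, h1⟩
      · rintro ⟨h1, h2⟩
        exact ⟨h2, h1⟩
  · unfold S
    rw [add_zero]
    apply congrArg
    ext n
    simp only [mem_filter, and_congr_right_iff]
    intro _
    constructor
    · intro h1 p hp hpz
      rcases Nat.lt_succ_iff_lt_or_eq.1 hpz with h3 | h3
      · exact h1 p hp h3
      · rw [h3] at hp
        exact absurd hp hz
    · intro h1 p hp hpz
      exact h1 p hp (Nat.lt_succ_of_lt hpz)

/-- BUCHSTAB'S IDENTITY. PROOF. Induction on `z ≥ w`: if `z` is prime, the numbers counted by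
`S a N z` are those counted by `S a N (z+1)` and, disjointly, those counted by `T a N z`; if `z` is
not prime, `S a N (z+1) = S a N z`. -/
theorem buchstab (a : ℕ → ℕ) (N w z : ℕ) (h : w ≤ z) :
    S a N w = S a N z + ∑ p ∈ (Ico w z).filter Nat.Prime, T a N p := by
  rw [sum_filter]
  induction z, h using Nat.le_induction with
  | base => simp
  | succ z hz ih =>
    rw [sum_Ico_succ_top hz, ih, A1_step a N z]
    ring

end Pool.Agent.LibLin93
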