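import Pool.Agent.LibLin93.Defs

/-! Row LS A2: the numbers in one residue class form a sieve problem of the same kind. -/

set_option autoImplicit false

namespace Pool.Agent.LibLin93

open Finset Filter Topology

theorem A2_shift (p r b q : ℕ) (hr : r < p) (hpq : Nat.Coprime p q) :
    ∃ x : ℕ, ∀ m : ℕ, r + p * m ≡ b [MOD q] ↔ m ≡ x [MOD q] := by
  obtain ⟨k, hk1, hk2⟩ := Nat.chineseRemainder hpq r b
  have hk3 : k % p = r := by
    have h1 : k % p = r % p := hk1
    rw [h1, Nat.mod_eq_of_lt hr]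
  have hk4 : r + p * (k / p) = k := by
    have h1 := Nat.mod_add_div k p
    rwa [hk3] at h1
  refine ⟨k / p, fun m => ?_⟩
  have hgcd : Nat.gcd q p = 1 := hpq.symm
  constructor
  · intro h
    have h1 : r + p * m ≡ r + p * (k / p) [MOD q] := by
      rw [hk4]
      exact h.trans hk2.symm
    have h2 : p * m ≡ p * (k / p) [MOD q] := Nat.ModEq.add_left_cancel' r h1
    exact Nat.ModEq.cancel_left_of_coprime hgcd h2
  · intro h
    have h1 : r + p * m ≡ r + p * (k / p) [MOD q] := (h.mul_left p).add_left r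
    rw [hk4] at h1
    exact h1.trans hk2

/-- PROOF. Let `r = a p % p`. The numbers `n < N`, `n ≡ a p (mod p)` are the `n = r + p m`,
`m ∈ range N'`, where `N' = (N - r + (p - 1)) / p` (the number of `m` with `r + p m < N`; it is
`N / p` or `N / p + 1`, also if `N ≤ r`). For a prime `q < p` let `b_q` with `p b_q ≡ 1 (mod q)`
(`Nat.exists_mul_emod_eq_one_of_coprime` or the inverse in `ZMod q`) and
`a' q = b_q * (a q + (q - 1) * r)`; then `r + p m ≡ a q (mod q)` iff `m ≡ a' q (mod q)`.
Conclude with `Finset.card_bij` or `card_image_of_injOn`. -/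
theorem T_eq (a : ℕ → ℕ) (N p : ℕ) (hp : p.Prime) :
    ∃ (a' : ℕ → ℕ) (N' : ℕ), N / p ≤ N' ∧ N' ≤ N / p + 1 ∧ T a N p = S a' N' p := by
  classical
  have hp0 : 0 < p := hp.pos
  set r := a p % p with hr
  have hrp : r < p := Nat.mod_lt _ hp0
  have hex : ∀ q : ℕ, ∃ x : ℕ, q.Prime → q < p →
      ∀ m : ℕ, r + p * m ≡ a q [MOD q] ↔ m ≡ x [MOD q] := by
    intro q
    by_cases hq : q.Prime ∧ q < p
    · have hcop : Nat.Coprime p q := (Nat.coprime_primes hp hq.1).2 (ne_of_gt hq.2)
      obtain ⟨x, hx⟩ := A2_shift p r (a q) q hrp hcop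
      exact ⟨x, fun _ _ => hx⟩
    · exact ⟨0, fun h1 h2 => absurd ⟨h1, h2⟩ hq⟩
  choose a' ha' using hex
  refine ⟨a', (N - r + (p - 1)) / p, ?_, ?_, ?_⟩
  · by_cases hN : N ≤ r
    · rw [Nat.div_eq_of_lt (lt_of_le_of_lt hN hrp)]
      exact Nat.zero_le _
    · exact Nat.div_le_div_right (by omega)
  · calc (N - r + (p - 1)) / p ≤ (N + p) / p := Nat.div_le_div_right (by omega)
      _ = N / p + 1 := Nat.add_div_right N hp0
  · have hlt : ∀ m, m < (N - r + (p - 1)) / p ↔ r + p * m < N := by
      intro m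
      rw [← Nat.succ_le_iff, Nat.le_div_iff_mul_le hp0, Nat.succ_mul, mul_comm m p]
      omega
    unfold T S
    have hinj : Function.Injective fun m => r + p * m := by
      intro m m' h
      have h1 : p * m = p * m' := Nat.add_left_cancel h
      exact Nat.eq_of_mul_eq_mul_left hp0 h1
    refine Eq.trans ?_ (Finset.card_image_of_injective _ hinj)
    · congr 1
      ext n
      simp only [mem_filter, mem_range, mem_image]
      constructor
      · rintro ⟨h1, h2, h3⟩
        have h4 : n % p = r := h2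
        have h5 : r + p * (n / p) = n := by
          have h6 := Nat.mod_add_div n p
          rwa [h4] at h6
        refine ⟨n / p, ⟨(hlt _).2 (by rw [h5]; exact h1), fun q hq hqp h7 => ?_⟩, h5⟩
        have h8 := (ha' q hq hqp (n / p)).2 h7
        rw [h5] at h8
        exact h3 q hq hqp h8
      · rintro ⟨m, ⟨h1, h2⟩, rfl⟩
        refine ⟨(hlt m).1 h1, ?_, fun q hq hqp h3 => h2 q hq hqp ((ha' q hq hqp m).1 h3)⟩
        change (r + p * m) % p = a p % p
        rw [Nat.add_mul_mod_self_left, Nat.mod_eq_of_lt hrp]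

end Pool.Agent.LibLin93
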