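import Pool.Agent.LibLin93.Defs
import Pool.Agent.LibLin93.A1
import Pool.Agent.LibLin93.A2
import Pool.Agent.LibBP4.S01

/-! Row LS A3: Selberg's upper bound sieve for an interval and arbitrary residue classes, and the
sieve of Legendre. -/

set_option autoImplicit false

namespace Pool.Agent.LibLin93

open Finset Filter Topology

/-- the residue classes modulo finitely many primes are one residue class -/
private theorem a3_crt (a : ℕ → ℕ) (P : Finset ℕ) (hP : ∀ p ∈ P, p.Prime) :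
    ∃ r : ℕ, ∀ n : ℕ, (∀ p ∈ P, n ≡ a p [MOD p]) ↔ n ≡ r [MOD ∏ p ∈ P, p] := by
  classical
  induction P using Finset.induction_on with
  | empty => exact ⟨0, fun n => by simp [Nat.modEq_one]⟩
  | insert p P hp ih =>
    obtain ⟨r, hr⟩ := ih fun q hq => hP q (Finset.mem_insert_of_mem hq)
    have hpp := hP p (Finset.mem_insert_self p P)
    have hco : Nat.Coprime p (∏ q ∈ P, q) := by
      refine Nat.Coprime.prod_right fun q hq => ?_
      rw [Nat.coprime_primes hpp (hP q (Finset.mem_insert_of_mem hq))]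
      rintro rfl
      exact hp hq
    obtain ⟨s, hs1, hs2⟩ := Nat.chineseRemainder hco (a p) r
    refine ⟨s, fun n => ?_⟩
    rw [Finset.forall_mem_insert, hr n, Finset.prod_insert hp,
      ← Nat.modEq_and_modEq_iff_modEq_mul hco]
    constructor
    · rintro ⟨h1, h2⟩
      exact ⟨h1.trans hs1.symm, h2.trans hs2.symm⟩
    · rintro ⟨h1, h2⟩
      exact ⟨h1.trans hs1, h2.trans hs2⟩

open Classical in
private theorem a3_count (a : ℕ → ℕ) (N m : ℕ) (hm : Squarefree m) :
    |((#{n ∈ range N | ∀ p : ℕ, p.Prime → p ∣ m → n ≡ a p [MOD p]} : ℕ) : ℝ) - N / m| ≤ 1 := by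
  have hm0 : m ≠ 0 := hm.ne_zero
  have hmpos : 0 < m := Nat.pos_of_ne_zero hm0
  obtain ⟨r, hr⟩ := a3_crt a m.primeFactors fun p hp => Nat.prime_of_mem_primeFactors hp
  rw [Nat.prod_primeFactors_of_squarefree hm] at hr
  have h1 : (#{n ∈ range N | ∀ p : ℕ, p.Prime → p ∣ m → n ≡ a p [MOD p]} : ℕ)
      = N.count (· ≡ r [MOD m]) := by
    rw [Nat.count_eq_card_filter_range]
    congr 1
    refine Finset.filter_congr fun n _ => ?_
    rw [← hr n]
    constructor
    · intro h p hp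
      exact h p (Nat.prime_of_mem_primeFactors hp) (Nat.dvd_of_mem_primeFactors hp)
    · intro h p hp hpm
      exact h p (Nat.mem_primeFactors.2 ⟨hp, hpm, hm0⟩)
  rw [h1, Nat.count_modEq_card N hmpos]
  have hmR : (0 : ℝ) < m := by exact_mod_cast hmpos
  have h2 : ((N / m : ℕ) : ℝ) ≤ N / m := Nat.cast_div_le
  have h3 : (N : ℝ) / m < ((N / m : ℕ) : ℝ) + 1 := by
    rw [div_lt_iff₀ hmR]
    have h4 : N < (N / m + 1) * m := (Nat.div_lt_iff_lt_mul hmpos).1 (Nat.lt_succ_self _)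
    exact_mod_cast h4
  have h5 : (0 : ℝ) ≤ ((if r % m < N % m then 1 else 0 : ℕ) : ℝ) := Nat.cast_nonneg _
  have h6 : ((if r % m < N % m then 1 else 0 : ℕ) : ℝ) ≤ 1 := by
    split_ifs <;> norm_num
  rw [Nat.cast_add, abs_le]
  constructor <;> linarith

private theorem a3_sqf_lcm {d e : ℕ} (hd : Squarefree d) (he : Squarefree e) :
    Squarefree (Nat.lcm d e) := by
  have hd0 := hd.ne_zero
  have he0 := he.ne_zero
  have hl0 : Nat.lcm d e ≠ 0 := Nat.lcm_ne_zero hd0 he0
  rw [Nat.squarefree_iff_factorization_le_one hl0]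
  intro p
  rw [Nat.factorization_lcm hd0 he0, Finsupp.sup_apply]
  exact sup_le ((Nat.squarefree_iff_factorization_le_one hd0).1 hd p)
    ((Nat.squarefree_iff_factorization_le_one he0).1 he p)

private theorem a3_GG (R z : ℕ) : BP4.G R ((z : ℝ) - 1) = GG R z := by
  classical
  unfold BP4.G GG
  refine Finset.sum_congr ?_ fun _ _ => rfl
  ext d
  rw [BP4.S01_mem]
  unfold BP4.S01_Q
  rw [Finset.mem_filter, Finset.mem_Icc]
  have h1 : ∀ p : ℕ, ((p : ℝ) ≤ (z : ℝ) - 1 ↔ p < z) := fun p => by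
    rw [le_sub_iff_add_le, Nat.lt_iff_add_one_le]
    exact_mod_cast Iff.rfl
  simp only [h1]
  tauto

open Classical in
/-- the indicator of `n ≡ a p (mod p)` for all `p ∣ d` -/
private noncomputable def a3i (a : ℕ → ℕ) (d n : ℕ) : ℝ :=
  if ∀ p : ℕ, p.Prime → p ∣ d → n ≡ a p [MOD p] then 1 else 0

private theorem a3_one (a : ℕ → ℕ) (R z : ℕ) (hR : 1 ≤ R) (n : ℕ)
    (hn : ∀ p : ℕ, p.Prime → p < z → ¬ n ≡ a p [MOD p]) :
    ∑ d ∈ Icc 1 R, BP4.S01lam R ((z : ℝ) - 1) d * a3i a d n = 1 := by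
  rw [Finset.sum_eq_single 1]
  · rw [BP4.S01_lam_one hR, one_mul]
    unfold a3i
    rw [if_pos]
    intro p hp hp1
    exact absurd (Nat.dvd_one.1 hp1) hp.one_lt.ne'
  · intro d _ hd1
    by_cases h0 : BP4.S01lam R ((z : ℝ) - 1) d = 0
    · rw [h0, zero_mul]
    · obtain ⟨_, _, hQ⟩ := BP4.S01_lam_supp h0
      have hpr := Nat.minFac_prime hd1
      have h1 := hQ _ hpr (Nat.minFac_dvd d)
      have h2 : d.minFac < z := by
        rw [le_sub_iff_add_le] at h1
        have h3 : d.minFac + 1 ≤ z := by exact_mod_cast h1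
        exact h3
      unfold a3i
      rw [if_neg, mul_zero]
      intro h3
      exact hn _ hpr h2 (h3 _ hpr (Nat.minFac_dvd d))
  · intro h
    exact absurd (Finset.mem_Icc.2 ⟨le_refl 1, hR⟩) h

open Classical in
private theorem a3_pair (a : ℕ → ℕ) (N d e : ℕ) :
    ∑ n ∈ range N, a3i a d n * a3i a e n
      = ((#{n ∈ range N | ∀ p : ℕ, p.Prime → p ∣ Nat.lcm d e → n ≡ a p [MOD p]} : ℕ) : ℝ) := by
  rw [Finset.card_filter]
  push_cast
  refine Finset.sum_congr rfl fun n _ => ?_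
  have h1 : (∀ p : ℕ, p.Prime → p ∣ Nat.lcm d e → n ≡ a p [MOD p]) ↔
      (∀ p : ℕ, p.Prime → p ∣ d → n ≡ a p [MOD p]) ∧
        ∀ p : ℕ, p.Prime → p ∣ e → n ≡ a p [MOD p] := by
    constructor
    · intro h
      exact ⟨fun p hp hpd => h p hp (hpd.trans (Nat.dvd_lcm_left d e)),
        fun p hp hpe => h p hp (hpe.trans (Nat.dvd_lcm_right d e))⟩
    · rintro ⟨h, h'⟩ p hp hpl
      have h2 : p ∣ d * e := hpl.trans (Nat.lcm_dvd (Nat.dvd_mul_right d e) (Nat.dvd_mul_left e d))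
      rcases (Nat.Prime.dvd_mul hp).1 h2 with h3 | h3
      · exact h p hp h3
      · exact h' p hp h3
  unfold a3i
  by_cases h2 : ∀ p : ℕ, p.Prime → p ∣ d → n ≡ a p [MOD p]
  · by_cases h3 : ∀ p : ℕ, p.Prime → p ∣ e → n ≡ a p [MOD p]
    · rw [if_pos h2, if_pos h3, if_pos (h1.2 ⟨h2, h3⟩), one_mul]
    · rw [if_pos h2, if_neg h3, if_neg (fun h => h3 (h1.1 h).2), one_mul]
  · rw [if_neg h2, if_neg (fun h => h2 (h1.1 h).1), zero_mul]

private theorem a3_term (a : ℕ → ℕ) (N R d e : ℕ) (ζ : ℝ) (hR : 1 ≤ R) :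
    BP4.S01lam R ζ d * BP4.S01lam R ζ e * ∑ n ∈ range N, a3i a d n * a3i a e n
      ≤ N * (BP4.S01lam R ζ d * BP4.S01lam R ζ e / (Nat.lcm d e : ℝ)) + 1 := by
  classical
  rw [a3_pair a N d e]
  by_cases h0 : BP4.S01lam R ζ d * BP4.S01lam R ζ e = 0
  · rw [h0, zero_mul, zero_div, mul_zero, zero_add]
    exact zero_le_one
  have hsd := (BP4.S01_lam_supp (left_ne_zero_of_mul h0)).2.1
  have hse := (BP4.S01_lam_supp (right_ne_zero_of_mul h0)).2.1
  have h1 := a3_count a N (Nat.lcm d e) (a3_sqf_lcm hsd hse)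
  have h2 : |BP4.S01lam R ζ d * BP4.S01lam R ζ e| ≤ 1 := by
    rw [abs_mul]
    exact mul_le_one₀ (BP4.S01_lam_le hR d) (abs_nonneg _) (BP4.S01_lam_le hR e)
  set c : ℝ := ((#{n ∈ range N | ∀ p : ℕ, p.Prime → p ∣ Nat.lcm d e → n ≡ a p [MOD p]} : ℕ) : ℝ)
  have h3 : BP4.S01lam R ζ d * BP4.S01lam R ζ e * (c - N / (Nat.lcm d e : ℝ)) ≤ 1 := by
    refine (le_abs_self _).trans ?_
    rw [abs_mul]
    exact mul_le_one₀ h2 (abs_nonneg _) h1
  have h4 : BP4.S01lam R ζ d * BP4.S01lam R ζ e * c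
      = N * (BP4.S01lam R ζ d * BP4.S01lam R ζ e / (Nat.lcm d e : ℝ))
        + BP4.S01lam R ζ d * BP4.S01lam R ζ e * (c - N / (Nat.lcm d e : ℝ)) := by
    ring
  rw [h4]
  linarith

/-- SELBERG. PROOF. `Pool.Agent.LibBP4` (file S01; all its theorems are proved) has Selberg's
weights `λ d = S01lam R ζ d` for the primes `≤ ζ` (take `ζ = z - 1` real, then `p ≤ ζ` iff `p < z`):
`S01_lam_one`, `S01_lam_supp`, `S01_lam_le` (`|λ d| ≤ 1`), `S01_quad`/`S01_main`
(`∑∑ λ d λ e / [d,e] = 1 / G R ζ`, and `G R ζ = GG R z`). For squarefree `d` with prime factors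
`< z` say `n ∈ a_d` if `n ≡ a p (mod p)` for all primes `p ∣ d`. If `n` is counted by `S a N z` then
`(∑_{d ≤ R} λ d [n ∈ a_d])² = λ 1² = 1`. So `S a N z ≤ ∑_{n < N} (∑_d λ d [n ∈ a_d])² =
∑_{d,e} λ d λ e #{n < N : n ∈ a_{[d,e]}}`; by the Chinese remainder theorem `n ∈ a_m` (`m`
squarefree) is one residue class mod `m`, so the number is `N/m + O(1)` with an error `≤ 1`
(`Nat.count_modEq_card`), and `∑_{d,e ≤ R} |λ d λ e| ≤ R²`. -/
theorem selberg (a : ℕ → ℕ) (N R z : ℕ) (hR : 1 ≤ R) (hz : 1 ≤ z) :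
    (S a N z : ℝ) ≤ N / GG R z + R ^ 2 := by
  classical
  have h1 : (S a N z : ℝ) ≤ ∑ n ∈ range N,
      (∑ d ∈ Icc 1 R, BP4.S01lam R ((z : ℝ) - 1) d * a3i a d n) ^ 2 := by
    unfold S
    rw [Finset.card_filter]
    push_cast
    refine Finset.sum_le_sum fun n _ => ?_
    split_ifs with h
    · rw [a3_one a R z hR n h, one_pow]
    · exact sq_nonneg _
  have h2 : ∑ n ∈ range N, (∑ d ∈ Icc 1 R, BP4.S01lam R ((z : ℝ) - 1) d * a3i a d n) ^ 2
      = ∑ d ∈ Icc 1 R, ∑ e ∈ Icc 1 R, BP4.S01lam R ((z : ℝ) - 1) d *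
        BP4.S01lam R ((z : ℝ) - 1) e * ∑ n ∈ range N, a3i a d n * a3i a e n := by
    calc ∑ n ∈ range N, (∑ d ∈ Icc 1 R, BP4.S01lam R ((z : ℝ) - 1) d * a3i a d n) ^ 2
        = ∑ n ∈ range N, ∑ d ∈ Icc 1 R, ∑ e ∈ Icc 1 R,
          (BP4.S01lam R ((z : ℝ) - 1) d * a3i a d n) *
            (BP4.S01lam R ((z : ℝ) - 1) e * a3i a e n) := by
          refine Finset.sum_congr rfl fun n _ => ?_
          rw [sq, Finset.sum_mul_sum]
      _ = ∑ d ∈ Icc 1 R, ∑ n ∈ range N, ∑ e ∈ Icc 1 R,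
          (BP4.S01lam R ((z : ℝ) - 1) d * a3i a d n) *
            (BP4.S01lam R ((z : ℝ) - 1) e * a3i a e n) := Finset.sum_comm
      _ = _ := by
          refine Finset.sum_congr rfl fun d _ => ?_
          rw [Finset.sum_comm]
          refine Finset.sum_congr rfl fun e _ => ?_
          rw [Finset.mul_sum]
          refine Finset.sum_congr rfl fun n _ => ?_
          ring
  have h3 : ∑ d ∈ Icc 1 R, ∑ e ∈ Icc 1 R, BP4.S01lam R ((z : ℝ) - 1) d *
        BP4.S01lam R ((z : ℝ) - 1) e * ∑ n ∈ range N, a3i a d n * a3i a e n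
      ≤ ∑ d ∈ Icc 1 R, ∑ e ∈ Icc 1 R, (N * (BP4.S01lam R ((z : ℝ) - 1) d *
        BP4.S01lam R ((z : ℝ) - 1) e / (Nat.lcm d e : ℝ)) + 1) :=
    Finset.sum_le_sum fun d _ => Finset.sum_le_sum fun e _ => a3_term a N R d e _ hR
  have h4 : ∑ d ∈ Icc 1 R, ∑ e ∈ Icc 1 R, (N * (BP4.S01lam R ((z : ℝ) - 1) d *
        BP4.S01lam R ((z : ℝ) - 1) e / (Nat.lcm d e : ℝ)) + 1)
      = N / GG R z + R ^ 2 := by
    simp only [Finset.sum_add_distrib, ← Finset.mul_sum]
    rw [BP4.S01_quad hR, a3_GG, mul_one_div]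
    simp only [Finset.sum_const, Nat.card_Icc, nsmul_eq_mul, mul_one]
    push_cast
    ring
  linarith

/-- LEGENDRE. PROOF. Induction on `z`, for all `a` and `N`: if `z` is prime,
`S a N (z+1) = S a N z - T a N z` and `T a N z = S a' N' z` with `|N' - N/z| ≤ 1` (rows A1, A2 may
be imported), so the error `E(z)` satisfies `E(z+1) ≤ E(z) + E(z) + 1`: `E(z) ≤ 2^z - 1`.
(Or directly by inclusion-exclusion.) -/
theorem legendre (a : ℕ → ℕ) (N z : ℕ) : |(S a N z : ℝ) - N * V z| ≤ 2 ^ z := by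
  classical
  have key : ∀ z : ℕ, ∀ (a : ℕ → ℕ) (N : ℕ), |(S a N z : ℝ) - N * V z| ≤ 2 ^ z - 1 := by
    intro z
    induction z with
    | zero =>
      intro a N
      have h1 : S a N 0 = N := by
        unfold S
        rw [Finset.filter_true_of_mem, Finset.card_range]
        intro n _ p _ hp
        exact absurd hp (Nat.not_lt_zero p)
      have h2 : V 0 = 1 := by
        unfold V
        simp
      rw [h1, h2]
      simp
    | succ z ih =>
      intro a N
      have hb := buchstab a N z (z + 1) (Nat.le_succ z)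
      have hV : V (z + 1) = if z.Prime then V z * (1 - 1 / (z : ℝ)) else V z := by
        unfold V
        rw [Finset.range_add_one, Finset.filter_insert]
        split_ifs with h
        · rw [Finset.prod_insert (by simp), mul_comm]
        · rfl
      have hI : Ico z (z + 1) = {z} := by
        ext x
        rw [Finset.mem_Ico, Finset.mem_singleton]
        omega
      rw [hI, Finset.filter_singleton] at hb
      have hpow : (2 : ℝ) ^ (z + 1) = 2 * 2 ^ z := by ring
      have hpow1 : (1 : ℝ) ≤ 2 ^ z := one_le_pow₀ (by norm_num)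
      by_cases hz : z.Prime
      · rw [if_pos hz, Finset.sum_singleton] at hb
        rw [if_pos hz] at hV
        obtain ⟨a', N', h1, h2, h3⟩ := T_eq a N z hz
        rw [h3] at hb
        have hz0 : (0 : ℝ) < z := by exact_mod_cast hz.pos
        have h4 : (N' : ℝ) ≤ N / z + 1 := by
          have h5 : (N' : ℝ) ≤ ((N / z : ℕ) : ℝ) + 1 := by exact_mod_cast h2
          have h6 : ((N / z : ℕ) : ℝ) ≤ N / z := Nat.cast_div_le
          linarith
        have h5 : (N : ℝ) / z ≤ N' + 1 := by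
          rw [div_le_iff₀ hz0]
          have h6 : N < (N / z + 1) * z := (Nat.div_lt_iff_lt_mul hz.pos).1 (Nat.lt_succ_self _)
          have h7 : N ≤ (N' + 1) * z := h6.le.trans (Nat.mul_le_mul_right z (by omega))
          exact_mod_cast h7
        have hV0 := V_pos z
        have hV1 : V z ≤ 1 := by
          have h8 := V_anti (Nat.zero_le z)
          have h9 : V 0 = 1 := by
            unfold V
            simp
          rw [h9] at h8
          exact h8
        have h6 := abs_le.1 (ih a N)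
        have h7 := abs_le.1 (ih a' N')
        have hbR : (S a N z : ℝ) = S a N (z + 1) + S a' N' z := by exact_mod_cast hb
        have h8 : ((N' : ℝ) - N / z) * V z ≤ 1 := by
          nlinarith
        have h9 : -1 ≤ ((N' : ℝ) - N / z) * V z := by
          nlinarith
        have h10 : (S a N (z + 1) : ℝ) - N * V (z + 1)
            = (S a N z - N * V z) - (S a' N' z - N' * V z) - ((N' : ℝ) - N / z) * V z := by
          rw [hV, hbR]
          ring
        rw [h10, abs_le, hpow]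
        constructor <;> linarith [h6.1, h6.2, h7.1, h7.2]
      · rw [if_neg hz, Finset.sum_empty, add_zero] at hb
        rw [if_neg hz] at hV
        rw [← hb, hV, hpow]
        have h6 := ih a N
        linarith
  have h := key z a N
  linarith

end Pool.Agent.LibLin93
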