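import Pool.Agent.LibLin93.Defs
import Pool.Agent.LibMaier.Mertens1

/-! Row LS A4: Rankin's lower bound for Selberg's sum. -/

set_option autoImplicit false

namespace Pool.Agent.LibLin93

open Finset Filter Topology

theorem A4_prm {z p : ℕ} (hp : p ∈ (range z).filter Nat.Prime) :
    p.Prime ∧ p < z ∧ (2 : ℝ) ≤ p := by
  rw [mem_filter, mem_range] at hp
  exact ⟨hp.2, hp.1, by exact_mod_cast hp.2.two_le⟩

theorem A4_inv_V (z : ℕ) :
    1 / V z = ∑ s ∈ ((range z).filter Nat.Prime).powerset, ∏ p ∈ s, 1 / ((p : ℝ) - 1) := by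
  rw [← Finset.prod_one_add]
  unfold V
  rw [one_div, ← Finset.prod_inv_distrib]
  apply Finset.prod_congr rfl
  intro p hp
  have h2 := (A4_prm hp).2.2
  have h3 : (p : ℝ) ≠ 0 := by linarith
  have h4 : (p : ℝ) - 1 ≠ 0 := by
    intro h
    linarith
  field_simp
  ring

theorem A4_V_pos (z : ℕ) : 0 < V z := by
  unfold V
  apply Finset.prod_pos
  intro p hp
  have h2 := (A4_prm hp).2.2
  have : 1 / (p : ℝ) ≤ 1 / 2 := one_div_le_one_div_of_le (by norm_num) h2
  linarith

theorem A4_exp_sub_one {x : ℝ} (h0 : 0 ≤ x) (h1 : x ≤ 4) :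
    Real.exp x - 1 ≤ Real.exp 4 * x := by
  have h2 : Real.exp x - 1 ≤ x * Real.exp x := by
    have h3 := Real.add_one_le_exp (-x)
    have h4 : Real.exp x * Real.exp (-x) = 1 := by
      rw [← Real.exp_add]
      simp
    have h5 : Real.exp x * (-x + 1) ≤ Real.exp x * Real.exp (-x) :=
      mul_le_mul_of_nonneg_left h3 (Real.exp_pos x).le
    nlinarith
  have h3 : Real.exp x ≤ Real.exp 4 := Real.exp_le_exp.2 h1
  nlinarith

theorem A4_sqf {s : Finset ℕ} (hs : ∀ p ∈ s, p.Prime) : Squarefree (∏ p ∈ s, p) := by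
  refine Finset.squarefree_prod_of_pairwise_isCoprime (fun p hp q hq hpq ↦ ?_)
    fun p hp ↦ (hs p hp).squarefree
  exact Nat.coprime_iff_isRelPrime.mp ((Nat.coprime_primes (hs p hp) (hs q hq)).mpr hpq)

theorem A4_tot {d : ℕ} (hd : Squarefree d) :
    (Nat.totient d : ℝ) = ∏ p ∈ d.primeFactors, ((p : ℝ) - 1) := by
  have h1 := Nat.totient_mul_prod_primeFactors d
  rw [Nat.prod_primeFactors_of_squarefree hd, mul_comm] at h1
  have h2 : d.totient = ∏ p ∈ d.primeFactors, (p - 1) :=
    Nat.eq_of_mul_eq_mul_left (Nat.pos_of_ne_zero hd.ne_zero) h1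
  rw [h2, Nat.cast_prod]
  refine prod_congr rfl fun p hp => ?_
  rw [Nat.cast_sub (Nat.prime_of_mem_primeFactors hp).one_le, Nat.cast_one]

theorem A4_G_eq (R z : ℕ) : GG R z =
    ∑ s ∈ ((range z).filter Nat.Prime).powerset.filter (fun s => ∏ p ∈ s, p ≤ R),
      ∏ p ∈ s, 1 / ((p : ℝ) - 1) := by
  classical
  unfold GG
  have hmem : ∀ s ∈ ((range z).filter Nat.Prime).powerset.filter (fun s => ∏ p ∈ s, p ≤ R),
      (∀ p ∈ s, p.Prime ∧ p < z) ∧ ∏ p ∈ s, p ≤ R := by
    intro s hs
    rw [mem_filter, mem_powerset] at hs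
    exact ⟨fun p hp => ⟨(A4_prm (hs.1 hp)).1, (A4_prm (hs.1 hp)).2.1⟩, hs.2⟩
  refine sum_bij' (fun d _ => d.primeFactors) (fun s _ => ∏ p ∈ s, p) ?_ ?_ ?_ ?_ ?_
  · intro d hd
    rw [mem_filter, mem_Icc] at hd
    rw [mem_filter, mem_powerset, Nat.prod_primeFactors_of_squarefree hd.2.1]
    refine ⟨fun p hp => ?_, hd.1.2⟩
    have hp' := Nat.prime_of_mem_primeFactors hp
    exact mem_filter.2 ⟨mem_range.2 (hd.2.2 p hp' (Nat.dvd_of_mem_primeFactors hp)), hp'⟩
  · intro s hs
    obtain ⟨h1, h2⟩ := hmem s hs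
    rw [mem_filter, mem_Icc]
    refine ⟨⟨prod_pos fun p hp => (h1 p hp).1.pos, h2⟩, A4_sqf fun p hp => (h1 p hp).1,
      fun p hp hdvd => ?_⟩
    have h3 : p ∈ (∏ p ∈ s, p).primeFactors :=
      Nat.mem_primeFactors.mpr ⟨hp, hdvd, (prod_pos fun p hp => (h1 p hp).1.pos).ne'⟩
    rw [Nat.primeFactors_prod fun p hp => (h1 p hp).1] at h3
    exact (h1 p h3).2
  · intro d hd
    rw [mem_filter] at hd
    exact Nat.prod_primeFactors_of_squarefree hd.2.1
  · intro s hs
    exact Nat.primeFactors_prod fun p hp => ((hmem s hs).1 p hp).1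
  · intro d hd
    rw [mem_filter] at hd
    rw [A4_tot hd.2.1, prod_div_distrib, prod_const_one]

/-- PROOF. Let `κ = 4 / log z`. The sum of `1/φ(d)` over all squarefree `d` with prime factors
`< z` is `∏_{p<z} (1 + 1/(p-1)) = 1 / V z`. The part with `d > R` is at most
`R^(-κ) ∑ d^κ / φ(d) = R^(-κ) ∏_{p<z} (1 + p^κ/(p-1))`. Multiply by `V z`:
`(1 - 1/p)(1 + p^κ/(p-1)) = 1 + (p^κ - 1)/p ≤ exp ((p^κ - 1)/p)`, and as `κ log p ≤ 4`,
`p^κ - 1 ≤ κ log p * exp 4`; so the product is at most
`exp (4 exp 4 / log z * ∑_{p<z} log p / p) ≤ exp (4 exp 4 (1 + log 4 / log 2))`, by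
`TN_le` of `Pool.Agent.LibMaier.Mertens1` (`∑_{p ≤ N} log p / p ≤ log N + log 4`).
Finally `R^(-κ) = exp (-(4 log R / log z))`. The same argument with `κ = 1/log z` is in
`Pool.Agent.LibBP4` (search for `le_V`). -/
theorem rankin : ∃ C : ℝ, 0 < C ∧ ∀ R z : ℕ, 2 ≤ z → 1 ≤ R →
    1 - C * Real.exp (-(4 * (Real.log R / Real.log z))) ≤ V z * GG R z := by
  refine ⟨Real.exp (4 * Real.exp 4 * (1 + Real.log 4 / Real.log 2)), Real.exp_pos _, ?_⟩
  intro R z hz hR
  have hz2 : (2 : ℝ) ≤ z := by exact_mod_cast hz
  have hlz : 0 < Real.log z := Real.log_pos (by linarith)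
  have hl2 : 0 < Real.log 2 := Real.log_pos (by norm_num)
  have hl4 : 0 < Real.log 4 := Real.log_pos (by norm_num)
  have hl2z : Real.log 2 ≤ Real.log z := Real.log_le_log (by norm_num) hz2
  have hR0 : (0 : ℝ) < R := by exact_mod_cast hR
  set η : ℝ := 4 / Real.log z with hη
  have hη0 : 0 < η := by positivity
  have hV := A4_V_pos z
  -- the difference
  have hdiff : 1 / V z - GG R z =
      ∑ s ∈ ((range z).filter Nat.Prime).powerset.filter (fun s => ¬ ∏ p ∈ s, p ≤ R),
        ∏ p ∈ s, 1 / ((p : ℝ) - 1) := by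
    rw [A4_inv_V, A4_G_eq R z,
      ← Finset.sum_filter_add_sum_filter_not ((range z).filter Nat.Prime).powerset
        (fun s => ∏ p ∈ s, p ≤ R)]
    ring
  -- the termwise bound
  have hterm : ∀ s ∈ ((range z).filter Nat.Prime).powerset.filter (fun s => ¬ ∏ p ∈ s, p ≤ R),
      ∏ p ∈ s, 1 / ((p : ℝ) - 1) ≤
        (R : ℝ) ^ (-η) * ∏ p ∈ s, ((p : ℝ) ^ η * (1 / ((p : ℝ) - 1))) := by
    intro s hs
    rw [mem_filter, mem_powerset, not_le] at hs
    obtain ⟨hs1, hs2⟩ := hs
    have hpos : 0 ≤ ∏ p ∈ s, 1 / ((p : ℝ) - 1) := by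
      apply Finset.prod_nonneg
      intro p hp
      have h2 := (A4_prm (hs1 hp)).2.2
      apply div_nonneg (by norm_num)
      linarith
    rw [Finset.prod_mul_distrib, ← mul_assoc]
    have h1 : (1 : ℝ) ≤ (R : ℝ) ^ (-η) * ∏ p ∈ s, (p : ℝ) ^ η := by
      have h2 : ∏ p ∈ s, (p : ℝ) ^ η = (∏ p ∈ s, (p : ℝ)) ^ η := by
        rw [← Real.finsetProd_rpow]
        intro p _
        positivity
      rw [h2]
      have h3 : (R : ℝ) ≤ ∏ p ∈ s, (p : ℝ) := by
        have := hs2.le
        have h4 : ((R : ℕ) : ℝ) ≤ ((∏ p ∈ s, p : ℕ) : ℝ) := by exact_mod_cast this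
        rwa [Nat.cast_prod] at h4
      have h4 : (R : ℝ) ^ η ≤ (∏ p ∈ s, (p : ℝ)) ^ η :=
        Real.rpow_le_rpow hR0.le h3 hη0.le
      calc (1 : ℝ) = (R : ℝ) ^ (-η) * (R : ℝ) ^ η := by
            rw [← Real.rpow_add hR0]
            simp
        _ ≤ _ := mul_le_mul_of_nonneg_left h4 (Real.rpow_nonneg hR0.le _)
    nlinarith
  have hmain : 1 / V z - GG R z ≤ Real.exp (4 * Real.exp 4 * (1 + Real.log 4 / Real.log 2)) *
      Real.exp (-(4 * (Real.log R / Real.log z))) / V z := by
    rw [hdiff]
    calc ∑ s ∈ ((range z).filter Nat.Prime).powerset.filter (fun s => ¬ ∏ p ∈ s, p ≤ R),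
          ∏ p ∈ s, 1 / ((p : ℝ) - 1)
        ≤ ∑ s ∈ ((range z).filter Nat.Prime).powerset.filter (fun s => ¬ ∏ p ∈ s, p ≤ R),
          (R : ℝ) ^ (-η) * ∏ p ∈ s, ((p : ℝ) ^ η * (1 / ((p : ℝ) - 1))) :=
          Finset.sum_le_sum hterm
      _ ≤ ∑ s ∈ ((range z).filter Nat.Prime).powerset,
          (R : ℝ) ^ (-η) * ∏ p ∈ s, ((p : ℝ) ^ η * (1 / ((p : ℝ) - 1))) := by
          apply Finset.sum_le_sum_of_subset_of_nonneg (Finset.filter_subset _ _)
          intro s hs _
          rw [mem_powerset] at hs
          apply mul_nonneg (Real.rpow_nonneg hR0.le _)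
          apply Finset.prod_nonneg
          intro p hp
          have h2 := (A4_prm (hs hp)).2.2
          apply mul_nonneg (Real.rpow_nonneg (by linarith) _)
          apply div_nonneg (by norm_num)
          linarith
      _ = (R : ℝ) ^ (-η) * ∏ p ∈ (range z).filter Nat.Prime,
            (1 + (p : ℝ) ^ η * (1 / ((p : ℝ) - 1))) := by
          rw [← Finset.mul_sum, Finset.prod_one_add]
      _ = (R : ℝ) ^ (-η) * ((1 / V z) * ∏ p ∈ (range z).filter Nat.Prime,
            (1 + ((p : ℝ) ^ η - 1) / p)) := by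
          congr 1
          unfold V
          rw [one_div, ← Finset.prod_inv_distrib, ← Finset.prod_mul_distrib]
          apply Finset.prod_congr rfl
          intro p hp
          have h2 := (A4_prm hp).2.2
          have h3 : (p : ℝ) ≠ 0 := by linarith
          have h4 : (p : ℝ) - 1 ≠ 0 := by
            intro h
            linarith
          field_simp
          ring
      _ ≤ (R : ℝ) ^ (-η) *
            ((1 / V z) * Real.exp (4 * Real.exp 4 * (1 + Real.log 4 / Real.log 2))) := by
          apply mul_le_mul_of_nonneg_left _ (Real.rpow_nonneg hR0.le _)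
          apply mul_le_mul_of_nonneg_left _ (by positivity)
          calc ∏ p ∈ (range z).filter Nat.Prime, (1 + ((p : ℝ) ^ η - 1) / p)
              ≤ ∏ p ∈ (range z).filter Nat.Prime, Real.exp (((p : ℝ) ^ η - 1) / p) := by
                apply Finset.prod_le_prod
                · intro p hp
                  have h2 := (A4_prm hp).2.2
                  have h3 : (1 : ℝ) ≤ (p : ℝ) ^ η := Real.one_le_rpow (by linarith) hη0.le
                  have : 0 ≤ ((p : ℝ) ^ η - 1) / p := div_nonneg (by linarith) (by linarith)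
                  linarith
                · intro p hp
                  have := Real.add_one_le_exp (((p : ℝ) ^ η - 1) / p)
                  linarith
            _ = Real.exp (∑ p ∈ (range z).filter Nat.Prime, ((p : ℝ) ^ η - 1) / p) := by
                rw [Real.exp_sum]
            _ ≤ Real.exp (4 * Real.exp 4 * (1 + Real.log 4 / Real.log 2)) := by
                apply Real.exp_le_exp.2
                have h5 : ∀ p ∈ (range z).filter Nat.Prime, ((p : ℝ) ^ η - 1) / p ≤
                    Real.exp 4 * η * (Real.log p / p) := by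
                  intro p hp
                  obtain ⟨_, hpz, h2⟩ := A4_prm hp
                  have hp0 : (0 : ℝ) < p := by linarith
                  have hlp : 0 ≤ Real.log p := Real.log_nonneg (by linarith)
                  have hpz' : (p : ℝ) ≤ z := by exact_mod_cast hpz.le
                  have hlpz : Real.log p ≤ Real.log z := Real.log_le_log hp0 hpz'
                  have h6 : (p : ℝ) ^ η = Real.exp (Real.log p * η) := by
                    rw [Real.rpow_def_of_pos hp0]
                  have h7 : Real.log p * η ≤ 4 := by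
                    rw [hη, mul_div_assoc', div_le_iff₀ hlz]
                    linarith
                  have h8 := A4_exp_sub_one (mul_nonneg hlp hη0.le) h7
                  rw [h6]
                  calc (Real.exp (Real.log p * η) - 1) / p
                      ≤ (Real.exp 4 * (Real.log p * η)) / p :=
                        div_le_div_of_nonneg_right h8 hp0.le
                    _ = Real.exp 4 * η * (Real.log p / p) := by ring
                refine (Finset.sum_le_sum h5).trans ?_
                rw [← Finset.mul_sum]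
                have h9 := Pool.Agent.LibMaier.TN_le z (by omega)
                have h10 : ∑ p ∈ (range z).filter Nat.Prime, Real.log p / p ≤
                    Real.log z + Real.log 4 := by
                  refine le_trans ?_ h9
                  unfold Pool.Agent.LibMaier.TN
                  refine Finset.sum_le_sum_of_subset_of_nonneg ?_ ?_
                  · intro p hp
                    exact Pool.Agent.LibMaier.mem_PN.2 ⟨(A4_prm hp).2.1.le, (A4_prm hp).1⟩
                  · intro p hp _
                    have h11 := (Pool.Agent.LibMaier.mem_PN.1 hp).2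
                    have h12 : (1 : ℝ) ≤ p := by exact_mod_cast h11.one_le
                    exact div_nonneg (Real.log_nonneg h12) (by linarith)
                have h11 : Real.exp 4 * η * ∑ p ∈ (range z).filter Nat.Prime, Real.log p / p ≤
                    Real.exp 4 * η * (Real.log z + Real.log 4) :=
                  mul_le_mul_of_nonneg_left h10 (by positivity)
                refine h11.trans ?_
                have h12 : Real.exp 4 * η * (Real.log z + Real.log 4) =
                    4 * Real.exp 4 * (1 + Real.log 4 / Real.log z) := by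
                  rw [hη]
                  field_simp
                rw [h12]
                have h13 : Real.log 4 / Real.log z ≤ Real.log 4 / Real.log 2 :=
                  div_le_div_of_nonneg_left hl4.le hl2 hl2z
                exact mul_le_mul_of_nonneg_left (by linarith) (by positivity)
      _ = Real.exp (4 * Real.exp 4 * (1 + Real.log 4 / Real.log 2)) *
            Real.exp (-(4 * (Real.log R / Real.log z))) / V z := by
          have h14 : (R : ℝ) ^ (-η) = Real.exp (-(4 * (Real.log R / Real.log z))) := by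
            rw [Real.rpow_def_of_pos hR0, hη]
            congr 1
            ring
          rw [h14]
          ring
  have h1 := mul_le_mul_of_nonneg_left hmain hV.le
  have h2 : V z * (1 / V z - GG R z) = 1 - V z * GG R z := by
    field_simp
  have h3 : V z * (Real.exp (4 * Real.exp 4 * (1 + Real.log 4 / Real.log 2)) *
      Real.exp (-(4 * (Real.log R / Real.log z))) / V z) =
      Real.exp (4 * Real.exp 4 * (1 + Real.log 4 / Real.log 2)) *
      Real.exp (-(4 * (Real.log R / Real.log z))) := by
    field_simp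
  rw [h2, h3] at h1
  linarith

end Pool.Agent.LibLin93
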