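import Pool.Agent.LibLin93.A1
import Pool.Agent.LibMaier.Mertens

/-! Row LS A5: Mertens' theorem for `V`. -/

set_option autoImplicit false

namespace Pool.Agent.LibLin93

open Finset Filter Topology

/-- PROOF. `mertens_third` of LibMaier is the same with the primes `≤ z`; shift by one
(`V (z+1) log z → e^(-γ)` and `log (z+1) / log z → 1`). -/
theorem mertens_V : Tendsto (fun z : ℕ => V z * Real.log z) atTop
    (𝓝 (Real.exp (-Real.eulerMascheroniConstant))) := by
  rw [← tendsto_add_atTop_iff_nat 1]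
  have h1 := Pool.Agent.LibMaier.mertens_third
  have hlog : Tendsto (fun z : ℕ => Real.log (z : ℝ)) atTop atTop :=
    Real.tendsto_log_atTop.comp tendsto_natCast_atTop_atTop
  have h2 : Tendsto (fun z : ℕ => 1 + (Real.log ((z : ℝ) + 1) - Real.log z) / Real.log z) atTop (𝓝 (1 + 0)) :=
    tendsto_const_nhds.add (Real.tendsto_log_nat_add_one_sub_log.div_atTop hlog)
  have h3 := h1.mul h2
  rw [add_zero, mul_one] at h3
  refine h3.congr' ?_
  filter_upwards [eventually_ge_atTop 2] with z hz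
  have hz' : (1 : ℝ) < z := by exact_mod_cast (by omega : 1 < z)
  have hl : Real.log (z : ℝ) ≠ 0 := (Real.log_pos hz').ne'
  unfold V
  push_cast
  field_simp
  ring

/-- PROOF. From `mertens_V`, the limit is positive. -/
theorem V_ratio (ε : ℝ) (hε : 0 < ε) : ∃ Z : ℕ, 2 ≤ Z ∧ ∀ w z : ℕ, Z ≤ w → Z ≤ z →
    |V w * Real.log w / (V z * Real.log z) - 1| ≤ ε := by
  set L := Real.exp (-Real.eulerMascheroniConstant) with hL
  have hLpos : 0 < L := Real.exp_pos _
  have hδ : 0 < ε * L / (2 + ε) := by positivity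
  have hδL : ε * L / (2 + ε) < L := by
    rw [div_lt_iff₀ (by positivity)]
    nlinarith
  obtain ⟨Z, hZ⟩ := (Metric.tendsto_atTop.1 mertens_V) _ hδ
  refine ⟨max Z 2, le_max_right _ _, fun w z hw hz => ?_⟩
  have h1 := hZ w (le_trans (le_max_left _ _) hw)
  have h2 := hZ z (le_trans (le_max_left _ _) hz)
  rw [Real.dist_eq, ← hL, abs_lt] at h1 h2
  set fw := V w * Real.log w
  set fz := V z * Real.log z
  have hfz : 0 < fz := by linarith [h2.1]
  have hne : fz ≠ 0 := hfz.ne'
  have e1 : fw / fz - 1 = (fw - fz) / fz := by field_simp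
  rw [e1, abs_div, abs_of_pos hfz, div_le_iff₀ hfz]
  have h3 : |fw - fz| ≤ 2 * (ε * L / (2 + ε)) := by
    rw [abs_le]
    constructor <;> linarith [h1.1, h1.2, h2.1, h2.2]
  have h4 : 2 * (ε * L / (2 + ε)) = ε * (L - ε * L / (2 + ε)) := by
    field_simp
    ring
  have h5 : ε * (L - ε * L / (2 + ε)) ≤ ε * fz :=
    mul_le_mul_of_nonneg_left (by linarith [h2.1]) hε.le
  linarith

/-- PROOF. A convergent sequence of positive numbers with a positive limit is bounded and bounded
away from `0` (for `z ≥ 2`, where `V z * log z > 0`). -/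
theorem V_bounds : ∃ c C : ℝ, 0 < c ∧ 0 < C ∧ ∀ z : ℕ, 2 ≤ z →
    c ≤ V z * Real.log z ∧ V z * Real.log z ≤ C := by
  obtain ⟨C, hC⟩ := mertens_V.bddAbove_range
  have hpos : ∀ z : ℕ, 2 ≤ z → 0 < V z * Real.log z := fun z hz => by
    have hz' : (1 : ℝ) < z := by exact_mod_cast (by omega : 1 < z)
    exact mul_pos (V_pos z) (Real.log_pos hz')
  have hinv := mertens_V.inv₀ (Real.exp_pos _).ne'
  obtain ⟨D, hD⟩ := hinv.bddAbove_range
  refine ⟨(max D 1)⁻¹, max C 1, by positivity, by positivity, fun z hz => ⟨?_, ?_⟩⟩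
  · have h1 : (V z * Real.log z)⁻¹ ≤ D := hD ⟨z, rfl⟩
    have h2 := hpos z hz
    rw [inv_le_comm₀ (by positivity) h2]
    exact h1.trans (le_max_left _ _)
  · exact le_trans (hC ⟨z, rfl⟩) (le_max_left _ _)

end Pool.Agent.LibLin93
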