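import Pool.Agent.LibLin93.A1
import Pool.Agent.LibLin93.A3
import Pool.Agent.LibLin93.A4
import Pool.Agent.LibLin93.A5

/-! Row LS A6: the upper bound of the fundamental lemma. -/

set_option autoImplicit false

namespace Pool.Agent.LibLin93

open Finset Filter Topology

private theorem A6_log_le {x : ℝ} (hx : 0 < x) : Real.log x ≤ Real.sqrt x := by
  have hs : 0 < Real.sqrt x := Real.sqrt_pos.2 hx
  have he : (2 : ℝ) ≤ Real.exp 1 := by
    have := Real.add_one_le_exp (1 : ℝ)
    linarith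
  have h1 := Real.log_le_sub_one_of_pos (div_pos hs (Real.exp_pos 1))
  rw [Real.log_div hs.ne' (Real.exp_pos 1).ne', Real.log_exp, Real.log_sqrt hx.le] at h1
  have h2 : Real.sqrt x / Real.exp 1 ≤ Real.sqrt x / 2 :=
    div_le_div_of_nonneg_left hs.le (by norm_num) he
  linarith

private theorem A6_log_two_mul {L : ℝ} (hL : 0 < L) : 4 * Real.log (2 * L) ≤ L + 12 * Real.log 2 := by
  have h1 := Real.log_le_sub_one_of_pos (show (0 : ℝ) < L / 4 by positivity)
  have h2 : Real.log (L / 4) = Real.log (2 * L) - 3 * Real.log 2 := by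
    have h8 : (3 : ℝ) * Real.log 2 = Real.log 8 := by
      rw [show (8 : ℝ) = 2 ^ (3 : ℕ) by norm_num, Real.log_pow]
      push_cast
      ring
    rw [h8, ← Real.log_div (by positivity) (by norm_num)]
    congr 1
    ring
  linarith

private theorem A6_inv {η : ℝ} (h1 : η ≤ 1 / 2) (h0 : 0 ≤ η) : 1 / (1 - η) ≤ 1 + 2 * η := by
  rw [div_le_iff₀ (by linarith)]
  nlinarith

private theorem A6_main (c C₁ : ℝ) (hc0 : 0 < c) (hC0 : 0 < C₁)
    (hc : ∀ z : ℕ, 2 ≤ z → c ≤ V z * Real.log z)
    (hC : ∀ R z : ℕ, 2 ≤ z → 1 ≤ R →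
      1 - C₁ * Real.exp (-(4 * (Real.log R / Real.log z))) ≤ V z * GG R z)
    (z N : ℕ) (hz : 2 ≤ z) (hN : z ≤ N) (a : ℕ → ℕ)
    (hs : C₁ * Real.exp 12 * Real.exp (-rt N z) ≤ 1 / 2) :
    (S a N z : ℝ) ≤ (1 + 2 * (C₁ * Real.exp 12 * Real.exp (-rt N z)) + 1 / (c * Real.log N)) * (N * V z) := by
  have hz1 : (1 : ℝ) < z := by exact_mod_cast (by omega : 1 < z)
  have hzN : (z : ℝ) ≤ N := by exact_mod_cast hN
  have hz2 : (2 : ℝ) ≤ z := by exact_mod_cast hz
  have hN1 : (1 : ℝ) < N := lt_of_lt_of_le hz1 hzN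
  have hNpos : (0 : ℝ) < N := by linarith
  have hℓ : 0 < Real.log z := Real.log_pos hz1
  have hL : 0 < Real.log N := Real.log_pos hN1
  have hℓL : Real.log z ≤ Real.log N := Real.log_le_log (by linarith) hzN
  have h2ℓ : Real.log 2 ≤ Real.log z := Real.log_le_log (by norm_num) hz2
  have hV := V_pos z
  set ℓ := Real.log z with hℓdef
  set L := Real.log N with hLdef
  have hsq : 0 < Real.sqrt N := Real.sqrt_pos.2 hNpos
  have hx1 : 1 ≤ Real.sqrt N / L := by
    rw [le_div_iff₀ hL, one_mul]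
    exact A6_log_le hNpos
  set R := ⌊Real.sqrt N / L⌋₊ with hR
  have hR1 : 1 ≤ R := Nat.le_floor (by exact_mod_cast hx1)
  have hR2 : (R : ℝ) ≤ Real.sqrt N / L := Nat.floor_le (by linarith)
  have hR3 : Real.sqrt N / L / 2 ≤ R := by
    have h1 := Nat.lt_floor_add_one (Real.sqrt N / L)
    have h2 : (1 : ℝ) ≤ R := by exact_mod_cast hR1
    rw [← hR] at h1
    linarith
  -- the square of `R`
  have hRsq : (R : ℝ) ^ 2 ≤ 1 / (c * L) * (N * V z) := by
    have h1 : (R : ℝ) ^ 2 ≤ (Real.sqrt N / L) ^ 2 := pow_le_pow_left₀ (by positivity) hR2 2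
    rw [div_pow, Real.sq_sqrt hNpos.le] at h1
    have h2 : c / L ≤ V z := by
      rw [div_le_iff₀ hL]
      exact (hc z hz).trans (mul_le_mul_of_nonneg_left hℓL hV.le)
    have h3 : (N : ℝ) / L ^ 2 = 1 / (c * L) * (N * (c / L)) := by
      field_simp
    rw [h3] at h1
    refine h1.trans ?_
    refine mul_le_mul_of_nonneg_left ?_ (by positivity)
    exact mul_le_mul_of_nonneg_left h2 hNpos.le
  -- the exponent
  have hexp : rt N z - 12 ≤ 4 * (Real.log R / ℓ) := by
    have h1 : Real.log (Real.sqrt N / L / 2) ≤ Real.log R := Real.log_le_log (by positivity) hR3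
    have h2 : Real.log (Real.sqrt N / L / 2) = L / 2 - Real.log (2 * L) := by
      rw [div_div, Real.log_div hsq.ne' (by positivity), Real.log_sqrt hNpos.le, mul_comm L 2]
    have h3 := A6_log_two_mul hL
    have h4 : L - 12 * ℓ ≤ 4 * Real.log R := by linarith
    have h5 : rt N z - 12 = (L - 12 * ℓ) / ℓ := by
      unfold rt
      rw [← hℓdef, ← hLdef]
      field_simp
    rw [h5, ← mul_div_assoc]
    exact div_le_div_of_nonneg_right h4 hℓ.le
  set η := C₁ * Real.exp 12 * Real.exp (-rt N z) with hη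
  have hη0 : 0 ≤ η := by positivity
  have hG : 1 - η ≤ V z * GG R z := by
    refine le_trans ?_ (hC R z hz hR1)
    have h1 : Real.exp (-(4 * (Real.log R / ℓ))) ≤ Real.exp 12 * Real.exp (-rt N z) := by
      rw [← Real.exp_add]
      exact Real.exp_le_exp.2 (by linarith)
    have h2 := mul_le_mul_of_nonneg_left h1 hC0.le
    rw [hη, mul_assoc]
    linarith
  have hGpos : 0 < GG R z := by
    have h1 : 0 < V z * GG R z := lt_of_lt_of_le (by linarith) hG
    exact (pos_iff_pos_of_mul_pos h1).1 hV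
  have h6 : (N : ℝ) / GG R z ≤ (1 + 2 * η) * (N * V z) := by
    have h1 : (N : ℝ) / GG R z = 1 / (V z * GG R z) * (N * V z) := by
      field_simp
    rw [h1]
    refine mul_le_mul_of_nonneg_right ?_ (by positivity)
    refine le_trans ?_ (A6_inv hs hη0)
    exact one_div_le_one_div_of_le (by linarith) hG
  have h7 := selberg a N R z hR1 (by omega)
  calc (S a N z : ℝ) ≤ N / GG R z + R ^ 2 := h7
    _ ≤ (1 + 2 * η) * (N * V z) + 1 / (c * L) * (N * V z) := add_le_add h6 hRsq
    _ = (1 + 2 * η + 1 / (c * L)) * (N * V z) := by ring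

private theorem A6_trivial (a : ℕ → ℕ) (N z : ℕ) : (S a N z : ℝ) ≤ N := by
  classical
  have h : S a N z ≤ N := by
    unfold S
    exact (Finset.card_filter_le _ _).trans (by simp)
  exact_mod_cast h

/-- PROOF. Write `L = log N`, `s = rt N z = L / log z ≥ 1`. Let `C₁` be the constant of `rankin`.
(i) For `N ≥ N₀` put `R = ⌊√N / L⌋ ≥ 1`. Then `R² ≤ N / L²`, and `V z ≥ c / log z ≥ c / L`
(`V_bounds`), so `R² ≤ (1/c) (1/L) N V z`. Moreover `R ≥ √N / (2L)`, so
`4 log R / log z ≥ 2 s - 4 (log (2 L)) / log z` and, as `L = s log z`,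
`4 log (2L) / log z = 4 (log 2 + log s + log log z) / log z ≤ s + C₂` for all `z ≥ 2`, `s ≥ 1`
(`log log z / log z` is bounded and `4 log s / log 2 ≤ s + C`). Hence
`C₁ exp (-4 log R / log z) ≤ C₃ exp (-s)`. If `C₃ exp (-s) ≤ 1/2`, then `selberg` and `rankin` give
`S ≤ N V z / (1 - C₃ exp (-s)) + R² ≤ N V z (1 + 2 C₃ exp (-s) + C/L)`.
(ii) If `C₃ exp (-s) > 1/2`, that is `s < s₀` with a constant `s₀`, use `S_anti` with the smaller
`z' = ⌊exp (L / s₀)⌋` (then `z' ≤ z`, `rt N z' ≥ s₀`): by (i) `S a N z ≤ S a N z' ≤ C N V z'` and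
`V z' ≤ C' V z` by `V_bounds` (`log z ≤ L`, `log z' ≥ L / (2 s₀)` for large `N`); and
`1 ≤ (2 C₃) exp (-s)`, so `S ≤ C'' exp (-s) N V z`.
(iii) For `N < N₀` (finitely many `z ≤ N`): `S ≤ N ≤ C N V z exp (-s)` with `C` large, because
`V z ≥ V N₀ > 0` and `s ≤ log N₀ / log 2`. -/
theorem fl_upper : ∃ C : ℝ, 0 < C ∧ ∀ z N : ℕ, 2 ≤ z → z ≤ N → ∀ a : ℕ → ℕ,
    (S a N z : ℝ) ≤ (1 + C * Real.exp (-rt N z) + C / Real.log N) * (N * V z) := by
  obtain ⟨C₁, hC0, hC⟩ := rankin
  obtain ⟨c, C₂, hc0, hC20, hcC⟩ := V_bounds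
  have hc : ∀ z : ℕ, 2 ≤ z → c ≤ V z * Real.log z := fun z hz => (hcC z hz).1
  have hC2 : ∀ z : ℕ, 2 ≤ z → V z * Real.log z ≤ C₂ := fun z hz => (hcC z hz).2
  have hlog2 : 0 < Real.log 2 := Real.log_pos (by norm_num)
  set C₃ := C₁ * Real.exp 12 with hC3
  have hC30 : 0 < C₃ := by positivity
  set s₀ := max 1 (Real.log (2 * C₃)) with hs0
  have hs01 : 1 ≤ s₀ := le_max_left _ _
  have hs00 : 0 < s₀ := by linarith
  have hs02 : C₃ * Real.exp (-s₀) ≤ 1 / 2 := by
    have h1 : Real.exp (-s₀) ≤ Real.exp (-(Real.log (2 * C₃))) :=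
      Real.exp_le_exp.2 (neg_le_neg (le_max_right _ _))
    rw [Real.exp_neg, Real.exp_neg, Real.exp_log (by positivity)] at h1
    rw [Real.exp_neg]
    have h2 := mul_le_mul_of_nonneg_left h1 hC30.le
    have h3 : C₃ * (2 * C₃)⁻¹ = 1 / 2 := by field_simp
    linarith
  set C₅ := 2 * s₀ * C₂ / c * (2 + 1 / (c * Real.log 2)) + s₀ * Real.log 2 / c with hC5
  have hC50 : 0 < C₅ := by positivity
  refine ⟨2 * C₃ + 2 * C₃ * C₅ + 1 / c, by positivity, fun z N hz hN a => ?_⟩
  have hz1 : (1 : ℝ) < z := by exact_mod_cast (by omega : 1 < z)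
  have hzN : (z : ℝ) ≤ N := by exact_mod_cast hN
  have hz2 : (2 : ℝ) ≤ z := by exact_mod_cast hz
  have hN1 : (1 : ℝ) < N := lt_of_lt_of_le hz1 hzN
  have hNpos : (0 : ℝ) < N := by linarith
  have hℓ : 0 < Real.log z := Real.log_pos hz1
  have hL : 0 < Real.log N := Real.log_pos hN1
  have hℓL : Real.log z ≤ Real.log N := Real.log_le_log (by linarith) hzN
  have h2ℓ : Real.log 2 ≤ Real.log z := Real.log_le_log (by norm_num) hz2
  have hV := V_pos z
  have hNV : 0 < (N : ℝ) * V z := by positivity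
  have he := Real.exp_pos (-rt N z)
  have hVL : c / Real.log N ≤ V z := by
    rw [div_le_iff₀ hL]
    exact (hc z hz).trans (mul_le_mul_of_nonneg_left hℓL hV.le)
  by_cases hs : C₃ * Real.exp (-rt N z) ≤ 1 / 2
  · refine (A6_main c C₁ hc0 hC0 hc hC z N hz hN a hs).trans ?_
    refine mul_le_mul_of_nonneg_right ?_ hNV.le
    have h1 : 1 / (c * Real.log N) = 1 / c / Real.log N := by rw [div_div]
    have h2 : 1 / c / Real.log N ≤ (2 * C₃ + 2 * C₃ * C₅ + 1 / c) / Real.log N := by
      refine div_le_div_of_nonneg_right ?_ hL.le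
      have : 0 < 2 * C₃ + 2 * C₃ * C₅ := by positivity
      linarith
    have h3 : 2 * (C₃ * Real.exp (-rt N z)) ≤ (2 * C₃ + 2 * C₃ * C₅ + 1 / c) * Real.exp (-rt N z) := by
      have h4 : 2 * (C₃ * Real.exp (-rt N z)) = 2 * C₃ * Real.exp (-rt N z) := by ring
      rw [h4]
      refine mul_le_mul_of_nonneg_right ?_ he.le
      have : 0 < 2 * C₃ * C₅ + 1 / c := by positivity
      linarith
    rw [h1]
    linarith
  · rw [not_le] at hs
    -- it suffices to bound by `C₅ * (N * V z)`
    suffices hmain : (S a N z : ℝ) ≤ C₅ * (N * V z) by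
      refine hmain.trans (mul_le_mul_of_nonneg_right ?_ hNV.le)
      have h1 : C₅ ≤ 2 * C₃ * C₅ * Real.exp (-rt N z) := by nlinarith
      have h2 : 0 < (2 * C₃ + 1 / c) * Real.exp (-rt N z) := by positivity
      have h3 : 0 < (2 * C₃ + 2 * C₃ * C₅ + 1 / c) / Real.log N := by positivity
      have h4 : (2 * C₃ + 2 * C₃ * C₅ + 1 / c) * Real.exp (-rt N z) =
        2 * C₃ * C₅ * Real.exp (-rt N z) + (2 * C₃ + 1 / c) * Real.exp (-rt N z) := by ring
      linarith
    have hss : rt N z < s₀ := by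
      by_contra hcon
      rw [not_lt] at hcon
      have h1 : Real.exp (-rt N z) ≤ Real.exp (-s₀) := Real.exp_le_exp.2 (by linarith)
      have h2 := mul_le_mul_of_nonneg_left h1 hC30.le
      linarith
    have hss' : Real.log N < s₀ * Real.log z := by
      unfold rt at hss
      rwa [div_lt_iff₀ hℓ] at hss
    by_cases hbig : s₀ * Real.log 2 ≤ Real.log N
    · have hx2 : 2 ≤ Real.exp (Real.log N / s₀) := by
        have h1 : Real.log 2 ≤ Real.log N / s₀ := by
          rw [le_div_iff₀ hs00]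
          linarith
        calc (2 : ℝ) = Real.exp (Real.log 2) := (Real.exp_log (by norm_num)).symm
          _ ≤ _ := Real.exp_le_exp.2 h1
      set x := Real.exp (Real.log N / s₀) with hx
      have hx0 : 0 < x := Real.exp_pos _
      set z' := ⌊x⌋₊ with hz'
      have hz'2 : 2 ≤ z' := Nat.le_floor (by exact_mod_cast hx2)
      have hz'x : (z' : ℝ) ≤ x := Nat.floor_le hx0.le
      have hz'x2 : x / 2 ≤ z' := by
        have h1 := Nat.lt_floor_add_one x
        have h2 : (2 : ℝ) ≤ z' := by exact_mod_cast hz'2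
        rw [← hz'] at h1
        linarith
      have hz'2r : (2 : ℝ) ≤ z' := by exact_mod_cast hz'2
      have hz'0 : (0 : ℝ) < z' := by linarith
      have hxz : x < z := by
        rw [hx, ← Real.lt_log_iff_exp_lt (by linarith), div_lt_iff₀ hs00]
        linarith
      have hz'z : z' ≤ z := by
        have : (z' : ℝ) < z := lt_of_le_of_lt hz'x hxz
        exact_mod_cast this.le
      have hlogz' : Real.log z' ≤ Real.log N / s₀ := by
        rw [Real.log_le_iff_le_exp hz'0]
        exact hz'x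
      have hlogz'2 : Real.log 2 ≤ Real.log z' := Real.log_le_log (by norm_num) hz'2r
      have hlogz'0 : 0 < Real.log z' := by linarith
      have hrt : s₀ ≤ rt N z' := by
        unfold rt
        rw [le_div_iff₀ hlogz'0]
        rw [le_div_iff₀ hs00] at hlogz'
        linarith
      have hlow : Real.log N / (2 * s₀) ≤ Real.log z' := by
        have h1 : Real.log (x / 2) ≤ Real.log z' := Real.log_le_log (by positivity) hz'x2
        rw [Real.log_div hx0.ne' (by norm_num), hx, Real.log_exp] at h1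
        have h2 : Real.log N / (2 * s₀) = Real.log N / s₀ / 2 := by
          field_simp
        rw [h2]
        linarith
      have hs' : C₁ * Real.exp 12 * Real.exp (-rt N z') ≤ 1 / 2 := by
        rw [← hC3]
        have h1 : Real.exp (-rt N z') ≤ Real.exp (-s₀) := Real.exp_le_exp.2 (by linarith)
        have h2 := mul_le_mul_of_nonneg_left h1 hC30.le
        linarith
      have h1 := A6_main c C₁ hc0 hC0 hc hC z' N hz'2 (hz'z.trans hN) a hs'
      have h2 : (S a N z : ℝ) ≤ S a N z' := by exact_mod_cast S_anti a N z' z hz'z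
      have hV' := V_pos z'
      have h3 : V z' ≤ 2 * s₀ * C₂ / c * V z := by
        have h4 : V z' ≤ C₂ / Real.log z' := by
          rw [le_div_iff₀ hlogz'0]
          exact hC2 z' hz'2
        have h5 : C₂ / Real.log z' ≤ C₂ / (Real.log N / (2 * s₀)) :=
          div_le_div_of_nonneg_left hC20.le (by positivity) hlow
        have h6 : C₂ / (Real.log N / (2 * s₀)) = 2 * s₀ * C₂ / c * (c / Real.log N) := by
          field_simp
        rw [h6] at h5
        exact h4.trans (h5.trans (mul_le_mul_of_nonneg_left hVL (by positivity)))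
      have h7 : 1 + 2 * (C₁ * Real.exp 12 * Real.exp (-rt N z')) + 1 / (c * Real.log N) ≤
          2 + 1 / (c * Real.log 2) := by
        have h8 : 1 / (c * Real.log N) ≤ 1 / (c * Real.log 2) := by
          refine one_div_le_one_div_of_le (by positivity) ?_
          refine mul_le_mul_of_nonneg_left ?_ hc0.le
          linarith
        linarith
      calc (S a N z : ℝ) ≤ _ := h2.trans h1
        _ ≤ (2 + 1 / (c * Real.log 2)) * (N * V z') := mul_le_mul_of_nonneg_right h7 (by positivity)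
        _ ≤ (2 + 1 / (c * Real.log 2)) * (N * (2 * s₀ * C₂ / c * V z)) := by
          refine mul_le_mul_of_nonneg_left ?_ (by positivity)
          exact mul_le_mul_of_nonneg_left h3 hNpos.le
        _ = (2 * s₀ * C₂ / c * (2 + 1 / (c * Real.log 2))) * (N * V z) := by ring
        _ ≤ C₅ * (N * V z) := by
          refine mul_le_mul_of_nonneg_right ?_ hNV.le
          have : 0 < s₀ * Real.log 2 / c := by positivity
          rw [hC5]
          linarith
    · rw [not_le] at hbig
      have h1 : (1 : ℝ) ≤ s₀ * Real.log 2 / c * V z := by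
        have h2 : s₀ * Real.log 2 / c * (c / Real.log N) ≤ s₀ * Real.log 2 / c * V z :=
          mul_le_mul_of_nonneg_left hVL (by positivity)
        have h3 : s₀ * Real.log 2 / c * (c / Real.log N) = s₀ * Real.log 2 / Real.log N := by
          field_simp
        rw [h3] at h2
        have h4 : 1 ≤ s₀ * Real.log 2 / Real.log N := by
          rw [le_div_iff₀ hL]
          linarith
        linarith
      calc (S a N z : ℝ) ≤ N := A6_trivial a N z
        _ = 1 * N := (one_mul _).symm
        _ ≤ (s₀ * Real.log 2 / c * V z) * N := mul_le_mul_of_nonneg_right h1 hNpos.le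
        _ = s₀ * Real.log 2 / c * (N * V z) := by ring
        _ ≤ C₅ * (N * V z) := by
          refine mul_le_mul_of_nonneg_right ?_ hNV.le
          have : 0 < 2 * s₀ * C₂ / c * (2 + 1 / (c * Real.log 2)) := by positivity
          rw [hC5]
          linarith

end Pool.Agent.LibLin93
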