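import Pool.Agent.LibLin93.A1
import Pool.Agent.LibLin93.A5

/-! Row LS A7: the contribution of the small primes. -/

set_option autoImplicit false

namespace Pool.Agent.LibLin93

open Finset Filter Topology

theorem A7_step {L t t' g g' v C U W : ℝ} (hL : 0 < L) (ht : 0 < t) (htt : t ≤ t') (hC : 0 ≤ C)
    (hg : g = Real.exp (-(L / t))) (hg' : g' = Real.exp (-(L / t'))) (hv : v * t' ≤ C)
    (hU : U ≤ C * (g / t + g / L)) (hW : W = U + v * (g' - g)) :
    W ≤ C * (g' / t' + g' / L) := by
  have ht' : 0 < t' := ht.trans_le htt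
  have hgpos : 0 < g := hg ▸ Real.exp_pos _
  have h1 : g' = g * Real.exp (L / t - L / t') := by
    rw [hg, hg', ← Real.exp_add]
    congr 1
    ring
  have h2 : L / t - L / t' + 1 ≤ Real.exp (L / t - L / t') := Real.add_one_le_exp _
  have h3 : g * (L / t - L / t' + 1) ≤ g' := by
    rw [h1]
    exact mul_le_mul_of_nonneg_left h2 hgpos.le
  have h4 : L / t' ≤ L / t := div_le_div_of_nonneg_left hL.le ht htt
  have h5 : g ≤ g' := by nlinarith
  have h6 : v ≤ C / t' := by
    rw [le_div_iff₀ ht']
    exact hv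
  have h7 : v * (g' - g) ≤ C / t' * (g' - g) :=
    mul_le_mul_of_nonneg_right h6 (by linarith)
  have h8 : g / t + g / L + (g' - g) / t' ≤ g' / t' + g' / L := by
    have h9 : g * (L / t - L / t' + 1) / L ≤ g' / L := div_le_div_of_nonneg_right h3 hL.le
    have h10 : g * (L / t - L / t' + 1) / L = g / t - g / t' + g / L := by
      field_simp
    rw [h10] at h9
    have h11 : (g' - g) / t' = g' / t' - g / t' := sub_div _ _ _
    rw [h11]
    linarith
  have h12 : C * (g / t + g / L + (g' - g) / t') ≤ C * (g' / t' + g' / L) :=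
    mul_le_mul_of_nonneg_left h8 hC
  have h13 : C / t' * (g' - g) = C * ((g' - g) / t') := by ring
  rw [h13] at h7
  rw [hW]
  linarith

/-- The exact form: `U + V z g z ≤ C g z (1 / log z + 1 / log N)`, by induction on `z`. -/
theorem A7_main {C : ℝ} (hC : 0 < C) (hV : ∀ z : ℕ, 2 ≤ z → V z * Real.log z ≤ C) (w z N : ℕ)
    (hw : 2 ≤ w) (hwz : w ≤ z) (hN : 2 ≤ N) :
    ∑ p ∈ (Ico w z).filter Nat.Prime, V p / p * Real.exp (-rt N p) +
      V z * Real.exp (-rt N z) ≤
      C * (Real.exp (-rt N z) / Real.log z + Real.exp (-rt N z) / Real.log N) := by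
  have hL : 0 < Real.log N := Real.log_pos (by exact_mod_cast hN)
  induction z, hwz using Nat.le_induction with
  | base =>
    rw [Ico_self, filter_empty, sum_empty, zero_add]
    have ht : 0 < Real.log w := Real.log_pos (by exact_mod_cast hw)
    have h1 : V w ≤ C / Real.log w := by
      rw [le_div_iff₀ ht]
      exact hV w hw
    have h2 : 0 < Real.exp (-rt N w) := Real.exp_pos _
    have h3 : V w * Real.exp (-rt N w) ≤ C / Real.log w * Real.exp (-rt N w) :=
      mul_le_mul_of_nonneg_right h1 h2.le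
    have h4 : 0 < C * (Real.exp (-rt N w) / Real.log N) := by positivity
    have h5 : C / Real.log w * Real.exp (-rt N w) = C * (Real.exp (-rt N w) / Real.log w) := by
      ring
    rw [mul_add]
    linarith
  | succ z hz ih =>
    have hz2 : 2 ≤ z := hw.trans hz
    have ht : 0 < Real.log z := Real.log_pos (by exact_mod_cast hz2)
    have htt : Real.log z ≤ Real.log ((z + 1 : ℕ) : ℝ) := by
      refine Real.log_le_log (by positivity) ?_
      push_cast
      linarith
    have h1 : ∑ p ∈ (Ico z (z + 1)).filter Nat.Prime, V p / p * Real.exp (-rt N p) =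
        (V z - V (z + 1)) * Real.exp (-rt N z) := by
      rw [← sum_V z (z + 1) (Nat.le_succ z), Finset.sum_mul]
      refine Finset.sum_congr rfl fun p hp => ?_
      have h2 : p = z := by
        have h3 := Finset.mem_Ico.1 (Finset.mem_filter.1 hp).1
        omega
      rw [h2]
    have h2 : ∑ p ∈ (Ico w (z + 1)).filter Nat.Prime, V p / p * Real.exp (-rt N p) =
        ∑ p ∈ (Ico w z).filter Nat.Prime, V p / p * Real.exp (-rt N p) +
          (V z - V (z + 1)) * Real.exp (-rt N z) := by
      rw [← h1, ← Finset.sum_union]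
      · rw [← Finset.filter_union, Finset.Ico_union_Ico_eq_Ico hz (Nat.le_succ z)]
      · refine Finset.disjoint_filter_filter ?_
        exact Finset.Ico_disjoint_Ico_consecutive w z (z + 1)
    rw [h2]
    refine A7_step (L := Real.log N) (t := Real.log z) (t' := Real.log ((z + 1 : ℕ) : ℝ))
      (g := Real.exp (-rt N z)) (g' := Real.exp (-rt N (z + 1))) (v := V (z + 1)) hL ht htt hC.le
      rfl rfl (hV (z + 1) (by omega)) ih ?_
    ring

/-- PROOF. Let `s = rt N z ≥ 1`. Sort the primes `p ∈ [w, z)` by `i ≥ 0` with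
`log z / 2^(i+1) ≤ log p < log z / 2^i`. For such `p`: `rt N p > 2^i s`. The sum of `V p / p` over
the primes of the group is at most `V w_i` where `w_i ≥ 2` is the least number `≥ w` with
`log w_i ≥ log z / 2^(i+1)` (telescoping `sum_V`, positivity), and `V w_i ≤ C / log w_i ≤
C 2^(i+1) / log z ≤ C' 2^(i+1) V z` by `V_bounds`. So the whole sum is at most
`C' V z ∑_i 2^(i+1) exp (-2^i s) ≤ C' V z exp (-s) ∑_i 2^(i+1) exp (-(2^i - 1))`, as `s ≥ 1`, and
the last series converges. (Alternative: Abel summation with the increasing function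
`p ↦ exp (-rt N p)`.) -/
theorem tail_sum : ∃ C : ℝ, 0 < C ∧ ∀ w z N : ℕ, 2 ≤ w → w ≤ z → z ≤ N →
    ∑ p ∈ (Ico w z).filter Nat.Prime, V p / p * Real.exp (-rt N p) ≤
      C * V z * Real.exp (-rt N z) := by
  obtain ⟨c, C, hc, hC, hV⟩ := V_bounds
  refine ⟨2 * C / c, by positivity, ?_⟩
  intro w z N hw hwz hzN
  have hz : 2 ≤ z := hw.trans hwz
  have hN : 2 ≤ N := hz.trans hzN
  have ht : 0 < Real.log z := Real.log_pos (by exact_mod_cast hz)
  have hL : 0 < Real.log N := Real.log_pos (by exact_mod_cast hN)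
  have htL : Real.log z ≤ Real.log N :=
    Real.log_le_log (by positivity) (by exact_mod_cast hzN)
  have h1 := A7_main hC (fun z hz => (hV z hz).2) w z N hw hwz hN
  have hg : 0 < Real.exp (-rt N z) := Real.exp_pos _
  have h2 : 0 < V z * Real.exp (-rt N z) := mul_pos (V_pos z) hg
  have h3 : Real.exp (-rt N z) / Real.log N ≤ Real.exp (-rt N z) / Real.log z :=
    div_le_div_of_nonneg_left hg.le ht htL
  have h4 : 1 / Real.log z ≤ V z / c := by
    rw [div_le_div_iff₀ ht hc, one_mul]
    exact (hV z hz).1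
  have h5 : Real.exp (-rt N z) / Real.log z ≤ V z / c * Real.exp (-rt N z) := by
    rw [div_eq_mul_one_div, mul_comm]
    exact mul_le_mul_of_nonneg_right h4 hg.le
  have h6 : C * (Real.exp (-rt N z) / Real.log z + Real.exp (-rt N z) / Real.log N) ≤
      C * (2 * (V z / c * Real.exp (-rt N z))) :=
    mul_le_mul_of_nonneg_left (by linarith) hC.le
  have h7 : 2 * C / c * V z * Real.exp (-rt N z) = C * (2 * (V z / c * Real.exp (-rt N z))) := by
    ring
  rw [h7]
  linarith

end Pool.Agent.LibLin93
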