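import Pool.Agent.LibLin93.A2
import Pool.Agent.LibLin93.A6
import Pool.Agent.LibLin93.A7

/-! Row LS A8: the lower bound of the fundamental lemma. -/

set_option autoImplicit false

namespace Pool.Agent.LibLin93

open Finset Filter Topology

private theorem A8_V_le_one (p : ℕ) : V p ≤ 1 := by
  have h1 := V_anti (Nat.zero_le p)
  have h2 : V 0 = 1 := by simp [V]
  linarith

/-- the upper bound for one prime -/
private theorem A8_T (C : ℝ) (hC : 0 < C)
    (hup : ∀ z N : ℕ, 2 ≤ z → z ≤ N → ∀ a : ℕ → ℕ,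
      (S a N z : ℝ) ≤ (1 + C * Real.exp (-rt N z) + C / Real.log N) * (N * V z))
    (z N p : ℕ) (a : ℕ → ℕ) (hp : p.Prime) (hpz : p < z) (hN0 : 0 < N)
    (hzN : (z : ℝ) ^ 2 ≤ N) (hL : 2 ≤ Real.log N) :
    (T a N p : ℝ) ≤ (1 + 2 * C / Real.log N) * (N * (V p / p))
      + C * Real.exp 1 * (N * (V p / p * Real.exp (-rt N p))) + (1 + C * Real.exp 1 + 2 * C) := by
  have hp2 : (2 : ℝ) ≤ p := by exact_mod_cast hp.two_le
  have hp0 : (0 : ℝ) < p := by linarith
  have hlp : 0 < Real.log p := Real.log_pos (by linarith)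
  have hpz' : (p : ℝ) ≤ z := by exact_mod_cast hpz.le
  have hz0 : (0 : ℝ) < z := by linarith
  have hN : (0 : ℝ) < N := by exact_mod_cast hN0
  have hppN : (p : ℝ) * p ≤ N := by nlinarith
  have hVp : 0 < V p := V_pos p
  have hVp1 : V p ≤ 1 := A8_V_le_one p
  set X : ℝ := (N : ℝ) / p with hX
  have hXp : (p : ℝ) ≤ X := by
    rw [hX, le_div_iff₀ hp0]
    exact hppN
  have hX0 : 0 < X := by linarith
  have hlX : Real.log X = Real.log N - Real.log p := by
    rw [hX, Real.log_div hN.ne' hp0.ne']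
  have hlp2 : 2 * Real.log p ≤ Real.log N := by
    have h3 : Real.log ((p : ℝ) * p) ≤ Real.log N := Real.log_le_log (by positivity) hppN
    rw [Real.log_mul hp0.ne' hp0.ne'] at h3
    linarith
  obtain ⟨a', N', hN'1, hN'2, hT⟩ := T_eq a N p hp
  have hS : S a' N' p ≤ S a' (N / p + 1) p := S_mono a' N' (N / p + 1) p hN'2
  have hW1 : X ≤ ((N / p + 1 : ℕ) : ℝ) := by
    rw [hX, div_le_iff₀ hp0]
    have h3 : N < p * (N / p + 1) := Nat.lt_mul_div_succ N hp.pos
    have h4 : (N : ℝ) ≤ (p : ℝ) * ((N / p + 1 : ℕ) : ℝ) := by exact_mod_cast h3.le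
    linarith
  have hW2 : ((N / p + 1 : ℕ) : ℝ) ≤ X + 1 := by
    push_cast
    have := Nat.cast_div_le (α := ℝ) (m := N) (n := p)
    linarith
  set W : ℕ := N / p + 1 with hW
  have hW0 : (0 : ℝ) < W := by linarith
  have hpW : p ≤ W := by
    have h3 : (p : ℝ) ≤ W := by linarith
    exact_mod_cast h3
  have hlW1 : Real.log N - Real.log p ≤ Real.log W := by
    rw [← hlX]
    exact Real.log_le_log hX0 hW1
  have hlW2 : Real.log N / 2 ≤ Real.log W := by linarith
  have hr1 : rt N p - 1 ≤ rt W p := by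
    have h3 : rt N p - 1 = (Real.log N - Real.log p) / Real.log p := by
      unfold rt
      field_simp
    rw [h3]
    exact div_le_div_of_nonneg_right hlW1 hlp.le
  have he1 : Real.exp (-rt W p) ≤ Real.exp 1 * Real.exp (-rt N p) := by
    rw [← Real.exp_add]
    apply Real.exp_le_exp.2
    linarith
  have he2 : Real.exp (-rt N p) ≤ 1 := by
    apply Real.exp_le_one_iff.2
    have : 0 ≤ rt N p := div_nonneg (by linarith) hlp.le
    linarith
  have he3 : C / Real.log W ≤ 2 * C / Real.log N := by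
    rw [div_le_div_iff₀ (by linarith) (by linarith)]
    nlinarith
  have hcoef : 1 + C * Real.exp (-rt W p) + C / Real.log W
      ≤ 1 + C * (Real.exp 1 * Real.exp (-rt N p)) + 2 * C / Real.log N := by
    have := mul_le_mul_of_nonneg_left he1 hC.le
    linarith
  have hcoef0 : 0 ≤ 1 + C * (Real.exp 1 * Real.exp (-rt N p)) + 2 * C / Real.log N := by
    have h3 : 0 ≤ C * (Real.exp 1 * Real.exp (-rt N p)) := by positivity
    have h4 : 0 ≤ 2 * C / Real.log N := div_nonneg (by linarith) (by linarith)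
    linarith
  have hcoef1 : 1 + C * (Real.exp 1 * Real.exp (-rt N p)) + 2 * C / Real.log N
      ≤ 1 + C * Real.exp 1 + 2 * C := by
    have h3 : C * (Real.exp 1 * Real.exp (-rt N p)) ≤ C * Real.exp 1 := by
      apply mul_le_mul_of_nonneg_left _ hC.le
      exact mul_le_of_le_one_right (Real.exp_pos _).le he2
    have h4 : 2 * C / Real.log N ≤ 2 * C := div_le_self (by linarith) (by linarith)
    linarith
  calc (T a N p : ℝ) ≤ (S a' W p : ℝ) := by
        rw [hT]
        exact_mod_cast hS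
    _ ≤ (1 + C * Real.exp (-rt W p) + C / Real.log W) * (W * V p) := hup p W hp.two_le hpW a'
    _ ≤ (1 + C * (Real.exp 1 * Real.exp (-rt N p)) + 2 * C / Real.log N) * (W * V p) :=
        mul_le_mul_of_nonneg_right hcoef (by positivity)
    _ ≤ (1 + C * (Real.exp 1 * Real.exp (-rt N p)) + 2 * C / Real.log N) * (X * V p + 1) := by
        apply mul_le_mul_of_nonneg_left _ hcoef0
        have h3 : W * V p ≤ (X + 1) * V p := mul_le_mul_of_nonneg_right hW2 hVp.le
        linarith
    _ = (1 + C * (Real.exp 1 * Real.exp (-rt N p)) + 2 * C / Real.log N) * (X * V p)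
        + (1 + C * (Real.exp 1 * Real.exp (-rt N p)) + 2 * C / Real.log N) := by ring
    _ ≤ (1 + C * (Real.exp 1 * Real.exp (-rt N p)) + 2 * C / Real.log N) * (X * V p)
        + (1 + C * Real.exp 1 + 2 * C) := by linarith
    _ = (1 + 2 * C / Real.log N) * (N * (V p / p))
      + C * Real.exp 1 * (N * (V p / p * Real.exp (-rt N p))) + (1 + C * Real.exp 1 + 2 * C) := by
        rw [hX]
        ring

/-- PROOF. Let `s = rt N z`, `L = log N`, `w = ⌊L/2⌋`. If `s ≤ 2`, choose `C ≥ exp 2`: the left side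
is `≤ 0`. Let `s ≥ 2`, i.e. `z² ≤ N`. If `z ≤ w`: `legendre` gives
`S ≥ N V z - 2^z`, `2^z ≤ exp (L/2) = √N ≤ ε N V z` for large `N` (`V z ≥ c / log z ≥ c / L`).
If `w < z`: Buchstab, `S a N z = S a N w - ∑_{w ≤ p < z} T a N p`, Legendre for the first term
(`2^w ≤ √N`), and for `p ∈ [w, z)`: `T a N p = S a' N' p ≤ S a' N'' p`, `N'' = N / p + 1 ≥ p`
(as `p² ≤ N`), so by `fl_upper` `T ≤ (1 + C exp (-rt N'' p) + C / log N'') N'' V p`; here
`rt N'' p ≥ rt N p - 1`, `log N'' ≥ L / 2`, `N'' ≤ N/p + 1`, so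
`T ≤ (1 + C e exp (-rt N p) + 2C/L) (N V p / p) + C'` (the `C'` from the `+1`, as `V p ≤ 1`). Sum
over `p`: with `sum_V` and `tail_sum`:
`∑ T ≤ N (V w - V z) + (2C/L) N V w + C'' N V z exp (-s) + C' z`.
Now `V w / L ≤ C / (log w * L) ≤ C'''/(log w) V z` (by `V_bounds`, `log z ≤ L`), which is
`≤ ε V z` for large `N`, and `C' z ≤ C' √N ≤ ε N V z`. Together
`S ≥ N V z (1 - C'' exp (-s) - 4 ε)`. -/
theorem fl_lower : ∃ C : ℝ, 0 < C ∧ ∀ ε : ℝ, 0 < ε → ∃ Z : ℕ, ∀ z N : ℕ, Z ≤ z → z ≤ N →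
    ∀ a : ℕ → ℕ, (1 - C * Real.exp (-rt N z) - ε) * (N * V z) ≤ (S a N z : ℝ) := by
  obtain ⟨C1, hC1, hup⟩ := fl_upper
  obtain ⟨C2, hC2, htail⟩ := tail_sum
  obtain ⟨c, CV, hc, hCV, hVb⟩ := V_bounds
  refine ⟨C1 * Real.exp 1 * C2 + Real.exp 2, by positivity, fun ε hε => ?_⟩
  set C' : ℝ := 1 + C1 * Real.exp 1 + 2 * C1 with hC'
  have hC'0 : 0 < C' := by positivity
  set κ : ℝ := ε * c / (3 * (1 + C')) with hκ
  have hκ0 : 0 < κ := by positivity
  set K0 : ℝ := 6 * C1 * CV / (c * ε) with hK0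
  have hlog : Tendsto (fun z : ℕ => Real.log z) atTop atTop :=
    Real.tendsto_log_atTop.comp tendsto_natCast_atTop_atTop
  have hev : ∀ᶠ z : ℕ in atTop, 3 ≤ z ∧ 8 / κ ≤ Real.log z ∧
      2 * Real.exp K0 + 2 ≤ Real.log z ∧ 8 ≤ Real.log z := by
    filter_upwards [eventually_ge_atTop 3, hlog.eventually_ge_atTop (8 / κ),
      hlog.eventually_ge_atTop (2 * Real.exp K0 + 2), hlog.eventually_ge_atTop 8] with z h1 h2 h3 h4
    exact ⟨h1, h2, h3, h4⟩
  obtain ⟨Z, hZ⟩ := eventually_atTop.1 hev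
  refine ⟨Z, fun z N hz hzN a => ?_⟩
  obtain ⟨hz3, hzA, hzB, hzC⟩ := hZ z hz
  have hVz : 0 < V z := V_pos z
  have hz1 : (1 : ℝ) < z := by
    have : (3 : ℝ) ≤ z := by exact_mod_cast hz3
    linarith
  have hz0 : (0 : ℝ) < z := by linarith
  have hlz : 0 < Real.log z := Real.log_pos hz1
  have hzN' : (z : ℝ) ≤ N := by exact_mod_cast hzN
  have hN : (0 : ℝ) < N := by linarith
  have hN0 : 0 < N := by exact_mod_cast hN
  have h1 : Real.log z ≤ Real.log N := Real.log_le_log hz0 hzN'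
  set L : ℝ := Real.log N with hL
  have hL8 : 8 ≤ L := hzC.trans h1
  have hL0 : 0 < L := by linarith
  have hrt : rt N z = L / Real.log z := rfl
  have hSnn : (0 : ℝ) ≤ S a N z := Nat.cast_nonneg _
  by_cases hs : rt N z ≤ 2
  · refine le_trans ?_ hSnn
    have h3 : 1 - (C1 * Real.exp 1 * C2 + Real.exp 2) * Real.exp (-rt N z) - ε ≤ 0 := by
      have h4 : 1 ≤ Real.exp 2 * Real.exp (-rt N z) := by
        rw [← Real.exp_add]
        exact Real.one_le_exp (by linarith)
      have h5 : 0 ≤ C1 * Real.exp 1 * C2 * Real.exp (-rt N z) := by positivity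
      rw [add_mul]
      linarith
    exact mul_nonpos_of_nonpos_of_nonneg h3 (by positivity)
  push Not at hs
  have h2 : 2 * Real.log z < L := by
    rw [hrt, lt_div_iff₀ hlz] at hs
    exact hs
  have hz2N : (z : ℝ) ^ 2 ≤ N := by
    rw [← Real.exp_log (pow_pos hz0 2), ← Real.exp_log hN]
    apply Real.exp_le_exp.2
    rw [Real.log_pow]
    push_cast
    linarith
  have hNL : (N : ℝ) = Real.exp (L / 2) * Real.exp (L / 2) := by
    rw [← Real.exp_add, add_halves, hL, Real.exp_log hN]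
  -- the key estimate
  have hVzc : c / L ≤ V z := by
    have h3 := (hVb z (by omega)).1
    rw [div_le_iff₀ hL0]
    exact h3.trans (mul_le_mul_of_nonneg_left h1 hVz.le)
  have hkey : Real.exp (L / 2) * (1 + C') ≤ ε / 3 * (N * V z) := by
    have h3 : L ^ 2 / 8 ≤ Real.exp (L / 2) := by
      have := Real.quadratic_le_exp_of_nonneg (show 0 ≤ L / 2 by linarith)
      nlinarith
    have h4 : L / κ ≤ Real.exp (L / 2) := by
      refine le_trans ?_ h3
      have h5 : 8 / κ ≤ L := hzA.trans h1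
      rw [div_le_iff₀ hκ0] at h5 ⊢
      nlinarith
    have h5 : L * (3 * (1 + C')) ≤ Real.exp (L / 2) * (ε * c) := by
      rw [hκ, div_div_eq_mul_div, div_le_iff₀ (by positivity)] at h4
      exact h4
    have h6 : N * (c / L) ≤ N * V z := mul_le_mul_of_nonneg_left hVzc hN.le
    have h7 : Real.exp (L / 2) * (1 + C') ≤ ε / 3 * (N * (c / L)) := by
      rw [hNL]
      have h8 : ε / 3 * (Real.exp (L / 2) * Real.exp (L / 2) * (c / L))
          = Real.exp (L / 2) * (Real.exp (L / 2) * (ε * c) / (3 * L)) := by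
        field_simp
      rw [h8]
      apply mul_le_mul_of_nonneg_left _ (Real.exp_pos _).le
      rw [le_div_iff₀ (by positivity)]
      linarith
    have h8 : ε / 3 * (N * (c / L)) ≤ ε / 3 * (N * V z) :=
      mul_le_mul_of_nonneg_left h6 (by positivity)
    linarith
  have hpow : ∀ m : ℕ, (m : ℝ) ≤ L / 2 → (2 : ℝ) ^ m ≤ Real.exp (L / 2) := by
    intro m hm
    have h3 : (2 : ℝ) ≤ Real.exp 1 := by
      have := Real.add_one_le_exp (1 : ℝ)
      linarith
    calc (2 : ℝ) ^ m ≤ (Real.exp 1) ^ m := pow_le_pow_left₀ (by norm_num) h3 m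
      _ = Real.exp m := by rw [← Real.exp_nat_mul, mul_one]
      _ ≤ Real.exp (L / 2) := Real.exp_le_exp.2 hm
  have hE0 : 0 < Real.exp (L / 2) := Real.exp_pos _
  have hNV : 0 < N * V z := mul_pos hN hVz
  have hCe : 0 ≤ (C1 * Real.exp 1 * C2) * Real.exp (-rt N z) := by positivity
  have hCe2 : 0 ≤ Real.exp 2 * Real.exp (-rt N z) := by positivity
  set w : ℕ := ⌊L / 2⌋₊ with hw
  have hwL : (w : ℝ) ≤ L / 2 := Nat.floor_le (by linarith)
  have hwL2 : L / 2 < w + 1 := Nat.lt_floor_add_one _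
  by_cases hzw : z ≤ w
  · have h3 := (abs_le.1 (legendre a N z)).1
    have h4 : (2 : ℝ) ^ z ≤ Real.exp (L / 2) := hpow z (le_trans (by exact_mod_cast hzw) hwL)
    have h5 : Real.exp (L / 2) ≤ ε / 3 * (N * V z) := by
      have : Real.exp (L / 2) ≤ Real.exp (L / 2) * (1 + C') :=
        le_mul_of_one_le_right hE0.le (by linarith)
      linarith
    have h6 : (1 - (C1 * Real.exp 1 * C2 + Real.exp 2) * Real.exp (-rt N z) - ε) * (N * V z)
        ≤ (1 - ε) * (N * V z) := by
      apply mul_le_mul_of_nonneg_right _ hNV.le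
      rw [add_mul]
      linarith
    have h7 : ε / 3 * (N * V z) ≤ ε * (N * V z) := mul_le_mul_of_nonneg_right (by linarith) hNV.le
    have h8 : (1 - ε) * (N * V z) = N * V z - ε * (N * V z) := by ring
    linarith
  push Not at hzw
  have hw3 : 3 ≤ w := by
    have : (3 : ℝ) ≤ w := by linarith
    exact_mod_cast this
  have hw0 : (0 : ℝ) < w := by
    have : (3 : ℝ) ≤ w := by exact_mod_cast hw3
    linarith
  have hlw : K0 ≤ Real.log w := by
    rw [Real.le_log_iff_exp_le hw0]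
    have := hzB.trans h1
    linarith
  have hlw0 : 0 < Real.log w := Real.log_pos (by
    have : (3 : ℝ) ≤ w := by exact_mod_cast hw3
    linarith)
  have hVw : 0 < V w := V_pos w
  have hB := buchstab a N w z hzw.le
  have hB' : (S a N w : ℝ) = S a N z + ((∑ p ∈ (Ico w z).filter Nat.Prime, T a N p : ℕ) : ℝ) := by
    exact_mod_cast hB
  have hLeg := (abs_le.1 (legendre a N w)).1
  have hpw := hpow w hwL
  -- the sum of the `T`
  have hTsum : ((∑ p ∈ (Ico w z).filter Nat.Prime, T a N p : ℕ) : ℝ)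
      ≤ (1 + 2 * C1 / L) * (N * (V w - V z))
        + C1 * Real.exp 1 * (N * (C2 * V z * Real.exp (-rt N z))) + z * C' := by
    push_cast
    have h3 : ∀ p ∈ (Ico w z).filter Nat.Prime, (T a N p : ℝ)
        ≤ (1 + 2 * C1 / L) * (N * (V p / p))
          + C1 * Real.exp 1 * (N * (V p / p * Real.exp (-rt N p))) + C' := by
      intro p hp
      rw [mem_filter, mem_Ico] at hp
      exact A8_T C1 hC1 hup z N p a hp.2 hp.1.2 hN0 hz2N (by linarith)
    refine (Finset.sum_le_sum h3).trans ?_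
    rw [Finset.sum_add_distrib, Finset.sum_add_distrib, ← Finset.mul_sum, ← Finset.mul_sum,
      ← Finset.mul_sum, ← Finset.mul_sum, sum_V w z hzw.le, Finset.sum_const, nsmul_eq_mul]
    have h4 := htail w z N (by omega) hzw.le hzN
    have h5 : C1 * Real.exp 1 * (N * ∑ p ∈ (Ico w z).filter Nat.Prime,
          V p / p * Real.exp (-rt N p))
        ≤ C1 * Real.exp 1 * (N * (C2 * V z * Real.exp (-rt N z))) := by
      apply mul_le_mul_of_nonneg_left _ (by positivity)
      exact mul_le_mul_of_nonneg_left h4 hN.le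
    have h6 : (((Ico w z).filter Nat.Prime).card : ℝ) * C' ≤ z * C' := by
      apply mul_le_mul_of_nonneg_right _ hC'0.le
      have h7 : ((Ico w z).filter Nat.Prime).card ≤ z := by
        refine (Finset.card_filter_le _ _).trans ?_
        rw [Nat.card_Ico]
        omega
      exact_mod_cast h7
    linarith
  -- the error terms
  have hzE : (z : ℝ) ≤ Real.exp (L / 2) := by
    rw [← Real.exp_log hz0]
    apply Real.exp_le_exp.2
    linarith
  have herr1 : Real.exp (L / 2) + z * C' ≤ ε / 3 * (N * V z) := by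
    have h3 : z * C' ≤ Real.exp (L / 2) * C' := mul_le_mul_of_nonneg_right hzE hC'0.le
    have h4 : Real.exp (L / 2) * (1 + C') = Real.exp (L / 2) + Real.exp (L / 2) * C' := by ring
    linarith
  have herr2 : 2 * C1 / L * (N * V w) ≤ ε / 3 * (N * V z) := by
    have h3 : V w ≤ CV / Real.log w := by
      rw [le_div_iff₀ hlw0]
      exact (hVb w (by omega)).2
    have h4 : 6 * C1 * CV ≤ c * ε * Real.log w := by
      rw [hK0, div_le_iff₀ (by positivity)] at hlw
      linarith
    have h5 : 2 * C1 / L * V w ≤ ε / 3 * (c / L) := by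
      calc 2 * C1 / L * V w ≤ 2 * C1 / L * (CV / Real.log w) :=
            mul_le_mul_of_nonneg_left h3 (by positivity)
        _ = (6 * C1 * CV) / (3 * L * Real.log w) := by
            field_simp
            ring
        _ ≤ (c * ε * Real.log w) / (3 * L * Real.log w) :=
            div_le_div_of_nonneg_right h4 (by positivity)
        _ = ε / 3 * (c / L) := by
            field_simp
    calc 2 * C1 / L * (N * V w) = N * (2 * C1 / L * V w) := by ring
      _ ≤ N * (ε / 3 * (c / L)) := mul_le_mul_of_nonneg_left h5 hN.le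
      _ ≤ N * (ε / 3 * V z) := by
          apply mul_le_mul_of_nonneg_left _ hN.le
          exact mul_le_mul_of_nonneg_left hVzc (by positivity)
      _ = ε / 3 * (N * V z) := by ring
  have hfin1 : (1 + 2 * C1 / L) * (N * (V w - V z))
      ≤ N * V w - N * V z + 2 * C1 / L * (N * V w) := by
    have h3 : 0 ≤ 2 * C1 / L * (N * V z) := by positivity
    have h4 : (1 + 2 * C1 / L) * (N * (V w - V z))
        = N * V w - N * V z + 2 * C1 / L * (N * V w) - 2 * C1 / L * (N * V z) := by ring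
    linarith
  have hfin2 : C1 * Real.exp 1 * (N * (C2 * V z * Real.exp (-rt N z)))
      = C1 * Real.exp 1 * C2 * Real.exp (-rt N z) * (N * V z) := by ring
  have hfin3 : (1 - (C1 * Real.exp 1 * C2 + Real.exp 2) * Real.exp (-rt N z) - ε) * (N * V z)
      = N * V z - C1 * Real.exp 1 * C2 * Real.exp (-rt N z) * (N * V z)
        - Real.exp 2 * Real.exp (-rt N z) * (N * V z) - ε * (N * V z) := by ring
  have hfin4 : 0 ≤ Real.exp 2 * Real.exp (-rt N z) * (N * V z) := by positivity
  have hfin5 : ε * (N * V z) = ε / 3 * (N * V z) + ε / 3 * (N * V z) + ε / 3 * (N * V z) := by ring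
  have hfin6 : 0 ≤ ε / 3 * (N * V z) := by positivity
  rw [hfin3]
  rw [hfin2] at hTsum
  linarith

/-- PROOF. `fl_upper` and `fl_lower` together (`C / log N ≤ ε` for `N ≥ z ≥ Z`). -/
theorem fund : ∃ C : ℝ, 0 < C ∧ ∀ ε : ℝ, 0 < ε → ∃ Z : ℕ, ∀ z N : ℕ, Z ≤ z → z ≤ N →
    ∀ a : ℕ → ℕ, (1 - C * Real.exp (-rt N z) - ε) * (N * V z) ≤ (S a N z : ℝ) ∧
      (S a N z : ℝ) ≤ (1 + C * Real.exp (-rt N z) + ε) * (N * V z) := by
  obtain ⟨C1, hC1, h1⟩ := fl_upper
  obtain ⟨C2, hC2, h2⟩ := fl_lower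
  refine ⟨C1 + C2, by positivity, fun ε hε => ?_⟩
  obtain ⟨Z, hZ⟩ := h2 ε hε
  have hlog : Tendsto (fun z : ℕ => Real.log z) atTop atTop :=
    Real.tendsto_log_atTop.comp tendsto_natCast_atTop_atTop
  have hev : ∀ᶠ z : ℕ in atTop, Z ≤ z ∧ 3 ≤ z ∧ C1 / ε ≤ Real.log z := by
    filter_upwards [eventually_ge_atTop Z, eventually_ge_atTop 3,
      hlog.eventually_ge_atTop (C1 / ε)] with z h1 h2 h3
    exact ⟨h1, h2, h3⟩
  obtain ⟨Z', hZ'⟩ := eventually_atTop.1 hev
  refine ⟨Z', fun z N hz hzN a => ?_⟩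
  obtain ⟨hzA, hz3, hzB⟩ := hZ' z hz
  have hVz : 0 < V z := V_pos z
  have hz1 : (1 : ℝ) < z := by
    have : (3 : ℝ) ≤ z := by exact_mod_cast hz3
    linarith
  have hlz : 0 < Real.log z := Real.log_pos hz1
  have hzN' : (z : ℝ) ≤ N := by exact_mod_cast hzN
  have hN : (0 : ℝ) < N := by linarith
  have hL : Real.log z ≤ Real.log N := Real.log_le_log (by linarith) hzN'
  have hE : 0 < Real.exp (-rt N z) := Real.exp_pos _
  constructor
  · refine le_trans ?_ (hZ z N hzA hzN a)
    apply mul_le_mul_of_nonneg_right _ (by positivity)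
    have : 0 ≤ C1 * Real.exp (-rt N z) := by positivity
    rw [add_mul]
    linarith
  · refine le_trans (h1 z N (by omega) hzN a) ?_
    apply mul_le_mul_of_nonneg_right _ (by positivity)
    have h3 : 0 ≤ C2 * Real.exp (-rt N z) := by positivity
    have h4 : C1 / Real.log N ≤ ε := by
      rw [div_le_iff₀ (by linarith)]
      rw [div_le_iff₀ hε] at hzB
      nlinarith
    rw [add_mul]
    linarith

end Pool.Agent.LibLin93
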