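import Pool.Agent.LibLin93.A1
import Pool.Agent.LibLin93.A5

/-! Row LS A9: sums over primes and integrals. -/

set_option autoImplicit false

namespace Pool.Agent.LibLin93

open Finset Filter Topology MeasureTheory

/-- the sum over primes of row A9 -/
private noncomputable def A9sum (φ : ℝ → ℝ) (s₁ : ℝ) (z N : ℕ) : ℝ :=
  ∑ p ∈ (range z).filter (fun p : ℕ => p.Prime ∧ Real.log N ≤ s₁ * Real.log p),
    V p / p * φ (rt N p)

/-- the statement of row A9 for one function -/
private def A9P (s₁ : ℝ) (φ : ℝ → ℝ) : Prop :=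
  ∀ ε : ℝ, 0 < ε → ∃ Z : ℕ, ∀ z N : ℕ, Z ≤ z → Real.log z ≤ Real.log N →
    Real.log N ≤ s₁ * Real.log z →
    |A9sum φ s₁ z N - V z / rt N z * ∫ t in (rt N z)..s₁, φ t| ≤ ε * V z

/-- the step function -/
private noncomputable def A9st (τ : ℝ) : ℝ → ℝ := (Set.Iic τ).indicator (fun _ => (1 : ℝ))

private theorem A9st_le {τ t : ℝ} (h : t ≤ τ) : A9st τ t = 1 :=
  Set.indicator_of_mem (show t ∈ Set.Iic τ from h) _

private theorem A9st_gt {τ t : ℝ} (h : τ < t) : A9st τ t = 0 :=
  Set.indicator_of_notMem (show t ∉ Set.Iic τ from not_le.2 h) _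

private theorem A9st_int (τ x y : ℝ) : IntervalIntegrable (A9st τ) volume x y := by
  have h1 : IntervalIntegrable (fun _ : ℝ => (1 : ℝ)) volume x y := intervalIntegrable_const
  rw [intervalIntegrable_iff] at h1 ⊢
  exact h1.indicator measurableSet_Iic

private theorem A9st_val (τ s s₁ : ℝ) (hs : s ≤ τ) (h1 : τ ≤ s₁) :
    ∫ t in s..s₁, A9st τ t = τ - s := by
  have e1 : ∫ t in s..τ, A9st τ t = τ - s := by
    rw [intervalIntegral.integral_congr (g := fun _ => (1 : ℝ))]
    · rw [intervalIntegral.integral_const, smul_eq_mul, mul_one]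
    · intro t ht
      rw [Set.uIcc_of_le hs] at ht
      exact A9st_le ht.2
  have e2 : ∫ t in τ..s₁, A9st τ t = 0 := by
    rw [intervalIntegral.integral_of_le h1]
    rw [setIntegral_congr_fun measurableSet_Ioc (g := fun _ => (0 : ℝ))]
    · simp
    · intro t ht
      exact A9st_gt ht.1
  rw [← intervalIntegral.integral_add_adjacent_intervals (A9st_int τ s τ) (A9st_int τ τ s₁), e1, e2,
    add_zero]

private theorem A9st_val0 (τ s s₁ : ℝ) (hs : τ < s) (h1 : s ≤ s₁) :
    ∫ t in s..s₁, A9st τ t = 0 := by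
  rw [intervalIntegral.integral_of_le h1]
  rw [setIntegral_congr_fun measurableSet_Ioc (g := fun _ => (0 : ℝ))]
  · simp
  · intro t ht
    exact A9st_gt (hs.trans ht.1)

private theorem A9_step (s₁ τ : ℝ) (hτ : 1 ≤ τ) (hτs : τ ≤ s₁) : A9P s₁ (A9st τ) := by
  intro ε hε
  have hτ0 : 0 < τ := by linarith
  obtain ⟨Z0, hZ02, hV⟩ := V_ratio (ε / (2 * τ)) (by positivity)
  have hlog : Tendsto (fun z : ℕ => Real.log z) atTop atTop :=
    Real.tendsto_log_atTop.comp tendsto_natCast_atTop_atTop
  have hev : ∀ᶠ z : ℕ in atTop, Z0 ≤ z ∧ 3 ≤ z ∧ τ * Real.log Z0 ≤ Real.log z ∧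
      2 * τ ^ 2 / ε ≤ Real.log z := by
    filter_upwards [eventually_ge_atTop Z0, eventually_ge_atTop 3,
      hlog.eventually_ge_atTop (τ * Real.log Z0), hlog.eventually_ge_atTop (2 * τ ^ 2 / ε)]
      with z h1 h2 h3 h4
    exact ⟨h1, h2, h3, h4⟩
  obtain ⟨Z, hZ⟩ := eventually_atTop.1 hev
  refine ⟨Z, fun z N hz h1 h2 => ?_⟩
  obtain ⟨hz0, hz3, hz4, hz5⟩ := hZ z hz
  have hVz : 0 < V z := V_pos z
  have hz1 : (1 : ℝ) < z := by
    have : (3 : ℝ) ≤ z := by exact_mod_cast hz3
    linarith
  have hlz : 0 < Real.log z := Real.log_pos hz1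
  have hL : 0 < Real.log N := lt_of_lt_of_le hlz h1
  have hrt : rt N z = Real.log N / Real.log z := rfl
  have hs1 : 1 ≤ rt N z := by rw [hrt, le_div_iff₀ hlz]; linarith
  have hs0 : 0 < rt N z := by linarith
  have hss : rt N z ≤ s₁ := by rw [hrt, div_le_iff₀ hlz]; exact h2
  by_cases hsτ : rt N z ≤ τ
  · rw [A9st_val τ (rt N z) s₁ hsτ hτs]
    have hLτ : Real.log N ≤ τ * Real.log z := by
      rw [hrt, div_le_iff₀ hlz] at hsτ
      exact hsτ
    set w : ℕ := ⌈Real.exp (Real.log N / τ)⌉₊ with hw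
    have hw1 : Real.exp (Real.log N / τ) ≤ w := Nat.le_ceil _
    have hw2 : (w : ℝ) < Real.exp (Real.log N / τ) + 1 := Nat.ceil_lt_add_one (Real.exp_pos _).le
    have hw0 : (0 : ℝ) < w := lt_of_lt_of_le (Real.exp_pos _) hw1
    have hwz : w ≤ z := by
      apply Nat.ceil_le.2
      have h3 : Real.log N / τ ≤ Real.log z := by
        rw [div_le_iff₀ hτ0]
        linarith
      calc Real.exp (Real.log N / τ) ≤ Real.exp (Real.log z) := Real.exp_le_exp.2 h3
        _ = z := Real.exp_log (by linarith)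
    have hlw1 : Real.log N / τ ≤ Real.log w := (Real.le_log_iff_exp_le hw0).2 hw1
    have hlw2 : Real.log w ≤ Real.log N / τ + 1 := by
      rw [Real.log_le_iff_le_exp hw0, Real.exp_add]
      have h3 : (1 : ℝ) ≤ Real.exp (Real.log N / τ) := Real.one_le_exp (by positivity)
      have h4 : (2 : ℝ) ≤ Real.exp 1 := by
        have := Real.add_one_le_exp (1 : ℝ)
        linarith
      nlinarith
    have hlw0 : 0 < Real.log w := lt_of_lt_of_le (by positivity) hlw1
    have hZw : Z0 ≤ w := by
      have h3 : (0 : ℝ) < Z0 := by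
        have : (2 : ℝ) ≤ Z0 := by exact_mod_cast hZ02
        linarith
      have h4 : Real.log Z0 ≤ Real.log N / τ := by
        rw [le_div_iff₀ hτ0]
        linarith
      have h5 : (Z0 : ℝ) ≤ w := by
        calc (Z0 : ℝ) = Real.exp (Real.log Z0) := (Real.exp_log h3).symm
          _ ≤ Real.exp (Real.log N / τ) := Real.exp_le_exp.2 h4
          _ ≤ w := hw1
      exact_mod_cast h5
    -- the sum
    have hsum : A9sum (A9st τ) s₁ z N = V w - V z := by
      rw [← sum_V w z hwz]
      symm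
      unfold A9sum
      apply Finset.sum_subset_zero_on_sdiff
      · intro p hp
        rw [mem_filter, mem_Ico] at hp
        rw [mem_filter, mem_range]
        have hp1 : (1 : ℝ) ≤ p := by exact_mod_cast hp.2.one_lt.le
        have h3 : Real.log N / τ ≤ Real.log p := by
          refine hlw1.trans (Real.log_le_log hw0 ?_)
          exact_mod_cast hp.1.1
        refine ⟨hp.1.2, hp.2, ?_⟩
        have h4 : Real.log N ≤ τ * Real.log p := by
          rw [div_le_iff₀ hτ0] at h3
          linarith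
        exact h4.trans (mul_le_mul_of_nonneg_right hτs (Real.log_nonneg hp1))
      · intro p hp
        obtain ⟨hp1, hp2⟩ := Finset.mem_sdiff.1 hp
        rw [mem_filter, mem_range] at hp1
        rw [mem_filter, mem_Ico] at hp2
        obtain ⟨hpz, hpp, _⟩ := hp1
        have hpw : p < w := by
          by_contra h3
          exact hp2 ⟨⟨not_lt.1 h3, hpz⟩, hpp⟩
        have hp1 : (1 : ℝ) < p := by exact_mod_cast hpp.one_lt
        have hlp : 0 < Real.log p := Real.log_pos hp1
        have h3 : (p : ℝ) < Real.exp (Real.log N / τ) := Nat.lt_ceil.1 hpw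
        have h4 : Real.log p < Real.log N / τ := (Real.log_lt_iff_lt_exp (by linarith)).2 h3
        have h5 : τ < rt N p := by
          unfold rt
          rw [lt_div_iff₀ hlp]
          rw [lt_div_iff₀ hτ0] at h4
          linarith
        rw [A9st_gt h5, mul_zero]
      · intro p hp
        rw [mem_filter, mem_Ico] at hp
        have hp1 : (1 : ℝ) < p := by exact_mod_cast hp.2.one_lt
        have hlp : 0 < Real.log p := Real.log_pos hp1
        have h3 : Real.log N / τ ≤ Real.log p := by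
          refine hlw1.trans (Real.log_le_log hw0 ?_)
          exact_mod_cast hp.1.1
        have h4 : rt N p ≤ τ := by
          unfold rt
          rw [div_le_iff₀ hlp]
          rw [div_le_iff₀ hτ0] at h3
          linarith
        rw [A9st_le h4, mul_one]
    rw [hsum]
    have hVr := hV w z hZw hz0
    have hLne : Real.log N ≠ 0 := hL.ne'
    have e1 : V w - V z - V z / rt N z * (τ - rt N z)
        = ((V w * Real.log w - V z * Real.log z)
          + V z * Real.log z * (1 - τ * Real.log w / Real.log N)) / Real.log w := by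
      rw [hrt]
      field_simp
      ring
    rw [e1, abs_div, abs_of_pos hlw0, div_le_iff₀ hlw0]
    have e2 : |V w * Real.log w - V z * Real.log z| ≤ ε / (2 * τ) * (V z * Real.log z) := by
      have h3 : V w * Real.log w - V z * Real.log z
          = (V w * Real.log w / (V z * Real.log z) - 1) * (V z * Real.log z) := by
        field_simp
      rw [h3, abs_mul, abs_of_pos (mul_pos hVz hlz)]
      exact mul_le_mul_of_nonneg_right hVr (mul_pos hVz hlz).le
    have e3 : |1 - τ * Real.log w / Real.log N| ≤ τ / Real.log N := by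
      have h3 : 1 - τ * Real.log w / Real.log N = (Real.log N - τ * Real.log w) / Real.log N := by
        field_simp
      rw [h3, abs_div, abs_of_pos hL]
      apply div_le_div_of_nonneg_right _ hL.le
      rw [div_le_iff₀ hτ0] at hlw1
      have h4 : τ * Real.log w ≤ Real.log N + τ := by
        have := mul_le_mul_of_nonneg_left hlw2 hτ0.le
        rw [mul_add, mul_div_cancel₀ _ hτ0.ne', mul_one] at this
        exact this
      rw [abs_le]
      constructor <;> nlinarith
    have e4 : |V z * Real.log z * (1 - τ * Real.log w / Real.log N)|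
        ≤ V z * Real.log z * (τ / Real.log N) := by
      rw [abs_mul, abs_of_pos (mul_pos hVz hlz)]
      exact mul_le_mul_of_nonneg_left e3 (mul_pos hVz hlz).le
    have e5 : τ / Real.log N ≤ ε / (2 * τ) := by
      have h3 : 2 * τ ^ 2 / ε ≤ Real.log N := hz5.trans h1
      rw [div_le_div_iff₀ hL (by positivity)]
      rw [div_le_iff₀ hε] at h3
      nlinarith
    have e6 : V z * Real.log z * (τ / Real.log N) ≤ V z * Real.log z * (ε / (2 * τ)) :=
      mul_le_mul_of_nonneg_left e5 (mul_pos hVz hlz).le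
    have e7 : V z * Real.log z * (ε / τ) ≤ ε * V z * Real.log w := by
      have h3 : Real.log z / τ ≤ Real.log w := (div_le_div_of_nonneg_right h1 hτ0.le).trans hlw1
      calc V z * Real.log z * (ε / τ) = ε * V z * (Real.log z / τ) := by ring
        _ ≤ ε * V z * Real.log w := mul_le_mul_of_nonneg_left h3 (by positivity)
    have e8 : ε / (2 * τ) * (V z * Real.log z) + V z * Real.log z * (ε / (2 * τ))
        = V z * Real.log z * (ε / τ) := by
      field_simp
      ring
    calc |V w * Real.log w - V z * Real.log z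
          + V z * Real.log z * (1 - τ * Real.log w / Real.log N)|
        ≤ |V w * Real.log w - V z * Real.log z|
          + |V z * Real.log z * (1 - τ * Real.log w / Real.log N)| := abs_add_le _ _
      _ ≤ ε * V z * Real.log w := by linarith
  · push Not at hsτ
    rw [A9st_val0 τ (rt N z) s₁ hsτ hss, mul_zero, sub_zero]
    have hsum : A9sum (A9st τ) s₁ z N = 0 := by
      unfold A9sum
      apply Finset.sum_eq_zero
      intro p hp
      rw [mem_filter, mem_range] at hp
      have hp1 : (1 : ℝ) < p := by exact_mod_cast hp.2.1.one_lt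
      have hlp : 0 < Real.log p := Real.log_pos hp1
      have hpz : Real.log p ≤ Real.log z := Real.log_le_log (by linarith) (by exact_mod_cast hp.1.le)
      have h3 : rt N z ≤ rt N p := by
        unfold rt
        exact div_le_div_of_nonneg_left hL.le hlp hpz
      rw [A9st_gt (lt_of_lt_of_le hsτ h3), mul_zero]
    rw [hsum, abs_zero]
    positivity

/-- adding a multiple of a step function -/
private theorem A9_add (s₁ : ℝ) (φ ψ : ℝ → ℝ) (c : ℝ)
    (hφ : ∀ x y, IntervalIntegrable φ volume x y) (hψ : ∀ x y, IntervalIntegrable ψ volume x y)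
    (h1 : A9P s₁ φ) (h2 : A9P s₁ ψ) : A9P s₁ (fun t => φ t + c * ψ t) := by
  intro ε hε
  obtain ⟨Z1, hZ1⟩ := h1 (ε / 2) (by linarith)
  obtain ⟨Z2, hZ2⟩ := h2 (ε / (2 * (|c| + 1))) (by positivity)
  refine ⟨max Z1 Z2, fun z N hz h3 h4 => ?_⟩
  have g1 := hZ1 z N (le_trans (le_max_left _ _) hz) h3 h4
  have g2 := hZ2 z N (le_trans (le_max_right _ _) hz) h3 h4
  have e1 : A9sum (fun t => φ t + c * ψ t) s₁ z N = A9sum φ s₁ z N + c * A9sum ψ s₁ z N := by
    unfold A9sum
    rw [Finset.mul_sum, ← Finset.sum_add_distrib]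
    refine Finset.sum_congr rfl (fun p _ => ?_)
    ring
  have e2 : ∫ t in (rt N z)..s₁, (φ t + c * ψ t)
      = (∫ t in (rt N z)..s₁, φ t) + c * ∫ t in (rt N z)..s₁, ψ t := by
    rw [intervalIntegral.integral_add (hφ _ _) ((hψ _ _).const_mul c),
      intervalIntegral.integral_const_mul]
  rw [e1, e2]
  have e3 : A9sum φ s₁ z N + c * A9sum ψ s₁ z N
      - V z / rt N z * ((∫ t in (rt N z)..s₁, φ t) + c * ∫ t in (rt N z)..s₁, ψ t)
      = (A9sum φ s₁ z N - V z / rt N z * ∫ t in (rt N z)..s₁, φ t)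
        + c * (A9sum ψ s₁ z N - V z / rt N z * ∫ t in (rt N z)..s₁, ψ t) := by ring
  rw [e3]
  have hVz := V_pos z
  have e4 : |c| * (ε / (2 * (|c| + 1)) * V z) ≤ ε / 2 * V z := by
    have h5 : |c| * (ε / (2 * (|c| + 1))) ≤ ε / 2 := by
      rw [mul_div_assoc', div_le_div_iff₀ (by positivity) (by norm_num)]
      nlinarith [abs_nonneg c]
    calc |c| * (ε / (2 * (|c| + 1)) * V z) = |c| * (ε / (2 * (|c| + 1))) * V z := by ring
      _ ≤ ε / 2 * V z := mul_le_mul_of_nonneg_right h5 hVz.le
  calc |(A9sum φ s₁ z N - V z / rt N z * ∫ t in (rt N z)..s₁, φ t)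
        + c * (A9sum ψ s₁ z N - V z / rt N z * ∫ t in (rt N z)..s₁, ψ t)|
      ≤ |A9sum φ s₁ z N - V z / rt N z * ∫ t in (rt N z)..s₁, φ t|
        + |c * (A9sum ψ s₁ z N - V z / rt N z * ∫ t in (rt N z)..s₁, ψ t)| := abs_add_le _ _
    _ ≤ ε / 2 * V z + |c| * (ε / (2 * (|c| + 1)) * V z) := by
        rw [abs_mul]
        exact add_le_add g1 (mul_le_mul_of_nonneg_left g2 (abs_nonneg c))
    _ ≤ ε * V z := by linarith

/-- uniform approximation by combinations of step functions -/
private theorem A9_approx (φ : ℝ → ℝ) (hφ : Continuous φ) (s₁ : ℝ) (hs : 1 ≤ s₁) (δ : ℝ)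
    (hδ : 0 < δ) : ∃ ψ : ℝ → ℝ, (∀ x y, IntervalIntegrable ψ volume x y) ∧ A9P s₁ ψ ∧
      ∀ t : ℝ, 1 ≤ t → t ≤ s₁ → |ψ t - φ t| ≤ δ := by
  have huc : UniformContinuousOn φ (Set.Icc 0 s₁) :=
    isCompact_Icc.uniformContinuousOn_of_continuous hφ.continuousOn
  rw [Metric.uniformContinuousOn_iff_le] at huc
  obtain ⟨η, hη, huc⟩ := huc δ hδ
  obtain ⟨K, hK⟩ := exists_nat_gt ((s₁ - 1) / min η 1)
  have hK0 : (0 : ℝ) < K := lt_of_le_of_lt (by
    apply div_nonneg (by linarith)
    exact (lt_min hη one_pos).le) hK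
  set h : ℝ := (s₁ - 1) / K with hh
  have hh0 : 0 ≤ h := div_nonneg (by linarith) hK0.le
  have hhη : h ≤ min η 1 := by
    rw [hh, div_le_iff₀ hK0]
    rw [div_lt_iff₀ (lt_min hη one_pos)] at hK
    linarith
  have hKh : (K : ℝ) * h = s₁ - 1 := by
    rw [hh]
    field_simp
  have key : ∀ m : ℕ, m ≤ K → ∃ ψ : ℝ → ℝ, (∀ x y, IntervalIntegrable ψ volume x y) ∧
      A9P s₁ ψ ∧ (∀ t, t ≤ s₁ - m * h → ψ t = φ (s₁ - m * h)) ∧
      ∀ t, s₁ - (m + 1) * h ≤ t → t ≤ s₁ → |ψ t - φ t| ≤ δ := by
    intro m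
    induction m with
    | zero =>
      intro _
      refine ⟨fun t => 0 * A9st s₁ t + φ s₁ * A9st s₁ t, ?_, ?_, ?_, ?_⟩
      · intro x y
        exact ((A9st_int s₁ x y).const_mul 0).add ((A9st_int s₁ x y).const_mul (φ s₁))
      · apply A9_add s₁ (fun t => 0 * A9st s₁ t) (A9st s₁) (φ s₁)
          (fun x y => (A9st_int s₁ x y).const_mul 0) (A9st_int s₁) _ (A9_step s₁ s₁ hs le_rfl)
        intro ε hε
        refine ⟨0, fun z N _ _ _ => ?_⟩
        have e1 : A9sum (fun t => 0 * A9st s₁ t) s₁ z N = 0 := by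
          unfold A9sum
          exact Finset.sum_eq_zero (fun p _ => by ring)
        rw [e1]
        simp only [zero_mul, intervalIntegral.integral_zero, mul_zero, sub_zero, abs_zero]
        have := V_pos z
        positivity
      · intro t ht
        simp only [Nat.cast_zero, zero_mul, sub_zero] at ht
        show 0 * A9st s₁ t + φ s₁ * A9st s₁ t = _
        rw [A9st_le ht]
        simp
      · intro t ht1 ht2
        show |0 * A9st s₁ t + φ s₁ * A9st s₁ t - φ t| ≤ δ
        rw [A9st_le ht2]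
        simp only [Nat.cast_zero, zero_add, one_mul] at ht1
        have h3 := huc s₁ ⟨by linarith, le_rfl⟩ t ⟨by
          have := min_le_right η 1
          linarith, ht2⟩ (by
            rw [Real.dist_eq, abs_le]
            have := min_le_left η 1
            constructor <;> linarith)
        rw [Real.dist_eq] at h3
        simpa using h3
    | succ m ih =>
      intro hm
      obtain ⟨ψ, g1, g2, g3, g4⟩ := ih (by omega)
      have hm1 : ((m : ℝ) + 1) ≤ K := by exact_mod_cast hm
      have hmh : ((m : ℝ) + 1) * h ≤ s₁ - 1 := by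
        rw [← hKh]
        exact mul_le_mul_of_nonneg_right hm1 hh0
      have hmh0 : 0 ≤ ((m : ℝ) + 1) * h := by positivity
      set τ : ℝ := s₁ - (m + 1) * h with hτ
      refine ⟨fun t => ψ t + (φ τ - φ (s₁ - m * h)) * A9st τ t, ?_, ?_, ?_, ?_⟩
      · intro x y
        exact (g1 x y).add ((A9st_int τ x y).const_mul _)
      · exact A9_add s₁ ψ (A9st τ) _ g1 (A9st_int τ) g2
          (A9_step s₁ τ (by rw [hτ]; linarith) (by rw [hτ]; linarith))
      · intro t ht
        push_cast at ht ⊢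
        have ht' : t ≤ τ := ht
        have h3 : t ≤ s₁ - m * h := by
          have : τ ≤ s₁ - m * h := by
            rw [hτ]
            nlinarith
          linarith
        show ψ t + (φ τ - φ (s₁ - m * h)) * A9st τ t = φ τ
        rw [g3 t h3, A9st_le ht']
        ring
      · intro t ht1 ht2
        push_cast at ht1
        show |ψ t + (φ τ - φ (s₁ - m * h)) * A9st τ t - φ t| ≤ δ
        by_cases ht : t ≤ τ
        · have h3 : t ≤ s₁ - m * h := by
            have : τ ≤ s₁ - m * h := by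
              rw [hτ]
              nlinarith
            linarith
          rw [g3 t h3, A9st_le ht]
          have h4 : φ (s₁ - m * h) + (φ τ - φ (s₁ - m * h)) * 1 - φ t = φ τ - φ t := by ring
          rw [h4]
          have h7 : τ - h ≤ t := by
            rw [hτ]
            linarith
          have h8 : 1 ≤ τ := by
            rw [hτ]
            linarith
          have h9 := min_le_right η 1
          have h10 := min_le_left η 1
          have h5 := huc τ ⟨by linarith, by linarith⟩ t ⟨by linarith, ht2⟩ (by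
            rw [Real.dist_eq, abs_le]
            constructor <;> linarith)
          rw [Real.dist_eq] at h5
          exact h5
        · push Not at ht
          rw [A9st_gt ht, mul_zero, add_zero]
          exact g4 t (by rw [hτ] at ht; linarith) ht2
  obtain ⟨ψ, g1, g2, _, g4⟩ := key K le_rfl
  refine ⟨ψ, g1, g2, fun t ht1 ht2 => g4 t ?_ ht2⟩
  have : ((K : ℝ) + 1) * h = s₁ - 1 + h := by
    rw [add_mul, one_mul, hKh]
  rw [this]
  linarith

/-- PROOF. Write `s = rt N z ∈ [1, s₁]`, `L = log N`, `c = e^(-γ)`, `t_n = rt N n`. The primes of the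
sum are those of `Ico w z`, `w` the least natural number with `L ≤ s₁ log w` (`w ≤ z`; `w → ∞`
uniformly as `z → ∞`, because `log w ≥ L / s₁ ≥ log z / s₁`; and `t_w ≤ s₁`, `t_{w-1} > s₁`, so
`t_w → s₁` uniformly). `V p / p = V p - V (p+1)` and `V n = V (n+1)` for `n` not prime, so the sum
is `∑_{n ∈ Ico w z} (V n - V (n+1)) φ(t_n)`. For `δ > 0` and `z` large, `|V n - c / log n| ≤
δ / log n ≤ δ s₁ / L` for all `n ≥ w` (`mertens_V`).
Partition: `φ` is uniformly continuous on `[0, s₁ + 1]`; choose `K` (depending only on `φ`, `s₁`,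
`ε`) and points `s = τ_0 < ... < τ_K = s₁` with equal distances and `|φ(x) - φ(y)| ≤ ε'` for
`|x - y| ≤ s₁/K`; let `n_k` be the least number with `t_{n_k} ≤ τ_k` (`n_0 = z`, `n_K = w`). On
`[n_{k+1}, n_k)` replace `φ(t_n)` by `φ(τ_k)` (error `≤ ε' (V n - V (n+1))`, total
`≤ ε' V w ≤ ε' C s₁ V z`), and `V n_{k+1} - V n_k = c (τ_{k+1} - τ_k)/L + O(δ s₁/L)` up to
an error from `t_{n_k} → τ_k`. Sum over the `K` intervals and compare with the Riemann sum of
`(c/L) ∫_s^{s₁} φ`. At the end `c / L = (c / log z) / s` and `c/log z = V z (1 + o(1))`. -/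
theorem riemann (φ : ℝ → ℝ) (hφ : Continuous φ) (s₁ : ℝ) (hs : 1 ≤ s₁) (ε : ℝ) (hε : 0 < ε) :
    ∃ Z : ℕ, ∀ z N : ℕ, Z ≤ z → Real.log z ≤ Real.log N → Real.log N ≤ s₁ * Real.log z →
      |∑ p ∈ (range z).filter (fun p : ℕ => p.Prime ∧ Real.log N ≤ s₁ * Real.log p),
          V p / p * φ (rt N p) - V z / rt N z * ∫ t in (rt N z)..s₁, φ t| ≤ ε * V z := by
  set δ : ℝ := ε / (4 * (2 * s₁ + 1)) with hδ
  have hδ0 : 0 < δ := by positivity
  obtain ⟨ψ, g1, g2, g3⟩ := A9_approx φ hφ s₁ hs δ hδ0
  obtain ⟨Z1, hZ1⟩ := g2 (ε / 2) (by linarith)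
  obtain ⟨Z2, hZ2⟩ := A9_step s₁ s₁ hs le_rfl 1 one_pos
  refine ⟨max (max Z1 Z2) 3, fun z N hz h1 h2 => ?_⟩
  have hzA : Z1 ≤ z := le_trans (le_trans (le_max_left _ _) (le_max_left _ _)) hz
  have hzB : Z2 ≤ z := le_trans (le_trans (le_max_right _ _) (le_max_left _ _)) hz
  have hz3 : 3 ≤ z := le_trans (le_max_right _ _) hz
  have f1 := hZ1 z N hzA h1 h2
  have f2 := hZ2 z N hzB h1 h2
  have hVz : 0 < V z := V_pos z
  have hz1 : (1 : ℝ) < z := by
    have : (3 : ℝ) ≤ z := by exact_mod_cast hz3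
    linarith
  have hlz : 0 < Real.log z := Real.log_pos hz1
  have hL : 0 < Real.log N := lt_of_lt_of_le hlz h1
  have hrt : rt N z = Real.log N / Real.log z := rfl
  have hs1 : 1 ≤ rt N z := by rw [hrt, le_div_iff₀ hlz]; linarith
  have hs0 : 0 < rt N z := by linarith
  have hss : rt N z ≤ s₁ := by rw [hrt, div_le_iff₀ hlz]; exact h2
  -- the total weight
  have hrange : ∀ p ∈ (range z).filter (fun p : ℕ => p.Prime ∧ Real.log N ≤ s₁ * Real.log p),
      1 ≤ rt N p ∧ rt N p ≤ s₁ := by
    intro p hp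
    rw [mem_filter, mem_range] at hp
    have hp1 : (1 : ℝ) < p := by exact_mod_cast hp.2.1.one_lt
    have hlp : 0 < Real.log p := Real.log_pos hp1
    have hpz : Real.log p ≤ Real.log z := Real.log_le_log (by linarith) (by exact_mod_cast hp.1.le)
    unfold rt
    constructor
    · rw [le_div_iff₀ hlp]
      linarith
    · rw [div_le_iff₀ hlp]
      exact hp.2.2
  have hw : ∑ p ∈ (range z).filter (fun p : ℕ => p.Prime ∧ Real.log N ≤ s₁ * Real.log p), V p / p
      ≤ (s₁ + 1) * V z := by
    have e1 : A9sum (A9st s₁) s₁ z N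
        = ∑ p ∈ (range z).filter (fun p : ℕ => p.Prime ∧ Real.log N ≤ s₁ * Real.log p), V p / p := by
      unfold A9sum
      refine Finset.sum_congr rfl (fun p hp => ?_)
      rw [A9st_le (hrange p hp).2, mul_one]
    rw [e1, A9st_val s₁ (rt N z) s₁ hss le_rfl] at f2
    have e2 := (abs_le.1 f2).2
    have e3 : V z / rt N z * (s₁ - rt N z) ≤ s₁ * V z := by
      have e4 : V z / rt N z ≤ V z := div_le_self hVz.le hs1
      have e5 : 0 ≤ s₁ - rt N z := by linarith
      nlinarith
    linarith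
  have hdiff : |A9sum φ s₁ z N - A9sum ψ s₁ z N| ≤ δ * ((s₁ + 1) * V z) := by
    have e1 : A9sum φ s₁ z N - A9sum ψ s₁ z N
        = ∑ p ∈ (range z).filter (fun p : ℕ => p.Prime ∧ Real.log N ≤ s₁ * Real.log p),
          V p / p * (φ (rt N p) - ψ (rt N p)) := by
      unfold A9sum
      rw [← Finset.sum_sub_distrib]
      refine Finset.sum_congr rfl (fun p _ => ?_)
      ring
    rw [e1]
    refine (Finset.abs_sum_le_sum_abs _ _).trans ?_
    calc ∑ p ∈ (range z).filter (fun p : ℕ => p.Prime ∧ Real.log N ≤ s₁ * Real.log p),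
          |V p / p * (φ (rt N p) - ψ (rt N p))|
        ≤ ∑ p ∈ (range z).filter (fun p : ℕ => p.Prime ∧ Real.log N ≤ s₁ * Real.log p),
          δ * (V p / p) := by
          refine Finset.sum_le_sum (fun p hp => ?_)
          have hVp := V_pos p
          have e2 : 0 ≤ V p / p := by positivity
          rw [abs_mul, abs_of_nonneg e2, mul_comm]
          apply mul_le_mul_of_nonneg_right _ e2
          rw [abs_sub_comm]
          exact g3 _ (hrange p hp).1 (hrange p hp).2
      _ ≤ δ * ((s₁ + 1) * V z) := by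
          rw [← Finset.mul_sum]
          exact mul_le_mul_of_nonneg_left hw hδ0.le
  have hint : |(∫ t in (rt N z)..s₁, φ t) - ∫ t in (rt N z)..s₁, ψ t| ≤ δ * s₁ := by
    rw [← intervalIntegral.integral_sub (hφ.intervalIntegrable _ _) (g1 _ _)]
    have e1 : ‖∫ t in (rt N z)..s₁, (φ t - ψ t)‖ ≤ δ * |s₁ - rt N z| := by
      apply intervalIntegral.norm_integral_le_of_norm_le_const
      intro t ht
      rw [Set.uIoc_of_le hss] at ht
      rw [Real.norm_eq_abs, abs_sub_comm]
      exact g3 t (by linarith [ht.1]) ht.2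
    rw [Real.norm_eq_abs] at e1
    refine e1.trans (mul_le_mul_of_nonneg_left ?_ hδ0.le)
    rw [abs_of_nonneg (by linarith)]
    linarith
  have hint2 : |V z / rt N z * (∫ t in (rt N z)..s₁, φ t)
      - V z / rt N z * ∫ t in (rt N z)..s₁, ψ t| ≤ δ * s₁ * V z := by
    rw [← mul_sub, abs_mul, abs_of_pos (div_pos hVz hs0)]
    have e4 : V z / rt N z ≤ V z := div_le_self hVz.le hs1
    calc V z / rt N z * |(∫ t in (rt N z)..s₁, φ t) - ∫ t in (rt N z)..s₁, ψ t|
        ≤ V z * (δ * s₁) := mul_le_mul e4 hint (abs_nonneg _) hVz.le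
      _ = δ * s₁ * V z := by ring
  have hfin : δ * ((s₁ + 1) * V z) + δ * s₁ * V z = ε / 4 * V z := by
    rw [hδ]
    field_simp
    ring
  show |A9sum φ s₁ z N - V z / rt N z * ∫ t in (rt N z)..s₁, φ t| ≤ ε * V z
  have hsplit : A9sum φ s₁ z N - V z / rt N z * ∫ t in (rt N z)..s₁, φ t
      = (A9sum ψ s₁ z N - V z / rt N z * ∫ t in (rt N z)..s₁, ψ t)
        + (A9sum φ s₁ z N - A9sum ψ s₁ z N)
        - (V z / rt N z * (∫ t in (rt N z)..s₁, φ t)
          - V z / rt N z * ∫ t in (rt N z)..s₁, ψ t) := by ring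
  rw [hsplit]
  have t1 := abs_sub ((A9sum ψ s₁ z N - V z / rt N z * ∫ t in (rt N z)..s₁, ψ t)
        + (A9sum φ s₁ z N - A9sum ψ s₁ z N)) (V z / rt N z * (∫ t in (rt N z)..s₁, φ t)
          - V z / rt N z * ∫ t in (rt N z)..s₁, ψ t)
  have t2 := abs_add_le (A9sum ψ s₁ z N - V z / rt N z * ∫ t in (rt N z)..s₁, ψ t)
        (A9sum φ s₁ z N - A9sum ψ s₁ z N)
  have t3 : 0 < ε * V z := mul_pos hε hVz
  linarith

end Pool.Agent.LibLin93
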