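import Pool.Agent.LibLin93.A2
import Pool.Agent.LibLin93.A8
import Pool.Agent.LibLin93.A9

/-! Row LS B1: from an upper bound function to a lower bound function. -/

set_option autoImplicit false

namespace Pool.Agent.LibLin93

open Finset Filter Topology MeasureTheory

/-- the upper bound for one prime -/
private theorem B1_T (Fu : ℝ → ℝ) (s₁ δ η M : ℝ) (hδ : 0 < δ) (hM0 : 0 ≤ M) (z N p : ℕ)
    (a : ℕ → ℕ) (hp : p.Prime) (hpz : p < z) (h2 : 2 * Real.log z ≤ Real.log N)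
    (hN0 : 0 < N) (hps : Real.log N ≤ s₁ * Real.log p)
    (hUp : ∀ N' : ℕ, Real.log p ≤ Real.log N' → Real.log N' ≤ s₁ * Real.log p → ∀ a : ℕ → ℕ,
      (S a N' p : ℝ) ≤ (Fu (rt N' p) + δ) * (N' * V p))
    (huc : ∀ x y : ℝ, 1 ≤ x → x ≤ s₁ → 1 ≤ y → y ≤ s₁ → |x - y| ≤ η → |Fu x - Fu y| ≤ δ)
    (hM : ∀ x : ℝ, 1 ≤ x → x ≤ s₁ → |Fu x| ≤ M) (hzη : 2 / (z : ℝ) ≤ η)
    (hzM : M + 2 * δ ≤ δ * z) :
    (T a N p : ℝ) ≤ (Fu (rt N p - 1) + 3 * δ) * (N * (V p / p)) := by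
  have hp2 : (2 : ℝ) ≤ p := by exact_mod_cast hp.two_le
  have hp0 : (0 : ℝ) < p := by linarith
  have hlp2 : Real.log 2 ≤ Real.log p := Real.log_le_log (by norm_num) hp2
  have hl2 := Real.log_two_gt_d9
  have hlp : 0 < Real.log p := by linarith
  have hpz' : (p : ℝ) ≤ z := by exact_mod_cast hpz.le
  have hz0 : (0 : ℝ) < z := by linarith
  have hlpz : Real.log p ≤ Real.log z := Real.log_le_log hp0 hpz'
  have hN : (0 : ℝ) < N := by exact_mod_cast hN0
  have hzN : (z : ℝ) ^ 2 ≤ N := by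
    rw [← Real.exp_log (pow_pos hz0 2), ← Real.exp_log hN]
    apply Real.exp_le_exp.2
    rw [Real.log_pow]
    exact_mod_cast h2
  have hpzN : (p : ℝ) * z ≤ N := by nlinarith
  have hVp : 0 < V p := V_pos p
  set X : ℝ := (N : ℝ) / p with hX
  have hXz : (z : ℝ) ≤ X := by
    rw [hX, le_div_iff₀ hp0]
    linarith
  have hX0 : 0 < X := by linarith
  have hlX : Real.log X = Real.log N - Real.log p := by
    rw [hX, Real.log_div hN.ne' hp0.ne']
  obtain ⟨a', N', hN'1, hN'2, hT⟩ := T_eq a N p hp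
  have hS : S a' N' p ≤ S a' (N / p + 1) p := S_mono a' N' (N / p + 1) p hN'2
  have hW1 : X ≤ ((N / p + 1 : ℕ) : ℝ) := by
    rw [hX, div_le_iff₀ hp0]
    have h3 : N < p * (N / p + 1) := Nat.lt_mul_div_succ N hp.pos
    have h4 : (N : ℝ) ≤ (p : ℝ) * ((N / p + 1 : ℕ) : ℝ) := by exact_mod_cast h3.le
    linarith
  have hW2 : ((N / p + 1 : ℕ) : ℝ) ≤ X + 1 := by
    push_cast
    have := Nat.cast_div_le (α := ℝ) (m := N) (n := p)
    linarith
  set W : ℕ := N / p + 1 with hW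
  have hW0 : (0 : ℝ) < W := by linarith
  have hlW1 : Real.log N - Real.log p ≤ Real.log W := by
    rw [← hlX]
    exact Real.log_le_log hX0 hW1
  have hlW2 : Real.log W ≤ Real.log N - Real.log p + 1 / z := by
    have h3 : Real.log W ≤ Real.log (X * (1 + 1 / X)) := by
      apply Real.log_le_log hW0
      have : X * (1 + 1 / X) = X + 1 := by field_simp
      rw [this]
      exact hW2
    rw [Real.log_mul hX0.ne' (by positivity), hlX] at h3
    have h4 : Real.log (1 + 1 / X) ≤ 1 / X := by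
      have := Real.log_le_sub_one_of_pos (show (0 : ℝ) < 1 + 1 / X by positivity)
      linarith
    have h5 : 1 / X ≤ 1 / (z : ℝ) := one_div_le_one_div_of_le hz0 hXz
    linarith
  have hc1 : Real.log p ≤ Real.log W := by linarith
  have hc2 : Real.log W ≤ s₁ * Real.log p := by
    refine le_trans (Real.log_le_log hW0 ?_) hps
    have h3 : X ≤ N / 2 := div_le_div_of_nonneg_left hN.le (by norm_num) hp2
    have h4 : (2 : ℝ) ≤ N := by nlinarith
    linarith
  have hfin := hUp W hc1 hc2 a'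
  -- the two arguments
  have hr1 : 1 ≤ rt W p := by
    unfold rt
    rw [le_div_iff₀ hlp]
    linarith
  have hr2 : rt W p ≤ s₁ := by
    unfold rt
    rw [div_le_iff₀ hlp]
    exact hc2
  have hr3 : 1 ≤ rt N p - 1 := by
    have : 2 ≤ rt N p := by
      unfold rt
      rw [le_div_iff₀ hlp]
      linarith
    linarith
  have hr4 : rt N p - 1 ≤ s₁ := by
    have : rt N p ≤ s₁ := by
      unfold rt
      rw [div_le_iff₀ hlp]
      exact hps
    linarith
  have hr5 : |rt W p - (rt N p - 1)| ≤ η := by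
    have h3 : rt W p - (rt N p - 1) = (Real.log W - (Real.log N - Real.log p)) / Real.log p := by
      unfold rt
      field_simp
    have h4 : 0 ≤ Real.log W - (Real.log N - Real.log p) := by linarith
    rw [h3, abs_of_nonneg (div_nonneg h4 hlp.le)]
    refine le_trans ?_ hzη
    rw [div_le_div_iff₀ hlp hz0]
    have h5 : (Real.log W - (Real.log N - Real.log p)) * z ≤ 1 := by
      have h6 : Real.log W - (Real.log N - Real.log p) ≤ 1 / z := by linarith
      calc (Real.log W - (Real.log N - Real.log p)) * z ≤ 1 / z * z :=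
            mul_le_mul_of_nonneg_right h6 hz0.le
        _ = 1 := by field_simp
    nlinarith
  have hF := (abs_le.1 (huc _ _ hr1 hr2 hr3 hr4 hr5)).2
  have hFM := (abs_le.1 (hM _ hr3 hr4)).2
  have hFM' := (abs_le.1 (hM _ hr3 hr4)).1
  calc (T a N p : ℝ) ≤ (S a' W p : ℝ) := by
        rw [hT]
        exact_mod_cast hS
    _ ≤ (Fu (rt W p) + δ) * (W * V p) := hfin
    _ ≤ (Fu (rt N p - 1) + 2 * δ) * (W * V p) := by
        apply mul_le_mul_of_nonneg_right _ (by positivity)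
        linarith
    _ ≤ (Fu (rt N p - 1) + 3 * δ) * (X * V p) := by
        have h3 : (Fu (rt N p - 1) + 2 * δ) * W ≤ (Fu (rt N p - 1) + 3 * δ) * X := by
          have h4 : (W : ℝ) = X + (W - X) := by ring
          have h5 : 0 ≤ (W : ℝ) - X := by linarith
          have h6 : (W : ℝ) - X ≤ 1 := by linarith
          have h7 : (Fu (rt N p - 1) + 2 * δ) * (W - X) ≤ M + 2 * δ := by
            have h8 : (Fu (rt N p - 1) + 2 * δ) * (W - X) ≤ (M + 2 * δ) * (W - X) :=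
              mul_le_mul_of_nonneg_right (by linarith) h5
            have h9 : (M + 2 * δ) * (W - X) ≤ (M + 2 * δ) * 1 :=
              mul_le_mul_of_nonneg_left h6 (by linarith)
            linarith
          have h10 : δ * z ≤ δ * X := mul_le_mul_of_nonneg_left hXz hδ.le
          rw [h4]
          nlinarith
        calc (Fu (rt N p - 1) + 2 * δ) * (W * V p) = (Fu (rt N p - 1) + 2 * δ) * W * V p := by ring
          _ ≤ (Fu (rt N p - 1) + 3 * δ) * X * V p := mul_le_mul_of_nonneg_right h3 hVp.le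
          _ = (Fu (rt N p - 1) + 3 * δ) * (X * V p) := by ring
    _ = (Fu (rt N p - 1) + 3 * δ) * (N * (V p / p)) := by
        rw [hX]
        ring

/-- the cut `w = ⌈exp (L / s₁)⌉` -/
private theorem B1_cut (s₁ : ℝ) (hs : 1 ≤ s₁) (z N : ℕ) (hz : 2 ≤ z)
    (h1 : Real.log z ≤ Real.log N) (h2 : Real.log N ≤ s₁ * Real.log z) :
    ∃ w : ℕ, w ≤ z ∧ Real.exp (Real.log N / s₁) ≤ w ∧ Real.log N / s₁ ≤ Real.log w ∧
      Real.log w ≤ Real.log N / s₁ + 1 ∧
      (range z).filter (fun p : ℕ => p.Prime ∧ Real.log N ≤ s₁ * Real.log p)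
        = (Ico w z).filter Nat.Prime := by
  have hτ0 : 0 < s₁ := by linarith
  have hz1 : (1 : ℝ) < z := by
    have : (2 : ℝ) ≤ z := by exact_mod_cast hz
    linarith
  have hlz : 0 < Real.log z := Real.log_pos hz1
  have hL : 0 < Real.log N := lt_of_lt_of_le hlz h1
  set w : ℕ := ⌈Real.exp (Real.log N / s₁)⌉₊ with hw
  have hw1 : Real.exp (Real.log N / s₁) ≤ w := Nat.le_ceil _
  have hw2 : (w : ℝ) < Real.exp (Real.log N / s₁) + 1 := Nat.ceil_lt_add_one (Real.exp_pos _).le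
  have hw0 : (0 : ℝ) < w := lt_of_lt_of_le (Real.exp_pos _) hw1
  have hwz : w ≤ z := by
    apply Nat.ceil_le.2
    have h3 : Real.log N / s₁ ≤ Real.log z := by
      rw [div_le_iff₀ hτ0]
      linarith
    calc Real.exp (Real.log N / s₁) ≤ Real.exp (Real.log z) := Real.exp_le_exp.2 h3
      _ = z := Real.exp_log (by linarith)
  have hlw1 : Real.log N / s₁ ≤ Real.log w := (Real.le_log_iff_exp_le hw0).2 hw1
  have hlw2 : Real.log w ≤ Real.log N / s₁ + 1 := by
    rw [Real.log_le_iff_le_exp hw0, Real.exp_add]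
    have h3 : (1 : ℝ) ≤ Real.exp (Real.log N / s₁) := Real.one_le_exp (by positivity)
    have h4 : (2 : ℝ) ≤ Real.exp 1 := by
      have := Real.add_one_le_exp (1 : ℝ)
      linarith
    nlinarith
  refine ⟨w, hwz, hw1, hlw1, hlw2, ?_⟩
  ext p
  rw [mem_filter, mem_filter, mem_range, mem_Ico]
  constructor
  · rintro ⟨hpz, hpp, hps⟩
    refine ⟨⟨?_, hpz⟩, hpp⟩
    apply Nat.ceil_le.2
    have hp0 : (0 : ℝ) < p := by exact_mod_cast hpp.pos
    have h3 : Real.log N / s₁ ≤ Real.log p := by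
      rw [div_le_iff₀ hτ0]
      linarith
    calc Real.exp (Real.log N / s₁) ≤ Real.exp (Real.log p) := Real.exp_le_exp.2 h3
      _ = p := Real.exp_log hp0
  · rintro ⟨⟨hwp, hpz⟩, hpp⟩
    refine ⟨hpz, hpp, ?_⟩
    have h3 : Real.log N / s₁ ≤ Real.log p := by
      refine hlw1.trans (Real.log_le_log hw0 ?_)
      exact_mod_cast hwp
    rw [div_le_iff₀ hτ0] at h3
    linarith

/-- PROOF. `s = rt N z ∈ [2, s₁]`, `L = log N`. Let `w` be the least number with `L ≤ s₁ log w`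
(`w ≤ z`, and `w → ∞` uniformly as `z → ∞`, `rt N w ≤ s₁ < rt N (w-1)`, so `rt N w → s₁`).
Buchstab (`buchstab`, A1): `S a N z = S a N w - ∑_{p ∈ Ico w z} T a N p`.
`S a N w ≥ (1 - C₀ exp (-rt N w) - ε') N V w` (hypothesis `h0`), and `V w = V z (s₁/s) (1 + o(1))`
by `V_ratio` (`log z / log w = rt N w / s`), so
`S a N w ≥ N V z ((s₁/s)(1 - C₀ exp (-s₁)) - ε'')`. For `p ∈ Ico w z` prime: `T a N p = S a' N' p ≤
S a' N'' p` with `N'' = N / p + 1` (A2, `S_mono`). As `p < z`, `z² ≤ N`: `N'' ≥ N / p ≥ p` (real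
division), so `1 ≤ rt N'' p`, and `N'' = (N/p)(1 + O(p/N))`, `p/N ≤ 1/z`; so
`|rt N'' p - (rt N p - 1)|` is as small as we want, uniformly. By `hU` (with `s₁` there, at `p`,
which is `≥ w ≥ Z`) and the uniform continuity of `Fu` on `[1, s₁]`:
`T a N p ≤ (Fu (rt N p - 1) + ε') (N/p) V p`. (Here `Fu` may be negative: use
`N'' V p ≤ (1+δ) (N/p) V p` and boundedness of `Fu`.) Sum over `p` with `riemann`,
`φ t = Fu (t - 1)`, and `∑ V p / p = V w - V z ≤ C V z`:
`∑ T ≤ N V z ((1/s) ∫_s^{s₁} Fu (t-1) dt + ε'')`. Finally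
`(s₁/s)(1 - C₀ exp (-s₁)) - (1/s) ∫ Fu (t-1) =
1 - (1/s) ∫ (Fu (t-1) - 1) - (s₁/s) C₀ exp (-s₁)` because `∫_s^{s₁} 1 = s₁ - s`. -/
theorem step_lower (Fu : ℝ → ℝ) (hF : Continuous Fu) (hU : UBc Fu) (C₀ : ℝ) (hC₀ : 0 < C₀)
    (h0 : ∀ ε : ℝ, 0 < ε → ∃ Z : ℕ, ∀ z N : ℕ, Z ≤ z → z ≤ N → ∀ a : ℕ → ℕ,
      (1 - C₀ * Real.exp (-rt N z) - ε) * (N * V z) ≤ (S a N z : ℝ))
    (s₁ : ℝ) (hs : 2 ≤ s₁) (ε : ℝ) (hε : 0 < ε) :
    ∃ Z : ℕ, ∀ z N : ℕ, Z ≤ z → 2 * Real.log z ≤ Real.log N → Real.log N ≤ s₁ * Real.log z →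
      ∀ a : ℕ → ℕ, (1 - (1 / rt N z) * (∫ t in (rt N z)..s₁, (Fu (t - 1) - 1)) -
        C₀ * s₁ * Real.exp (-s₁) - ε) * (N * V z) ≤ (S a N z : ℝ) := by
  have hs1 : 1 ≤ s₁ := by linarith
  have hs0 : 0 < s₁ := by linarith
  set δ : ℝ := min 1 (ε / (8 * s₁)) with hδ
  have hδ0 : 0 < δ := lt_min one_pos (by positivity)
  have hδ1 : δ ≤ 1 := min_le_left _ _
  have hδε : 8 * s₁ * δ ≤ ε := by
    have h1 : δ ≤ ε / (8 * s₁) := min_le_right _ _
    rw [le_div_iff₀ (by positivity)] at h1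
    linarith
  -- continuity of Fu on the compact interval
  obtain ⟨M, hM⟩ := isCompact_Icc.exists_bound_of_continuousOn (s := Set.Icc (1 : ℝ) s₁)
    hF.continuousOn
  have hM' : ∀ x : ℝ, 1 ≤ x → x ≤ s₁ → |Fu x| ≤ M := fun x h1 h2 => hM x ⟨h1, h2⟩
  have hM0 : 0 ≤ M := (abs_nonneg _).trans (hM' 1 le_rfl hs1)
  have huc0 : UniformContinuousOn Fu (Set.Icc 1 s₁) :=
    isCompact_Icc.uniformContinuousOn_of_continuous hF.continuousOn
  rw [Metric.uniformContinuousOn_iff_le] at huc0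
  obtain ⟨η, hη, huc1⟩ := huc0 δ hδ0
  have huc : ∀ x y : ℝ, 1 ≤ x → x ≤ s₁ → 1 ≤ y → y ≤ s₁ → |x - y| ≤ η → |Fu x - Fu y| ≤ δ := by
    intro x y h1 h2 h3 h4 h5
    have h6 := huc1 x ⟨h1, h2⟩ y ⟨h3, h4⟩ (by rwa [Real.dist_eq])
    rwa [Real.dist_eq] at h6
  obtain ⟨ZU, hZU⟩ := hU s₁ δ hδ0
  obtain ⟨Z0, hZ0⟩ := h0 δ hδ0
  obtain ⟨Z1, hZ1⟩ := riemann (fun t => Fu (t - 1)) (hF.comp (continuous_id.sub continuous_const))
    s₁ hs1 δ hδ0
  obtain ⟨Z2, hZ2⟩ := riemann (fun _ => 1) continuous_const s₁ hs1 δ hδ0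
  have hlog : Tendsto (fun z : ℕ => Real.log z) atTop atTop :=
    Real.tendsto_log_atTop.comp tendsto_natCast_atTop_atTop
  have hcast : Tendsto (fun z : ℕ => (z : ℝ)) atTop atTop := tendsto_natCast_atTop_atTop
  have hev : ∀ᶠ z : ℕ in atTop, Z1 ≤ z ∧ Z2 ≤ z ∧ 3 ≤ z ∧
      s₁ * Real.log (ZU + Z0 + 3 : ℕ) ≤ Real.log z ∧ C₀ * s₁ ^ 2 / δ ≤ Real.log z ∧
      2 / η ≤ (z : ℝ) ∧ (M + 2 * δ) / δ ≤ (z : ℝ) := by
    filter_upwards [eventually_ge_atTop Z1, eventually_ge_atTop Z2, eventually_ge_atTop 3,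
      hlog.eventually_ge_atTop (s₁ * Real.log (ZU + Z0 + 3 : ℕ)),
      hlog.eventually_ge_atTop (C₀ * s₁ ^ 2 / δ), hcast.eventually_ge_atTop (2 / η),
      hcast.eventually_ge_atTop ((M + 2 * δ) / δ)] with z h1 h2 h3 h4 h5 h6 h7
    exact ⟨h1, h2, h3, h4, h5, h6, h7⟩
  obtain ⟨Z, hZ⟩ := eventually_atTop.1 hev
  refine ⟨Z, fun z N hz h1 h2 a => ?_⟩
  obtain ⟨hzA, hzB, hz3, hzC, hzD, hzE, hzF⟩ := hZ z hz
  have hVz : 0 < V z := V_pos z
  have hz1 : (1 : ℝ) < z := by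
    have : (3 : ℝ) ≤ z := by exact_mod_cast hz3
    linarith
  have hz0 : (0 : ℝ) < z := by linarith
  have hlz : 0 < Real.log z := Real.log_pos hz1
  have h1' : Real.log z ≤ Real.log N := by linarith
  have hL : 0 < Real.log N := lt_of_lt_of_le hlz h1'
  have hN0 : 0 < N := by
    rcases Nat.eq_zero_or_pos N with h3 | h3
    · rw [h3, Nat.cast_zero, Real.log_zero] at hL
      exact absurd hL (lt_irrefl _)
    · exact h3
  have hN : (0 : ℝ) < N := by exact_mod_cast hN0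
  have hrt : rt N z = Real.log N / Real.log z := rfl
  have hr2 : 2 ≤ rt N z := by rw [hrt, le_div_iff₀ hlz]; linarith
  have hr0 : 0 < rt N z := by linarith
  have hrs : rt N z ≤ s₁ := by rw [hrt, div_le_iff₀ hlz]; exact h2
  obtain ⟨w, hwz, hw1, hlw1, hlw2, hset⟩ := B1_cut s₁ hs1 z N (by omega) h1' h2
  have hw0 : (0 : ℝ) < w := lt_of_lt_of_le (Real.exp_pos _) hw1
  have hwbig : ZU + Z0 + 3 ≤ w := by
    have h3 : (0 : ℝ) < ((ZU + Z0 + 3 : ℕ) : ℝ) := by positivity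
    have h4 : Real.log ((ZU + Z0 + 3 : ℕ) : ℝ) ≤ Real.log N / s₁ := by
      rw [le_div_iff₀ hs0]
      linarith
    have h5 : ((ZU + Z0 + 3 : ℕ) : ℝ) ≤ w := by
      calc ((ZU + Z0 + 3 : ℕ) : ℝ) = Real.exp (Real.log ((ZU + Z0 + 3 : ℕ) : ℝ)) :=
            (Real.exp_log h3).symm
        _ ≤ Real.exp (Real.log N / s₁) := Real.exp_le_exp.2 h4
        _ ≤ w := hw1
    exact_mod_cast h5
  have hlw0 : 0 < Real.log w := lt_of_lt_of_le (by positivity) hlw1
  have hVw : 0 < V w := V_pos w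
  -- `V w` against `V z`
  have hR1 := hZ1 z N hzA h1' h2
  have hR2 := hZ2 z N hzB h1' h2
  rw [hset] at hR1 hR2
  have hsumV : ∑ p ∈ (Ico w z).filter Nat.Prime, V p / p * 1 = V w - V z := by
    rw [← sum_V w z hwz]
    exact Finset.sum_congr rfl (fun p _ => mul_one _)
  have hR3 : |V w - V z * (s₁ / rt N z)| ≤ δ * V z := by
    have e1 : ∑ p ∈ (Ico w z).filter Nat.Prime, V p / p * (fun _ : ℝ => (1 : ℝ)) (rt N p)
        - V z / rt N z * ∫ t in (rt N z)..s₁, (fun _ : ℝ => (1 : ℝ)) t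
        = V w - V z * (s₁ / rt N z) := by
      have e2 : ∫ t in (rt N z)..s₁, (fun _ : ℝ => (1 : ℝ)) t = s₁ - rt N z := by
        simp
      rw [e2]
      show (∑ p ∈ (Ico w z).filter Nat.Prime, V p / p * 1) - _ = _
      rw [hsumV]
      field_simp
      ring
    rw [e1] at hR2
    exact hR2
  obtain ⟨hR4, hR5⟩ := abs_le.1 hR3
  -- lower bound for `S a N w`
  have hwN : w ≤ N := by
    have h3 : (z : ℝ) ≤ N := by
      rw [← Real.exp_log hz0, ← Real.exp_log hN]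
      exact Real.exp_le_exp.2 h1'
    exact hwz.trans (by exact_mod_cast h3)
  have hS1 := hZ0 w N (by omega) hwN a
  have hexp : C₀ * Real.exp (-rt N w) ≤ C₀ * Real.exp (-s₁) + δ := by
    -- `rt N w ≥ s₁ - s₁²/L`
    have h3 : s₁ - rt N w ≤ s₁ ^ 2 / Real.log N := by
      have h4 : rt N w = Real.log N / Real.log w := rfl
      have h5 : Real.log w * s₁ ≤ Real.log N + s₁ := by
        have := mul_le_mul_of_nonneg_right hlw2 hs0.le
        rw [add_mul, div_mul_cancel₀ _ hs0.ne', one_mul] at this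
        exact this
      have h6 : s₁ - rt N w = (s₁ * Real.log w - Real.log N) / Real.log w := by
        rw [h4]
        field_simp
      rw [h6]
      have h7 : (s₁ * Real.log w - Real.log N) / Real.log w ≤ s₁ / Real.log w :=
        div_le_div_of_nonneg_right (by linarith) hlw0.le
      refine h7.trans ?_
      rw [div_le_div_iff₀ hlw0 hL]
      rw [div_le_iff₀ hs0] at hlw1
      have h8 : s₁ * Real.log N ≤ s₁ * (Real.log w * s₁) := mul_le_mul_of_nonneg_left hlw1 hs0.le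
      calc s₁ * Real.log N ≤ s₁ * (Real.log w * s₁) := h8
        _ = s₁ ^ 2 * Real.log w := by ring
    have h8 : s₁ ^ 2 / Real.log N ≤ δ / C₀ := by
      have h9 : C₀ * s₁ ^ 2 / δ ≤ Real.log N := hzD.trans h1'
      rw [div_le_iff₀ hδ0] at h9
      rw [div_le_div_iff₀ hL hC₀]
      linarith
    have h9 : Real.exp (-rt N w) ≤ Real.exp (-s₁) + δ / C₀ := by
      have hrw : rt N w ≤ s₁ := by
        unfold rt
        rw [div_le_iff₀ hlw0]
        rw [div_le_iff₀ hs0] at hlw1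
        linarith
      have hrw0 : 0 ≤ rt N w := div_nonneg hL.le hlw0.le
      have h10 : Real.exp (-rt N w) - Real.exp (-s₁) ≤ s₁ - rt N w := by
        have h11 : Real.exp (-s₁) = Real.exp (-rt N w) * Real.exp (-(s₁ - rt N w)) := by
          rw [← Real.exp_add]
          congr 1
          ring
        have h12 : 1 - (s₁ - rt N w) ≤ Real.exp (-(s₁ - rt N w)) := by
          have := Real.add_one_le_exp (-(s₁ - rt N w))
          linarith
        have h13 : Real.exp (-rt N w) ≤ 1 := Real.exp_le_one_iff.2 (by linarith)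
        have h14 : 0 < Real.exp (-rt N w) := Real.exp_pos _
        rw [h11]
        nlinarith
      linarith
    have h15 := mul_le_mul_of_nonneg_left h9 hC₀.le
    rw [mul_add, mul_div_cancel₀ _ hC₀.ne'] at h15
    exact h15
  have hSw : (s₁ / rt N z - C₀ * s₁ * Real.exp (-s₁) - (1 + 2 * s₁) * δ) * (N * V z)
      ≤ (S a N w : ℝ) := by
    refine le_trans ?_ hS1
    have hk0 : 0 ≤ C₀ * Real.exp (-s₁) + 2 * δ := by positivity
    have hu : s₁ / rt N z ≤ s₁ / 2 := div_le_div_of_nonneg_left hs0.le (by norm_num) hr2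
    have h3 : (s₁ / rt N z - C₀ * s₁ * Real.exp (-s₁) - (1 + 2 * s₁) * δ) * V z
        ≤ (1 - C₀ * Real.exp (-rt N w) - δ) * V w := by
      have h4 : (1 - (C₀ * Real.exp (-s₁) + 2 * δ)) * V w
          ≤ (1 - C₀ * Real.exp (-rt N w) - δ) * V w :=
        mul_le_mul_of_nonneg_right (by linarith) hVw.le
      refine le_trans ?_ h4
      have h5 : V w ≤ s₁ * V z := by
        have h6 : V z * (s₁ / rt N z) ≤ V z * (s₁ / 2) := mul_le_mul_of_nonneg_left hu hVz.le
        have h7 : δ * V z ≤ s₁ / 2 * V z := mul_le_mul_of_nonneg_right (by linarith) hVz.le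
        linarith
      have h6 : (C₀ * Real.exp (-s₁) + 2 * δ) * V w
          ≤ (C₀ * Real.exp (-s₁) + 2 * δ) * (s₁ * V z) := mul_le_mul_of_nonneg_left h5 hk0
      have h7 : (s₁ / rt N z - C₀ * s₁ * Real.exp (-s₁) - (1 + 2 * s₁) * δ) * V z
          = V z * (s₁ / rt N z) - δ * V z - (C₀ * Real.exp (-s₁) + 2 * δ) * (s₁ * V z) := by ring
      have h8 : (1 - (C₀ * Real.exp (-s₁) + 2 * δ)) * V w
          = V w - (C₀ * Real.exp (-s₁) + 2 * δ) * V w := by ring
      rw [h7, h8]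
      linarith
    calc (s₁ / rt N z - C₀ * s₁ * Real.exp (-s₁) - (1 + 2 * s₁) * δ) * (N * V z)
        = N * ((s₁ / rt N z - C₀ * s₁ * Real.exp (-s₁) - (1 + 2 * s₁) * δ) * V z) := by ring
      _ ≤ N * ((1 - C₀ * Real.exp (-rt N w) - δ) * V w) := mul_le_mul_of_nonneg_left h3 hN.le
      _ = (1 - C₀ * Real.exp (-rt N w) - δ) * (N * V w) := by ring
  -- the sum of the `T`
  have hzη : 2 / (z : ℝ) ≤ η := by
    rw [div_le_iff₀ hz0]
    rw [div_le_iff₀ hη] at hzE
    linarith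
  have hzM : M + 2 * δ ≤ δ * z := by
    rw [div_le_iff₀ hδ0] at hzF
    linarith
  have hTsum : ((∑ p ∈ (Ico w z).filter Nat.Prime, T a N p : ℕ) : ℝ)
      ≤ (1 / rt N z * (∫ t in (rt N z)..s₁, Fu (t - 1)) + (1 + 3 * s₁) * δ) * (N * V z) := by
    have h3 : ∀ p ∈ (Ico w z).filter Nat.Prime, (T a N p : ℝ)
        ≤ N * (V p / p * Fu (rt N p - 1)) + 3 * δ * (N * (V p / p)) := by
      intro p hp
      have hp' : p ∈ (range z).filter (fun p : ℕ => p.Prime ∧ Real.log N ≤ s₁ * Real.log p) := by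
        rw [hset]
        exact hp
      rw [mem_filter, mem_range] at hp'
      rw [mem_filter, mem_Ico] at hp
      have h4 := B1_T Fu s₁ δ η M hδ0 hM0 z N p a hp.2 hp.1.2 h1 hN0 hp'.2.2
        (fun N' g1 g2 a' => hZU p N' (by omega) g1 g2 a') huc hM' hzη hzM
      linarith
    push_cast
    refine (Finset.sum_le_sum h3).trans ?_
    rw [Finset.sum_add_distrib, ← Finset.mul_sum, ← Finset.mul_sum, ← Finset.mul_sum,
      sum_V w z hwz]
    have h4 : ∑ p ∈ (Ico w z).filter Nat.Prime, V p / p * Fu (rt N p - 1)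
        ≤ V z / rt N z * (∫ t in (rt N z)..s₁, Fu (t - 1)) + δ * V z := by
      have := (abs_le.1 hR1).2
      linarith
    have hu : s₁ / rt N z ≤ s₁ / 2 := div_le_div_of_nonneg_left hs0.le (by norm_num) hr2
    have h5 : V w - V z ≤ s₁ * V z := by
      have h6 : V z * (s₁ / rt N z) ≤ V z * (s₁ / 2) := mul_le_mul_of_nonneg_left hu hVz.le
      have h7 : δ * V z ≤ s₁ / 2 * V z := mul_le_mul_of_nonneg_right (by linarith) hVz.le
      linarith
    have h6 : N * ∑ p ∈ (Ico w z).filter Nat.Prime, V p / p * Fu (rt N p - 1)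
        ≤ N * (V z / rt N z * (∫ t in (rt N z)..s₁, Fu (t - 1)) + δ * V z) :=
      mul_le_mul_of_nonneg_left h4 hN.le
    have h7 : 3 * δ * (N * (V w - V z)) ≤ 3 * δ * (N * (s₁ * V z)) := by
      apply mul_le_mul_of_nonneg_left _ (by positivity)
      exact mul_le_mul_of_nonneg_left h5 hN.le
    have h8 : N * (V z / rt N z * (∫ t in (rt N z)..s₁, Fu (t - 1)) + δ * V z)
          + 3 * δ * (N * (s₁ * V z))
        = (1 / rt N z * (∫ t in (rt N z)..s₁, Fu (t - 1)) + (1 + 3 * s₁) * δ) * (N * V z) := by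
      ring
    linarith
  have hB := buchstab a N w z hwz
  have hB' : (S a N w : ℝ) = S a N z + ((∑ p ∈ (Ico w z).filter Nat.Prime, T a N p : ℕ) : ℝ) := by
    exact_mod_cast hB
  have hint : ∫ t in (rt N z)..s₁, (Fu (t - 1) - 1)
      = (∫ t in (rt N z)..s₁, Fu (t - 1)) - (s₁ - rt N z) := by
    have hc : Continuous (fun t : ℝ => Fu (t - 1)) := hF.comp (continuous_id.sub continuous_const)
    rw [intervalIntegral.integral_sub (hc.intervalIntegrable _ _) intervalIntegrable_const]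
    simp
  rw [hint]
  have hA : (1 - 1 / rt N z * ((∫ t in (rt N z)..s₁, Fu (t - 1)) - (s₁ - rt N z)) -
        C₀ * s₁ * Real.exp (-s₁) - ε) * (N * V z)
      = (s₁ / rt N z - C₀ * s₁ * Real.exp (-s₁) - (1 + 2 * s₁) * δ) * (N * V z)
        - (1 / rt N z * (∫ t in (rt N z)..s₁, Fu (t - 1)) + (1 + 3 * s₁) * δ) * (N * V z)
        - (ε - (2 + 5 * s₁) * δ) * (N * V z) := by
    field_simp
    ring
  rw [hA]
  have hB2 : 0 ≤ (ε - (2 + 5 * s₁) * δ) * (N * V z) := by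
    apply mul_nonneg _ (by positivity)
    have h3 : 2 * δ ≤ s₁ * δ := mul_le_mul_of_nonneg_right hs hδ0.le
    linarith
  linarith

end Pool.Agent.LibLin93
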