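import Pool.Agent.LibLin93.A2
import Pool.Agent.LibLin93.A8
import Pool.Agent.LibLin93.A9

/-! Row LS B2: from a lower bound function to an upper bound function. -/

set_option autoImplicit false

namespace Pool.Agent.LibLin93

open Finset Filter Topology MeasureTheory

theorem B2_real (c R m ε : ℝ) (hm1 : m ≤ R) (hm2 : R - 1 ≤ m) (hc : |c| ≤ ε * R) :
    (c - ε) * R ≤ c * m := by
  have h1 : c * (R - m) ≤ |c| * 1 := by
    refine (le_abs_self _).trans ?_
    rw [abs_mul]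
    refine mul_le_mul_of_nonneg_left ?_ (abs_nonneg _)
    rw [abs_le]
    constructor <;> linarith
  have e1 : (c - ε) * R = c * m + (c * (R - m) - ε * R) := by ring
  rw [e1]
  linarith

theorem B2_T (fl : ℝ → ℝ) (hf : Continuous fl) (hL : LBc fl) (s₁ : ℝ) (ε : ℝ)
    (hε : 0 < ε) : ∃ Z : ℕ, ∀ p N : ℕ, Z ≤ p → p.Prime → p ^ 3 ≤ N →
      Real.log N ≤ s₁ * Real.log p → ∀ a : ℕ → ℕ,
      (fl (rt N p - 1) - ε) * (N / p * V p) ≤ (T a N p : ℝ) := by
  set e : ℝ := ε / 3 with he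
  have he0 : 0 < e := by positivity
  obtain ⟨B, hB⟩ := (isCompact_Icc (a := (0 : ℝ)) (b := s₁ + 1)).exists_bound_of_continuousOn
    (f := fl) hf.continuousOn
  have hu := (isCompact_Icc (a := (0 : ℝ)) (b := s₁ + 1)).uniformContinuousOn_of_continuous
    (f := fl) hf.continuousOn
  obtain ⟨δ, hδ0, hδ⟩ := Metric.uniformContinuousOn_iff.1 hu e he0
  obtain ⟨Z₁, hZ₁⟩ := hL s₁ e he0
  obtain ⟨Z₂, hZ₂⟩ := exists_nat_gt (1 / δ)
  obtain ⟨Z₃, hZ₃⟩ := exists_nat_gt ((|B| + ε) / e)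
  refine ⟨max (max Z₁ Z₂) (max Z₃ 3), fun p N hp hpp hpN hNp a => ?_⟩
  have hp1 : Z₁ ≤ p := ((le_max_left _ _).trans (le_max_left _ _)).trans hp
  have hp2 : Z₂ ≤ p := ((le_max_right _ _).trans (le_max_left _ _)).trans hp
  have hp3 : Z₃ ≤ p := ((le_max_left _ _).trans (le_max_right _ _)).trans hp
  have hp4 : 3 ≤ p := ((le_max_right _ _).trans (le_max_right _ _)).trans hp
  have hpR : (3 : ℝ) ≤ p := by exact_mod_cast hp4
  have hp0 : (0 : ℝ) < p := by linarith
  obtain ⟨a', N', h1, h2, h3⟩ := T_eq a N p hpp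
  set m : ℕ := N / p with hm
  set R : ℝ := (N : ℝ) / p with hR
  have hmp : p ^ 2 ≤ m := by
    rw [hm, Nat.le_div_iff_mul_le (by omega)]
    calc p ^ 2 * p = p ^ 3 := by ring
      _ ≤ N := hpN
  have hmpR : (p : ℝ) ^ 2 ≤ m := by exact_mod_cast hmp
  have hm0 : (0 : ℝ) < m := by nlinarith
  have hmR : (m : ℝ) ≤ R := Nat.cast_div_le
  have hRm : R - 1 ≤ m := by
    have := Nat.lt_div_mul_add (a := N) (b := p) (by omega)
    have h4 : (N : ℝ) < m * p + p := by exact_mod_cast this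
    have h5 : R < m + 1 := by
      rw [hR, div_lt_iff₀ hp0]
      linarith
    linarith
  have hR0 : 0 < R := by linarith
  have hlp : 1 ≤ Real.log p := by
    rw [Real.le_log_iff_exp_le hp0]
    exact (Real.exp_one_lt_d9.le.trans (by norm_num)).trans hpR
  have hlp0 : 0 < Real.log p := by linarith
  have hlR : Real.log R = Real.log N - Real.log p := by
    have hN0 : (N : ℝ) ≠ 0 := by
      intro h0
      rw [hR, h0, zero_div] at hR0
      exact lt_irrefl _ hR0
    rw [hR, Real.log_div hN0 hp0.ne']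
  have hlmR : Real.log m ≤ Real.log R := Real.log_le_log hm0 hmR
  have hlm2 : 2 * Real.log p ≤ Real.log m := by
    have := Real.log_le_log (by positivity) hmpR
    rwa [Real.log_pow] at this
  have hdiff : Real.log R - Real.log m ≤ 1 / p := by
    rw [← Real.log_div hR0.ne' hm0.ne']
    refine (Real.log_le_sub_one_of_pos (by positivity)).trans ?_
    rw [div_sub_one hm0.ne', div_le_div_iff₀ hm0 hp0]
    nlinarith
  have hx : rt N p - 1 = Real.log R / Real.log p := by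
    rw [rt, hlR]
    field_simp
  set x : ℝ := rt N p - 1 with hxdef
  set y : ℝ := rt m p with hy
  have hy' : y = Real.log m / Real.log p := rfl
  have hxy : 0 ≤ x - y ∧ x - y < δ := by
    rw [hx, hy', ← sub_div]
    refine ⟨div_nonneg (by linarith) hlp0.le, ?_⟩
    have h6 : (Real.log R - Real.log m) / Real.log p ≤ (1 / p) / 1 :=
      div_le_div₀ (by positivity) hdiff one_pos hlp
    rw [div_one] at h6
    refine h6.trans_lt ?_
    rw [div_lt_iff₀ hp0]
    have h7 : 1 / δ < p := hZ₂.trans_le (by exact_mod_cast hp2)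
    rw [div_lt_iff₀ hδ0] at h7
    linarith
  have hy2 : 2 ≤ y := by
    rw [hy', le_div_iff₀ hlp0]
    exact hlm2
  have hxs : x ≤ s₁ - 1 := by
    have : rt N p ≤ s₁ := by
      rw [rt, div_le_iff₀ hlp0]
      exact hNp
    rw [hxdef]
    linarith
  have hflx : |fl x| ≤ |B| := by
    have := hB x ⟨by linarith [hxy.1], by linarith⟩
    rw [Real.norm_eq_abs] at this
    exact this.trans (le_abs_self _)
  have hflxy : fl x - e ≤ fl y := by
    have := hδ x ⟨by linarith [hxy.1], by linarith⟩ y ⟨by linarith, by linarith [hxy.1]⟩ (by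
      rw [Real.dist_eq, abs_lt]
      constructor <;> linarith [hxy.1, hxy.2])
    rw [Real.dist_eq, abs_lt] at this
    linarith [this.2]
  have hTS : (S a' m p : ℝ) ≤ T a N p := by
    rw [h3]
    exact_mod_cast S_mono a' m N' p h1
  have hVp := V_pos p
  have hLB := hZ₁ p m hp1 hlm2 (by
    refine hlmR.trans ?_
    rw [hlR]
    linarith) a'
  refine le_trans ?_ (hLB.trans hTS)
  have hcR : |fl x - 2 * e| ≤ e * R := by
    have h8 : |fl x - 2 * e| ≤ |B| + ε := by
      refine (abs_sub _ _).trans ?_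
      rw [abs_of_pos (show 0 < 2 * e by positivity)]
      linarith
    have h9 : (|B| + ε) / e < p := hZ₃.trans_le (by exact_mod_cast hp3)
    rw [div_lt_iff₀ he0] at h9
    have h10 : (p : ℝ) ≤ R := by nlinarith
    have h11 : (p : ℝ) * e ≤ R * e := mul_le_mul_of_nonneg_right h10 he0.le
    linarith
  have hreal := B2_real (fl x - 2 * e) R m e hmR hRm hcR
  have hstep : (fl x - ε) * R ≤ (fl y - e) * m := by
    have h12 : (fl x - 2 * e) * (m : ℝ) ≤ (fl y - e) * m :=
      mul_le_mul_of_nonneg_right (by linarith) hm0.le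
    have h13 : fl x - ε = fl x - 2 * e - e := by rw [he]; ring
    rw [h13]
    exact hreal.trans h12
  calc (fl x - ε) * (R * V p) = (fl x - ε) * R * V p := by ring
    _ ≤ (fl y - e) * m * V p := mul_le_mul_of_nonneg_right hstep hVp.le
    _ = (fl y - e) * (m * V p) := by ring

theorem B2_w (s₁ : ℝ) (hs : 3 ≤ s₁) (Z₁ : ℕ) : ∃ Z : ℕ, ∀ z N : ℕ, Z ≤ z →
    3 * Real.log z ≤ Real.log N → Real.log N ≤ s₁ * Real.log z →
    ∃ w : ℕ, Z₁ ≤ w ∧ 2 ≤ w ∧ w ≤ z ∧ z ^ 3 ≤ N ∧ rt N w ≤ s₁ ∧ s₁ - 1 / 2 ≤ rt N w ∧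
      (range z).filter (fun p : ℕ => p.Prime ∧ Real.log N ≤ s₁ * Real.log p) =
        (Ico w z).filter Nat.Prime := by
  obtain ⟨Z₂, hZ₂⟩ := exists_nat_ge (Real.exp (2 * s₁ ^ 2 * Real.log 2))
  obtain ⟨Z₃, hZ₃⟩ := exists_nat_ge (Real.exp (s₁ * Real.log (max Z₁ 2 : ℕ)))
  refine ⟨max (max Z₂ Z₃) 2, fun z N hz hzN hNz => ?_⟩
  have hz2 : Z₂ ≤ z := ((le_max_left _ _).trans (le_max_left _ _)).trans hz
  have hz3 : Z₃ ≤ z := ((le_max_right _ _).trans (le_max_left _ _)).trans hz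
  have hz4 : 2 ≤ z := (le_max_right _ _).trans hz
  have hzR : (2 : ℝ) ≤ z := by exact_mod_cast hz4
  have hz0 : (0 : ℝ) < z := by linarith
  have hs0 : 0 < s₁ := by linarith
  have hl2 : 0 < Real.log 2 := Real.log_pos (by norm_num)
  have hlz : 0 < Real.log z := Real.log_pos (by linarith)
  set L : ℝ := Real.log N with hLdef
  have hL0 : 0 < L := by linarith
  have hLz : Real.log z ≤ L := by linarith
  have hL2 : 2 * s₁ ^ 2 * Real.log 2 ≤ L := by
    refine le_trans ?_ hLz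
    rw [Real.le_log_iff_exp_le hz0]
    exact hZ₂.trans (by exact_mod_cast hz2)
  have hL3 : s₁ * Real.log (max Z₁ 2 : ℕ) ≤ L := by
    refine le_trans ?_ hLz
    rw [Real.le_log_iff_exp_le hz0]
    exact hZ₃.trans (by exact_mod_cast hz3)
  set w : ℕ := ⌈Real.exp (L / s₁)⌉₊ with hw
  have hwle : Real.exp (L / s₁) ≤ w := Nat.le_ceil _
  have hwlt : (w : ℝ) < Real.exp (L / s₁) + 1 := Nat.ceil_lt_add_one (Real.exp_pos _).le
  have hiff : ∀ n : ℕ, 0 < n → (L ≤ s₁ * Real.log n ↔ w ≤ n) := by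
    intro n hn
    have hn0 : (0 : ℝ) < n := by exact_mod_cast hn
    rw [hw, Nat.ceil_le, ← Real.le_log_iff_exp_le hn0, div_le_iff₀ hs0, mul_comm s₁]
  have hM : max Z₁ 2 ≤ w := by
    have hM0 : (0 : ℝ) < (max Z₁ 2 : ℕ) := by
      exact_mod_cast (show 0 < max Z₁ 2 from lt_of_lt_of_le (by norm_num) (le_max_right _ _))
    have h1 : Real.log (max Z₁ 2 : ℕ) ≤ L / s₁ := by
      rw [le_div_iff₀ hs0]
      linarith
    have h2 : ((max Z₁ 2 : ℕ) : ℝ) ≤ w := by
      refine le_trans ?_ hwle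
      rw [← Real.exp_log hM0]
      exact Real.exp_le_exp.2 h1
    exact_mod_cast h2
  have hw1 : Z₁ ≤ w := (le_max_left _ _).trans hM
  have hw2 : 2 ≤ w := (le_max_right _ _).trans hM
  have hwz : w ≤ z := (hiff z (by omega)).1 hNz
  have hwR : (2 : ℝ) ≤ w := by exact_mod_cast hw2
  have hlw : 0 < Real.log w := Real.log_pos (by linarith)
  have hLw : L ≤ s₁ * Real.log w := (hiff w (by omega)).2 le_rfl
  have hlw2 : Real.log w ≤ L / s₁ + Real.log 2 := by
    have h1 : (1 : ℝ) ≤ Real.exp (L / s₁) := Real.one_le_exp (by positivity)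
    have h2 : (w : ℝ) ≤ Real.exp (L / s₁) * 2 := by linarith
    have h3 := Real.log_le_log (by linarith) h2
    rwa [Real.log_mul (Real.exp_pos _).ne' (by norm_num), Real.log_exp] at h3
  refine ⟨w, hw1, hw2, hwz, ?_, ?_, ?_, ?_⟩
  · have hN0 : (0 : ℝ) < N := by
      by_contra hcon
      have h0 : (N : ℝ) = 0 := le_antisymm (not_lt.1 hcon) (Nat.cast_nonneg _)
      rw [hLdef, h0, Real.log_zero] at hL0
      exact lt_irrefl _ hL0
    have h1 : Real.log ((z : ℝ) ^ 3) ≤ Real.log N := by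
      rw [Real.log_pow]
      exact hzN
    have h2 := (Real.log_le_log_iff (by positivity) hN0).1 h1
    exact_mod_cast h2
  · rw [rt, div_le_iff₀ hlw]
    exact hLw
  · rw [rt, le_div_iff₀ hlw]
    have h1 : (s₁ - 1 / 2) * Real.log w ≤ (s₁ - 1 / 2) * (L / s₁ + Real.log 2) :=
      mul_le_mul_of_nonneg_left hlw2 (by linarith)
    have h2 : (s₁ - 1 / 2) * (L / s₁ + Real.log 2) =
        L - L / (2 * s₁) + (s₁ - 1 / 2) * Real.log 2 := by
      field_simp
    have h3 : s₁ * Real.log 2 ≤ L / (2 * s₁) := by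
      rw [le_div_iff₀ (by positivity)]
      calc s₁ * Real.log 2 * (2 * s₁) = 2 * s₁ ^ 2 * Real.log 2 := by ring
        _ ≤ L := hL2
    have h4 : (s₁ - 1 / 2) * Real.log 2 ≤ s₁ * Real.log 2 :=
      mul_le_mul_of_nonneg_right (by linarith) hl2.le
    linarith
  · ext p
    simp only [mem_filter, mem_range, mem_Ico]
    constructor
    · rintro ⟨h1, h2, h3⟩
      exact ⟨⟨(hiff p h2.pos).1 h3, h1⟩, h2⟩
    · rintro ⟨⟨h1, h2⟩, h3⟩
      exact ⟨h2, h3, (hiff p h3.pos).2 h1⟩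

/-- final numerical inequality -/
theorem B2_num (s s₁ C₀ E e ε x : ℝ) (hs1 : 3 ≤ s) (hss : s ≤ s₁) (hC₀ : 0 < C₀) (hE : 0 < E)
    (he : 0 < e) (he1 : e ≤ 1 / 10) (hε : e * (10 * s₁ + 10) ≤ ε) (hx : x ≤ 2 * E) :
    s₁ / s * (1 + e) * (1 + C₀ * x + e) ≤ s₁ / s + C₀ * s₁ * E + ε - e * (1 + 3 * s₁) := by
  have hs0 : 0 < s := by linarith
  have hs₁ : 0 < s₁ := by linarith
  have hr0 : 0 < s₁ / s := by positivity
  have hr : s₁ / s ≤ s₁ / 3 := div_le_div_of_nonneg_left hs₁.le (by norm_num) hs1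
  have h1 : (1 + e) * (1 + C₀ * x + e) ≤ (1 + e) * (1 + C₀ * (2 * E) + e) := by
    refine mul_le_mul_of_nonneg_left ?_ (by linarith)
    have := mul_le_mul_of_nonneg_left hx hC₀.le
    linarith
  have h2 : (1 + e) * (1 + C₀ * (2 * E) + e) ≤ 1 + 3 * (C₀ * E) + 3 * e := by
    have hCE : 0 < C₀ * E := by positivity
    have h3 : e * (C₀ * E) ≤ 1 / 10 * (C₀ * E) := mul_le_mul_of_nonneg_right he1 hCE.le
    have h4 : e * e ≤ 1 / 10 * e := mul_le_mul_of_nonneg_right he1 he.le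
    have h5 : (1 + e) * (1 + C₀ * (2 * E) + e) =
        1 + 2 * (C₀ * E) + 2 * (e * (C₀ * E)) + 2 * e + e * e := by ring
    rw [h5]
    linarith
  have h6 : s₁ / s * (1 + e) * (1 + C₀ * x + e) ≤ s₁ / s * (1 + 3 * (C₀ * E) + 3 * e) := by
    rw [mul_assoc]
    exact mul_le_mul_of_nonneg_left (h1.trans h2) hr0.le
  have h7 : s₁ / s * (3 * (C₀ * E) + 3 * e) ≤ s₁ / 3 * (3 * (C₀ * E) + 3 * e) :=
    mul_le_mul_of_nonneg_right hr (by positivity)
  have h8 : s₁ / s * (1 + 3 * (C₀ * E) + 3 * e) = s₁ / s + s₁ / s * (3 * (C₀ * E) + 3 * e) := by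
    ring
  have h9 : s₁ / 3 * (3 * (C₀ * E) + 3 * e) = C₀ * s₁ * E + s₁ * e := by ring
  have h10 : e * (10 * s₁ + 10) = 10 * (s₁ * e) + 10 * e := by ring
  have h11 : e * (1 + 3 * s₁) = e + 3 * (s₁ * e) := by ring
  have h12 : 0 < s₁ * e := by positivity
  linarith

/-- PROOF. As B1 (`step_lower`, read its proof text), with the inequalities reversed:
`s = rt N z ∈ [3, s₁]`, `w` the least number with `log N ≤ s₁ log w`,
`S a N z = S a N w - ∑_{p ∈ Ico w z} T a N p`,
`S a N w ≤ (1 + C₀ exp (-rt N w) + ε') N V w ≤ N V z ((s₁/s)(1 + C₀ exp (-s₁)) + ε'')`, and for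
`p ∈ Ico w z` prime `T a N p = S a' N' p ≥ S a' (N / p) p` (`N / p` in `ℕ`). As `p < z` and
`z³ ≤ N`, the real number `N/p` is `> p²`, so `N / p ≥ p²` in `ℕ` and `2 ≤ rt (N/p) p`; and
`|rt (N / p) p - (rt N p - 1)|` is uniformly small; so by `hL` and uniform continuity of `fl`
`T a N p ≥ (fl (rt N p - 1) - ε') (N/p) V p`. With `riemann`, `φ t = fl (t - 1)`:
`∑ T ≥ N V z ((1/s) ∫_s^{s₁} fl (t-1) dt - ε'')`, and
`(s₁/s)(1 + C₀ exp (-s₁)) - (1/s) ∫ fl (t-1) = 1 + (1/s) ∫ (1 - fl (t-1)) + (s₁/s) C₀ exp (-s₁)`. -/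
theorem step_upper (fl : ℝ → ℝ) (hf : Continuous fl) (hL : LBc fl) (C₀ : ℝ) (hC₀ : 0 < C₀)
    (h0 : ∀ ε : ℝ, 0 < ε → ∃ Z : ℕ, ∀ z N : ℕ, Z ≤ z → z ≤ N → ∀ a : ℕ → ℕ,
      (S a N z : ℝ) ≤ (1 + C₀ * Real.exp (-rt N z) + ε) * (N * V z))
    (s₁ : ℝ) (hs : 3 ≤ s₁) (ε : ℝ) (hε : 0 < ε) :
    ∃ Z : ℕ, ∀ z N : ℕ, Z ≤ z → 3 * Real.log z ≤ Real.log N → Real.log N ≤ s₁ * Real.log z →
      ∀ a : ℕ → ℕ, (S a N z : ℝ) ≤ (1 + (1 / rt N z) * (∫ t in (rt N z)..s₁, (1 - fl (t - 1))) +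
        C₀ * s₁ * Real.exp (-s₁) + ε) * (N * V z) := by
  set e : ℝ := min (1 / 10) (ε / (10 * s₁ + 10)) with he
  have hs10 : 0 < 10 * s₁ + 10 := by linarith
  have he0 : 0 < e := lt_min (by norm_num) (by positivity)
  have he1 : e ≤ 1 / 10 := min_le_left _ _
  have heε : e * (10 * s₁ + 10) ≤ ε := by
    have : e ≤ ε / (10 * s₁ + 10) := min_le_right _ _
    rwa [le_div_iff₀ hs10] at this
  obtain ⟨Z₁, hZ₁⟩ := B2_T fl hf hL s₁ e he0
  obtain ⟨Z₂, hZ₂⟩ := h0 e he0
  obtain ⟨Z₃, -, hZ₃⟩ := V_ratio e he0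
  obtain ⟨Z₄, hZ₄⟩ := riemann (fun t => fl (t - 1)) (hf.comp (continuous_id.sub continuous_const))
    s₁ (by linarith) e he0
  obtain ⟨Z₅, hZ₅⟩ := B2_w s₁ hs (max Z₁ (max Z₂ Z₃))
  refine ⟨max (max Z₄ Z₅) (max Z₃ 2), fun z N hz hzN hNz a => ?_⟩
  have hz4 : Z₄ ≤ z := ((le_max_left _ _).trans (le_max_left _ _)).trans hz
  have hz5 : Z₅ ≤ z := ((le_max_right _ _).trans (le_max_left _ _)).trans hz
  have hz3 : Z₃ ≤ z := ((le_max_left _ _).trans (le_max_right _ _)).trans hz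
  have hz2 : 2 ≤ z := ((le_max_right _ _).trans (le_max_right _ _)).trans hz
  obtain ⟨w, hwM, hw2, hwz, hzN3, hrw1, hrw2, hset⟩ := hZ₅ z N hz5 hzN hNz
  have hw1 : Z₁ ≤ w := (le_max_left _ _).trans hwM
  have hw3 : Z₂ ≤ w := ((le_max_left _ _).trans (le_max_right _ _)).trans hwM
  have hw4 : Z₃ ≤ w := ((le_max_right _ _).trans (le_max_right _ _)).trans hwM
  have hzR : (2 : ℝ) ≤ z := by exact_mod_cast hz2
  have hwR : (2 : ℝ) ≤ w := by exact_mod_cast hw2
  have hlz : 0 < Real.log z := Real.log_pos (by linarith)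
  have hlw : 0 < Real.log w := Real.log_pos (by linarith)
  have hVz := V_pos z
  have hVw := V_pos w
  have hN0 : (0 : ℝ) ≤ N := Nat.cast_nonneg _
  set s : ℝ := rt N z with hsdef
  have hs' : s = Real.log N / Real.log z := rfl
  have hs3 : 3 ≤ s := by
    rw [hs', le_div_iff₀ hlz]
    exact hzN
  have hss : s ≤ s₁ := by
    rw [hs', div_le_iff₀ hlz]
    exact hNz
  have hs0 : 0 < s := by linarith
  -- `V w`
  have hVwz : V w ≤ V z * (s₁ / s * (1 + e)) := by
    have h1 := (abs_le.1 (hZ₃ w z hw4 hz3)).2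
    have h2 : V w * Real.log w ≤ (1 + e) * (V z * Real.log z) := by
      rw [← div_le_iff₀ (by positivity)]
      linarith
    have h3 : V w * (Real.log N / rt N w) ≤ (1 + e) * (V z * (Real.log N / s)) := by
      have hN : 0 < Real.log N := by linarith
      have e1 : Real.log N / rt N w = Real.log w := by
        rw [rt]
        field_simp
      have e2 : Real.log N / s = Real.log z := by
        rw [hs']
        field_simp
      rw [e1, e2]
      exact h2
    have hN : 0 < Real.log N := by linarith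
    have hrw0 : 0 < rt N w := by linarith
    have h4 : V w ≤ (1 + e) * V z * (rt N w / s) := by
      have h5 : V w * (Real.log N / rt N w) * (rt N w / Real.log N) ≤
          (1 + e) * (V z * (Real.log N / s)) * (rt N w / Real.log N) :=
        mul_le_mul_of_nonneg_right h3 (by positivity)
      have e3 : V w * (Real.log N / rt N w) * (rt N w / Real.log N) = V w := by
        field_simp
      have e4 : (1 + e) * (V z * (Real.log N / s)) * (rt N w / Real.log N) =
          (1 + e) * V z * (rt N w / s) := by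
        field_simp
      rwa [e3, e4] at h5
    refine h4.trans ?_
    have h6 : rt N w / s ≤ s₁ / s := div_le_div_of_nonneg_right hrw1 hs0.le
    calc (1 + e) * V z * (rt N w / s) ≤ (1 + e) * V z * (s₁ / s) :=
          mul_le_mul_of_nonneg_left h6 (by positivity)
      _ = V z * (s₁ / s * (1 + e)) := by ring
  -- the first term
  have hwN : w ≤ N := by
    refine hwz.trans ((Nat.le_self_pow (by norm_num) z).trans hzN3)
  have hexp : Real.exp (-rt N w) ≤ 2 * Real.exp (-s₁) := by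
    have h1 : Real.exp (-rt N w) ≤ Real.exp (1 / 2 + -s₁) := Real.exp_le_exp.2 (by linarith)
    rw [Real.exp_add] at h1
    refine h1.trans (mul_le_mul_of_nonneg_right ?_ (Real.exp_pos _).le)
    have h2 : Real.exp (1 / 2) ^ 2 ≤ 2 ^ 2 := by
      rw [← Real.exp_nat_mul]
      have : Real.exp 1 < 2.7182818286 := Real.exp_one_lt_d9
      norm_num at this ⊢
      linarith
    exact (pow_le_pow_iff_left₀ (Real.exp_pos _).le (by norm_num) (by norm_num)).1 h2
  have hSw : (S a N w : ℝ) ≤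
      (s₁ / s * (1 + e) * (1 + C₀ * Real.exp (-rt N w) + e)) * (N * V z) := by
    refine (hZ₂ w N hw3 hwN a).trans ?_
    have hpos : 0 < 1 + C₀ * Real.exp (-rt N w) + e := by
      have := Real.exp_pos (-rt N w)
      positivity
    calc (1 + C₀ * Real.exp (-rt N w) + e) * (N * V w)
        ≤ (1 + C₀ * Real.exp (-rt N w) + e) * (N * (V z * (s₁ / s * (1 + e)))) := by
          refine mul_le_mul_of_nonneg_left (mul_le_mul_of_nonneg_left hVwz hN0) hpos.le
      _ = _ := by ring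
  -- the sum over primes
  have hR := (abs_le.1 (hZ₄ z N hz4 (by linarith) hNz)).1
  rw [hset] at hR
  have hsumV := sum_V w z hwz
  have hTsum : (N : ℝ) * (V z / s * (∫ t in s..s₁, fl (t - 1)) - e * V z - e * V w) ≤
      ∑ p ∈ (Ico w z).filter Nat.Prime, (T a N p : ℝ) := by
    have h1 : ∑ p ∈ (Ico w z).filter Nat.Prime, (fl (rt N p - 1) - e) * (N / p * V p) ≤
        ∑ p ∈ (Ico w z).filter Nat.Prime, (T a N p : ℝ) := by
      refine sum_le_sum fun p hp => ?_
      rw [mem_filter, mem_Ico] at hp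
      refine hZ₁ p N (hw1.trans hp.1.1) hp.2 ?_ ?_ a
      · exact (Nat.pow_le_pow_left hp.1.2.le 3).trans hzN3
      · have hlwp : Real.log w ≤ Real.log p := by
          refine Real.log_le_log (by linarith) ?_
          exact_mod_cast hp.1.1
        have hNw : Real.log N ≤ s₁ * Real.log w := by
          have := hrw1
          rw [rt, div_le_iff₀ hlw] at this
          exact this
        nlinarith
    have h2 : ∑ p ∈ (Ico w z).filter Nat.Prime, (fl (rt N p - 1) - e) * (N / p * V p) =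
        N * (∑ p ∈ (Ico w z).filter Nat.Prime, V p / p * fl (rt N p - 1)) -
          N * (e * ∑ p ∈ (Ico w z).filter Nat.Prime, V p / p) := by
      rw [mul_sum, mul_sum, mul_sum, ← sum_sub_distrib]
      refine sum_congr rfl fun p _ => ?_
      ring
    rw [h2, hsumV] at h1
    refine le_trans ?_ h1
    rw [← mul_sub]
    refine mul_le_mul_of_nonneg_left ?_ hN0
    have h3 : e * (V w - V z) ≤ e * V w := mul_le_mul_of_nonneg_left (by linarith) he0.le
    have h4 : -(e * V z) ≤ ∑ p ∈ (Ico w z).filter Nat.Prime, V p / p * fl (rt N p - 1) -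
      V z / s * ∫ t in s..s₁, fl (t - 1) := hR
    linarith
  have hB := buchstab a N w z hwz
  have hB' : (S a N z : ℝ) = S a N w - ∑ p ∈ (Ico w z).filter Nat.Prime, (T a N p : ℝ) := by
    rw [hB]
    push_cast
    ring
  -- the integral
  have hint : ∫ t in s..s₁, (1 - fl (t - 1)) = (s₁ - s) - ∫ t in s..s₁, fl (t - 1) := by
    rw [intervalIntegral.integral_sub]
    · simp
    · exact intervalIntegrable_const
    · exact (hf.comp (continuous_id.sub continuous_const)).intervalIntegrable _ _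
  set I : ℝ := ∫ t in s..s₁, fl (t - 1) with hI
  rw [hint]
  have hnum := B2_num s s₁ C₀ (Real.exp (-s₁)) e ε (Real.exp (-rt N w)) hs3 hss hC₀
    (Real.exp_pos _) he0 he1 heε hexp
  have hVw' : e * V w ≤ e * (s₁ * V z) := by
    refine mul_le_mul_of_nonneg_left (hVwz.trans ?_) he0.le
    rw [mul_comm]
    refine mul_le_mul_of_nonneg_right ?_ hVz.le
    have h1 : s₁ / s ≤ s₁ / 3 := div_le_div_of_nonneg_left (by linarith) (by norm_num) hs3
    have h2 : s₁ / s * (1 + e) ≤ s₁ / 3 * (1 + 1 / 10) :=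
      mul_le_mul h1 (by linarith) (by linarith) (by linarith)
    linarith
  rw [hB']
  have hNV : 0 ≤ (N : ℝ) * V z := by positivity
  have h5 := mul_le_mul_of_nonneg_right hnum hNV
  have h6 : (N : ℝ) * (e * V w) ≤ N * (e * (s₁ * V z)) := mul_le_mul_of_nonneg_left hVw' hN0
  have h7 : (1 + 1 / s * (s₁ - s - I) + C₀ * s₁ * Real.exp (-s₁) + ε) * (N * V z) =
      (s₁ / s + C₀ * s₁ * Real.exp (-s₁) + ε - e * (1 + 3 * s₁)) * (N * V z) -
        N * (V z / s * I - e * V z - e * (s₁ * V z)) + 2 * (e * s₁) * (N * V z) := by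
    field_simp
    ring
  have h8 : 0 ≤ 2 * (e * s₁) * ((N : ℝ) * V z) := by positivity
  rw [h7]
  have h9 : (N : ℝ) * (V z / s * I - e * V z - e * (s₁ * V z)) ≤
      N * (V z / s * I - e * V z - e * V w) := by
    refine mul_le_mul_of_nonneg_left ?_ hN0
    linarith
  linarith

end Pool.Agent.LibLin93
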