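import Pool.Agent.LibLin93.A1
import Pool.Agent.LibLin93.A5

/-! Row LS B3: the range `1 ≤ s ≤ 3`. -/

set_option autoImplicit false

namespace Pool.Agent.LibLin93

open Finset Filter Topology MeasureTheory

theorem B3_aux (u η δ A e ε : ℝ) (hu3 : 3 ≤ u) (huδ : u ≤ 3 + δ) (h0 : 0 < δ) (h1 : δ ≤ 1)
    (hη1 : -δ ≤ η) (hη2 : η ≤ δ) (he : e = ε / 32) (hε : 0 < ε) (hδA : δ * (|A| + 1) ≤ ε / 10) :
    (A + 2 * e) * (u * (1 + η)) ≤ 3 * A + ε := by
  have hη0 : 0 ≤ 1 + η := by linarith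
  have a1 : u * (1 + η) ≤ (3 + δ) * (1 + δ) :=
    mul_le_mul huδ (by linarith) hη0 (by linarith)
  have a2 : 3 * (1 + η) ≤ u * (1 + η) := mul_le_mul_of_nonneg_right hu3 hη0
  have a3 : δ * δ ≤ δ * 1 := mul_le_mul_of_nonneg_left h1 h0.le
  have a4 : u * (1 + η) ≤ 3 + 5 * δ := by linarith
  have hw : |u * (1 + η) - 3| ≤ 5 * δ := by
    rw [abs_le]
    constructor <;> linarith
  have hw3 : A * (u * (1 + η) - 3) ≤ |A| * (5 * δ) := by
    refine (le_abs_self _).trans ?_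
    rw [abs_mul]
    exact mul_le_mul_of_nonneg_left hw (abs_nonneg _)
  have hw4 : 2 * e * (u * (1 + η)) ≤ 2 * e * 8 :=
    mul_le_mul_of_nonneg_left (by linarith) (by rw [he]; positivity)
  have e1 : (A + 2 * e) * (u * (1 + η)) =
      3 * A + A * (u * (1 + η) - 3) + 2 * e * (u * (1 + η)) := by ring
  have e2 : |A| * (5 * δ) = 5 * (δ * (|A| + 1)) - 5 * δ := by ring
  rw [e1]
  rw [e2] at hw3
  linarith

/-- PROOF. `s = rt N z ∈ [1, 3]`. Let `z' = ⌊exp (log N / 3)⌋`: `z'^3 ≤ N`, `z' ≤ z` (as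
`log N ≤ 3 log z`), `log z' = log N / 3 + o(1)` and so `3 ≤ rt N z' ≤ 4`, `rt N z' → 3` uniformly as
`z → ∞`. By `S_anti`, `S a N z ≤ S a N z' ≤ (Φ (rt N z') + ε') N V z' ≤ (Φ 3 + 2 ε') N V z'`
(continuity) and `V z' = V z (log z / log z') (1 + o(1)) = V z (3 / s)(1 + o(1))` by `V_ratio`. -/
theorem step_short (Φ : ℝ → ℝ) (hΦ : Continuous Φ)
    (h : ∀ ε : ℝ, 0 < ε → ∃ Z : ℕ, ∀ z N : ℕ, Z ≤ z → 3 * Real.log z ≤ Real.log N →
      Real.log N ≤ 4 * Real.log z → ∀ a : ℕ → ℕ, (S a N z : ℝ) ≤ (Φ (rt N z) + ε) * (N * V z))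
    (ε : ℝ) (hε : 0 < ε) :
    ∃ Z : ℕ, ∀ z N : ℕ, Z ≤ z → Real.log z ≤ Real.log N → Real.log N ≤ 3 * Real.log z →
      ∀ a : ℕ → ℕ, (S a N z : ℝ) ≤ (3 * Φ 3 / rt N z + ε) * (N * V z) := by
  set e : ℝ := ε / 32 with he
  have he0 : 0 < e := by positivity
  set A : ℝ := Φ 3 with hA
  obtain ⟨δ₂, hδ₂, hc⟩ := Metric.continuous_iff.1 hΦ 3 e he0
  set δ : ℝ := min (min 1 (ε / (10 * (|A| + 1)))) (δ₂ / 2) with hδ
  have hA1 : 0 < |A| + 1 := by positivity
  have hδ0 : 0 < δ := by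
    rw [hδ]
    exact lt_min (lt_min one_pos (by positivity)) (by positivity)
  have hδ1 : δ ≤ 1 := (min_le_left _ _).trans (min_le_left _ _)
  have hδA : δ * (|A| + 1) ≤ ε / 10 := by
    have : δ ≤ ε / (10 * (|A| + 1)) := (min_le_left _ _).trans (min_le_right _ _)
    calc δ * (|A| + 1) ≤ ε / (10 * (|A| + 1)) * (|A| + 1) :=
          mul_le_mul_of_nonneg_right this hA1.le
      _ = ε / 10 := by field_simp
  have hδδ : δ < δ₂ := by
    have : δ ≤ δ₂ / 2 := min_le_right _ _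
    linarith
  obtain ⟨Z₁, hZ₁⟩ := h e he0
  obtain ⟨Z₂, hZ₂2, hZ₂⟩ := V_ratio δ hδ0
  obtain ⟨Z₃, hZ₃⟩ := exists_nat_ge (Real.exp (3 * Real.log 2 / δ))
  set Z : ℕ := max (max Z₁ Z₂) Z₃ with hZdef
  have hZ1 : Z₁ ≤ Z := (le_max_left _ _).trans (le_max_left _ _)
  have hZ2 : Z₂ ≤ Z := (le_max_right _ _).trans (le_max_left _ _)
  have hZ3 : Z₃ ≤ Z := le_max_right _ _
  have hZpos : (2 : ℝ) ≤ Z := by exact_mod_cast hZ₂2.trans hZ2
  refine ⟨Z ^ 3, fun z N hz hzN hNz a => ?_⟩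
  have hZle : Z ≤ Z ^ 3 := Nat.le_self_pow (by norm_num) Z
  have hzpos : (0 : ℝ) < z := by
    have : (Z : ℝ) ≤ z := by exact_mod_cast hZle.trans hz
    linarith
  have hlogZ : 3 * Real.log Z ≤ Real.log z := by
    have h1 : ((Z : ℝ) ^ 3) ≤ z := by exact_mod_cast hz
    have h2 := Real.log_le_log (by positivity) h1
    rwa [Real.log_pow] at h2
  set L : ℝ := Real.log N with hL
  set z' : ℕ := ⌊Real.exp (L / 3)⌋₊ with hz'
  have hexp : (Z : ℝ) ≤ Real.exp (L / 3) := by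
    rw [← Real.exp_log (show (0 : ℝ) < Z by linarith)]
    exact Real.exp_le_exp.2 (by linarith)
  have hZz' : Z ≤ z' := Nat.le_floor hexp
  have hz'2 : (2 : ℝ) ≤ z' := hZpos.trans (by exact_mod_cast hZz')
  have h1 : (z' : ℝ) ≤ Real.exp (L / 3) := Nat.floor_le (Real.exp_pos _).le
  have h2 : Real.exp (L / 3) < z' + 1 := Nat.lt_floor_add_one _
  have h3 : Real.log z' ≤ L / 3 := by
    have := Real.log_le_log (by linarith) h1
    rwa [Real.log_exp] at this
  have h4 : L / 3 ≤ Real.log 2 + Real.log z' := by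
    rw [← Real.log_mul (by norm_num) (by linarith), ← Real.log_exp (L / 3)]
    exact Real.log_le_log (Real.exp_pos _) (by linarith)
  have hlz' : 3 * Real.log 2 / δ ≤ Real.log z' := by
    rw [← Real.log_exp (3 * Real.log 2 / δ)]
    refine Real.log_le_log (Real.exp_pos _) (hZ₃.trans ?_)
    exact_mod_cast hZ3.trans hZz'
  have hl2 : 0 < Real.log 2 := Real.log_pos (by norm_num)
  have hlz'0 : 0 < Real.log z' := Real.log_pos (by linarith)
  have h5 : 3 * Real.log 2 ≤ δ * Real.log z' := by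
    rw [div_le_iff₀ hδ0] at hlz'
    linarith
  have hzz' : z' ≤ z := by
    have h6 : Real.log z' ≤ Real.log z := by linarith
    have h7 := (Real.log_le_log_iff (by linarith) hzpos).1 h6
    exact_mod_cast h7
  have hz2 : (2 : ℝ) ≤ z := hz'2.trans (by exact_mod_cast hzz')
  have hlz0 : 0 < Real.log z := Real.log_pos (by linarith)
  have hL0 : 0 < L := by linarith
  have hmain := hZ₁ z' N (hZ1.trans hZz') (by linarith) (by nlinarith) a
  set u : ℝ := rt N z' with hu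
  have hu' : u = L / Real.log z' := rfl
  have hu3 : 3 ≤ u := by
    rw [hu', le_div_iff₀ hlz'0]
    linarith
  have huδ : u ≤ 3 + δ := by
    rw [hu', div_le_iff₀ hlz'0]
    nlinarith
  have hΦu : Φ u ≤ A + e := by
    have h6 := hc u (by
      rw [Real.dist_eq, abs_lt]
      constructor <;> linarith)
    rw [Real.dist_eq, abs_lt] at h6
    linarith [h6.2]
  set s : ℝ := rt N z with hs
  have hs' : s = L / Real.log z := rfl
  have hs1 : 1 ≤ s := by
    rw [hs', le_div_iff₀ hlz0]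
    linarith
  have hVz := V_pos z
  have hVz' := V_pos z'
  have hr := hZ₂ z' z (hZ2.trans hZz') ((hZ2.trans hZz').trans hzz')
  set η : ℝ := V z' * Real.log z' / (V z * Real.log z) - 1 with hη
  have hVeq : V z' = V z * (u / s) * (1 + η) := by
    rw [hη, hu', hs']
    field_simp
    ring
  obtain ⟨hη1, hη2⟩ := abs_le.1 hr
  have hS : (S a N z : ℝ) ≤ (A + 2 * e) * (N * V z') := by
    refine (Nat.cast_le.2 (S_anti a N z' z hzz')).trans (hmain.trans ?_)
    refine mul_le_mul_of_nonneg_right (by linarith) (by positivity)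
  refine hS.trans ?_
  have hkey : (A + 2 * e) * (u * (1 + η)) ≤ 3 * A + ε :=
    B3_aux u η δ A e ε hu3 huδ hδ0 hδ1 hη1 hη2 he hε hδA
  have hs0 : 0 < s := by linarith
  have h8 : (A + 2 * e) * (N * V z') = (A + 2 * e) * (u * (1 + η)) / s * (N * V z) := by
    rw [hVeq]
    field_simp
  rw [h8]
  refine mul_le_mul_of_nonneg_right ?_ (by positivity)
  have h9 : (A + 2 * e) * (u * (1 + η)) / s ≤ (3 * A + ε) / s :=
    div_le_div_of_nonneg_right hkey hs0.le
  have h10 : ε / s ≤ ε := div_le_self hε.le hs1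
  rw [add_div] at h9
  linarith

end Pool.Agent.LibLin93
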