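import Pool.Agent.LibLin93.Defs

/-! Row LS C1: the function `ρ(s-1)/s`, `ρ` the function of Dickman. -/

set_option autoImplicit false

namespace Pool.Agent.LibLin93

open Finset Filter Topology MeasureTheory

/-- iterates defining the function of row C1 -/
noncomputable def qseq : ℕ → ℝ → ℝ
  | 0 => fun u => 1 / u
  | (n+1) => fun u => if u ≤ 2 then 1 / u else (1 - ∫ t in (1:ℝ)..(u-1), qseq n t) / u

/-- the function of row C1, before the extension -/
noncomputable def qfun (u : ℝ) : ℝ := qseq (Nat.ceil u) u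

lemma qseq_zero (u : ℝ) : qseq 0 u = 1 / u := rfl

lemma qseq_succ (n : ℕ) (u : ℝ) :
    qseq (n+1) u = if u ≤ 2 then 1 / u else (1 - ∫ t in (1:ℝ)..(u-1), qseq n t) / u := rfl

lemma qseq_of_le (n : ℕ) {u : ℝ} (h : u ≤ 2) : qseq n u = 1 / u := by
  cases n with
  | zero => rfl
  | succ n => rw [qseq_succ, if_pos h]

lemma qseq_stable (n : ℕ) : ∀ u : ℝ, u ≤ n + 2 → qseq (n+1) u = qseq n u := by
  induction n with
  | zero =>
    intro u hu
    rw [qseq_of_le 1 (by simpa using hu), qseq_of_le 0 (by simpa using hu)]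
  | succ n ih =>
    intro u hu
    rw [qseq_succ, qseq_succ]
    split_ifs with h
    · rfl
    · congr 2
      apply intervalIntegral.integral_congr
      intro t ht
      rw [Set.uIcc_of_le (by push Not at h; linarith)] at ht
      apply ih
      push_cast at hu
      linarith [ht.2]

lemma qseq_stable' (n k : ℕ) (u : ℝ) (hu : u ≤ n + 2) : qseq (n+k) u = qseq n u := by
  induction k with
  | zero => rfl
  | succ k ih =>
    rw [← add_assoc, qseq_stable, ih]
    push_cast
    have : (0:ℝ) ≤ k := Nat.cast_nonneg k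
    linarith

lemma qfun_eq_qseq (n : ℕ) {u : ℝ} (hu : u ≤ n + 2) : qfun u = qseq n u := by
  unfold qfun
  rcases le_total n (Nat.ceil u) with h | h
  · obtain ⟨k, hk⟩ := Nat.exists_eq_add_of_le h
    rw [hk, qseq_stable' n k u hu]
  · obtain ⟨k, hk⟩ := Nat.exists_eq_add_of_le h
    rw [hk]
    rw [qseq_stable' _ k u]
    have := Nat.le_ceil u
    linarith

theorem qfun_of_le' {u : ℝ} (h2 : u ≤ 2) : qfun u = 1 / u := by
  rw [qfun_eq_qseq 0 (by simpa using h2), qseq_zero]

theorem qfun_eq {u : ℝ} (h : 2 ≤ u) : u * qfun u = 1 - ∫ t in (1:ℝ)..(u-1), qfun t := by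
  rcases h.eq_or_lt with rfl | h'
  · rw [qfun_of_le' le_rfl]
    norm_num
  · have hn : u ≤ (Nat.ceil u : ℝ) := Nat.le_ceil u
    rw [qfun_eq_qseq (Nat.ceil u + 1) (by push_cast; linarith), qseq_succ, if_neg (by linarith)]
    have : (∫ t in (1:ℝ)..(u-1), qseq (Nat.ceil u) t) = ∫ t in (1:ℝ)..(u-1), qfun t := by
      apply intervalIntegral.integral_congr
      intro t ht
      rw [Set.uIcc_of_le (by linarith)] at ht
      symm
      apply qfun_eq_qseq
      linarith [ht.2]
    rw [this]
    field_simp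

lemma continuousOn_qseq (n : ℕ) : ContinuousOn (qseq n) (Set.Ici 1) := by
  induction n with
  | zero =>
    intro u hu
    have hu' : (1:ℝ) ≤ u := hu
    apply ContinuousAt.continuousWithinAt
    show ContinuousAt (fun u : ℝ => 1 / u) u
    exact continuousAt_const.div continuousAt_id (by simp; linarith)
  | succ n ih =>
    have hc : Continuous fun t : ℝ => qseq n (max 1 t) := by
      apply ih.comp_continuous (continuous_const.max continuous_id)
      intro t
      exact Set.mem_Ici.2 (le_max_left (1:ℝ) t)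
    have hF : Continuous fun x : ℝ => ∫ t in (1:ℝ)..x, qseq n (max 1 t) :=
      intervalIntegral.continuous_primitive (fun a b => hc.intervalIntegrable a b) 1
    have key : ∀ u ∈ Set.Ici (1:ℝ), qseq (n+1) u =
        (1 - ∫ t in (1:ℝ)..(max 1 (u-1)), qseq n (max 1 t)) / u := by
      intro u hu
      rw [qseq_succ]
      split_ifs with h
      · rw [max_eq_left (by linarith)]
        simp
      · push Not at h
        rw [max_eq_right (by linarith)]
        congr 2
        apply intervalIntegral.integral_congr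
        intro t ht
        rw [Set.uIcc_of_le (by linarith)] at ht
        simp only
        rw [max_eq_right ht.1]
    apply ContinuousOn.congr _ key
    intro u hu
    have hu' : (1:ℝ) ≤ u := hu
    apply ContinuousAt.continuousWithinAt
    apply ContinuousAt.div
    · apply ContinuousAt.sub continuousAt_const
      exact (hF.comp (continuous_const.max (continuous_id.sub continuous_const))).continuousAt
    · exact continuousAt_id
    · linarith

theorem continuousOn_qfun : ContinuousOn qfun (Set.Ici 1) := by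
  intro u hu
  obtain ⟨n, hn⟩ := exists_nat_gt u
  have h1 : ContinuousWithinAt (qseq n) (Set.Ici 1) u := continuousOn_qseq n u hu
  apply h1.congr_of_eventuallyEq_of_mem _ hu
  have : Set.Iio ((n:ℝ) + 2) ∈ 𝓝 u := Iio_mem_nhds (by linarith)
  filter_upwards [mem_nhdsWithin_of_mem_nhds this] with t ht
  exact qfun_eq_qseq n (le_of_lt ht)

/-- the continuous extension -/
noncomputable def qt (t : ℝ) : ℝ := qfun (max 1 t)

lemma continuous_qt : Continuous qt := by
  apply continuousOn_qfun.comp_continuous (continuous_const.max continuous_id)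
  intro t
  exact Set.mem_Ici.2 (le_max_left (1:ℝ) t)

lemma qt_eq {t : ℝ} (h : 1 ≤ t) : qt t = qfun t := by
  unfold qt
  rw [max_eq_right h]

lemma integral_qt {a b : ℝ} (ha : 1 ≤ a) (hb : 1 ≤ b) :
    ∫ t in a..b, qfun t = ∫ t in a..b, qt t := by
  apply intervalIntegral.integral_congr
  intro t ht
  have : 1 ≤ t := by
    rcases le_total a b with h | h
    · rw [Set.uIcc_of_le h] at ht; linarith [ht.1]
    · rw [Set.uIcc_of_ge h] at ht; linarith [ht.1]
  exact (qt_eq this).symm

lemma mul_qt {u : ℝ} (h : 2 ≤ u) : u * qt u = 1 - ∫ t in (1:ℝ)..(u-1), qt t := by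
  rw [qt_eq (by linarith), qfun_eq h, integral_qt le_rfl (by linarith)]

lemma qt_of_le {u : ℝ} (h1 : 1 ≤ u) (h : u ≤ 2) : qt u = 1 / u := by
  rw [qt_eq h1, qfun_of_le' h]

lemma mul_qt' {u : ℝ} (h1 : 1 ≤ u) (h : u ≤ 2) : u * qt u = 1 := by
  rw [qt_of_le h1 h]
  field_simp

/-- the function of Dickman -/
noncomputable def rq (u : ℝ) : ℝ := (u + 1) * qt (u + 1)

lemma continuous_rq : Continuous rq := by
  unfold rq
  exact (continuous_id.add continuous_const).mul
    (continuous_qt.comp (continuous_id.add continuous_const))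

lemma rq_zero_one {u : ℝ} (h0 : 0 ≤ u) (h1 : u ≤ 1) : rq u = 1 := by
  unfold rq
  exact mul_qt' (by linarith) (by linarith)

lemma rq_eq {u : ℝ} (h : 1 ≤ u) : rq u = 1 - ∫ t in (1:ℝ)..u, qt t := by
  unfold rq
  rw [mul_qt (by linarith)]
  congr 2
  ring

lemma rq_sub_one (u : ℝ) : rq (u - 1) = u * qt u := by
  unfold rq
  congr 1
  · ring
  · congr 1
    ring

lemma mul_rq {u : ℝ} (h : 1 ≤ u) : u * rq u = ∫ t in (u - 1)..u, rq t := by
  have hcont : Continuous (fun x : ℝ => x * (1 - ∫ t in (1:ℝ)..x, qt t) -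
      ((∫ t in (0:ℝ)..x, rq t) - ∫ t in (0:ℝ)..(x - 1), rq t)) := by
    have hF : Continuous fun x : ℝ => ∫ t in (1:ℝ)..x, qt t :=
      intervalIntegral.continuous_primitive (fun a b => continuous_qt.intervalIntegrable a b) 1
    have hR : Continuous fun x : ℝ => ∫ t in (0:ℝ)..x, rq t :=
      intervalIntegral.continuous_primitive (fun a b => continuous_rq.intervalIntegrable a b) 0
    exact (continuous_id.mul (continuous_const.sub hF)).sub
      (hR.sub (hR.comp (continuous_id.sub continuous_const)))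
  have hder : ∀ x : ℝ, 1 ≤ x → HasDerivAt (fun x : ℝ => x * (1 - ∫ t in (1:ℝ)..x, qt t) -
      ((∫ t in (0:ℝ)..x, rq t) - ∫ t in (0:ℝ)..(x - 1), rq t)) 0 x := by
    intro x hx
    have d1 : HasDerivAt (fun y : ℝ => ∫ t in (1:ℝ)..y, qt t) (qt x) x :=
      intervalIntegral.integral_hasDerivAt_right (continuous_qt.intervalIntegrable _ _)
        continuous_qt.aestronglyMeasurable.stronglyMeasurableAtFilter continuous_qt.continuousAt
    have d2 : ∀ y : ℝ, HasDerivAt (fun y : ℝ => ∫ t in (0:ℝ)..y, rq t) (rq y) y := fun y =>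
      intervalIntegral.integral_hasDerivAt_right (continuous_rq.intervalIntegrable _ _)
        continuous_rq.aestronglyMeasurable.stronglyMeasurableAtFilter continuous_rq.continuousAt
    have d3 : HasDerivAt (fun y : ℝ => ∫ t in (0:ℝ)..(y - 1), rq t) (rq (x - 1)) x := by
      have h1 : HasDerivAt (fun y : ℝ => y - 1) 1 x := (hasDerivAt_id x).sub_const 1
      have h2 := (d2 (x - 1)).comp x h1
      simpa [Function.comp_def] using h2
    have d4 := ((hasDerivAt_id x).mul (d1.const_sub 1)).sub ((d2 x).sub d3)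
    have e0 : (1 * (1 - ∫ (t : ℝ) in (1:ℝ)..x, qt t) + id x * -qt x - (rq x - rq (x - 1))) = 0 := by
      rw [rq_eq hx, rq_sub_one]
      simp only [id]
      ring
    rw [e0] at d4
    exact d4
  have hc := constant_of_has_deriv_right_zero (a := 1) (b := u) hcont.continuousOn
    (fun x hx => (hder x hx.1).hasDerivWithinAt) u ⟨h, le_rfl⟩
  have h01 : ∫ t in (0:ℝ)..1, rq t = 1 := by
    have : ∫ t in (0:ℝ)..1, rq t = ∫ t in (0:ℝ)..1, (1:ℝ) := by
      apply intervalIntegral.integral_congr
      intro t ht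
      rw [Set.uIcc_of_le zero_le_one] at ht
      exact rq_zero_one ht.1 ht.2
    rw [this]
    simp
  rw [h01, intervalIntegral.integral_same, sub_self, intervalIntegral.integral_same] at hc
  have hs : (∫ t in (0:ℝ)..u, rq t) - ∫ t in (0:ℝ)..(u - 1), rq t = ∫ t in (u-1)..u, rq t :=
    intervalIntegral.integral_interval_sub_left (continuous_rq.intervalIntegrable _ _)
      (continuous_rq.intervalIntegrable _ _)
  rw [rq_eq h]
  linarith

lemma rq_bound (n : ℕ) : ∀ u : ℝ, n ≤ u → u ≤ n + 1 → |rq u| ≤ 1 / (n.factorial : ℝ) := by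
  induction n with
  | zero =>
    intro u h0 h1
    rw [rq_zero_one (by simpa using h0) (by simpa using h1)]
    simp
  | succ n ih =>
    rcases Nat.eq_zero_or_pos n with h0 | hpos
    · subst h0
      intro u h1 h2
      push_cast at h1 h2
      have h1' : 1 ≤ u := by linarith
      have e1 : ∫ t in (1:ℝ)..u, qt t = Real.log u := by
        have : ∫ t in (1:ℝ)..u, qt t = ∫ t in (1:ℝ)..u, 1 / t := by
          apply intervalIntegral.integral_congr
          intro t ht
          rw [Set.uIcc_of_le h1'] at ht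
          exact qt_of_le ht.1 (by linarith [ht.2])
        rw [this, integral_one_div_of_pos one_pos (by linarith)]
        simp
      rw [rq_eq h1', e1]
      have hl0 := Real.log_nonneg h1'
      have hl1 := Real.log_le_sub_one_of_pos (show 0 < u by linarith)
      rw [abs_of_nonneg (by linarith)]
      simp
      exact hl0
    · obtain ⟨v, hv, hmax⟩ := (isCompact_Icc (a := ((n + 1 : ℕ) : ℝ)) (b := ((n + 1 : ℕ) : ℝ) + 1)).exists_isMaxOn
        (Set.nonempty_Icc.2 (by linarith)) (continuous_rq.abs.continuousOn)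
      have hmax' : ∀ x : ℝ, ((n + 1 : ℕ) : ℝ) ≤ x → x ≤ ((n + 1 : ℕ) : ℝ) + 1 → |rq x| ≤ |rq v| :=
        fun x h1 h2 => hmax ⟨h1, h2⟩
      have hn1 : (1:ℝ) ≤ n := by exact_mod_cast hpos
      have hv1 : ((n:ℝ) + 1) ≤ v := by have := hv.1; push_cast at this; exact this
      have hv2 : v ≤ (n:ℝ) + 2 := by have := hv.2; push_cast at this; linarith
      have hmul := mul_rq (show 1 ≤ v by linarith)
      have hint : |∫ t in (v - 1)..v, rq t| ≤ max (1 / (n.factorial : ℝ)) |rq v| := by
        have := intervalIntegral.norm_integral_le_of_norm_le_const (a := v - 1) (b := v) (f := rq)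
          (C := max (1 / (n.factorial : ℝ)) |rq v|) ?_
        · simpa using this
        · intro x hx
          rw [Set.uIoc_of_le (by linarith)] at hx
          rw [Real.norm_eq_abs]
          rcases le_total x ((n:ℝ) + 1) with h | h
          · exact le_max_of_le_left (ih x (by linarith [hx.1]) h)
          · exact le_max_of_le_right (hmax' x (by push_cast; exact h)
              (by push_cast; linarith [hx.2]))
      rw [← hmul, abs_mul, abs_of_nonneg (show 0 ≤ v by linarith)] at hint
      have hfac : (0:ℝ) < n.factorial := by exact_mod_cast n.factorial_pos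
      have hv0 : |rq v| ≤ 1 / ((n + 1).factorial : ℝ) := by
        rcases le_total (1 / (n.factorial : ℝ)) |rq v| with h | h
        · exfalso
          rw [max_eq_right h] at hint
          have hp : 0 < 1 / (n.factorial : ℝ) := by positivity
          nlinarith
        · rw [max_eq_left h] at hint
          rw [Nat.factorial_succ]
          push_cast
          rw [le_div_iff₀ (by positivity)] at hint ⊢
          calc |rq v| * (((n:ℝ) + 1) * n.factorial) = (((n:ℝ) + 1) * |rq v|) * n.factorial := by ring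
            _ ≤ (v * |rq v|) * n.factorial := by gcongr
            _ ≤ 1 := hint
      intro u h1 h2
      exact (hmax' u h1 h2).trans hv0

/-- PROOF. Construct the continuous function `Q` on `[1, ∞)` with `s Q(s) = 1` on `[1,2]` and
`s Q(s) = 1 - ∫_1^{s-1} Q` for `s ≥ 2` step by step, exactly as the function of Buchstab is
constructed in `Pool/Agent/LibMaier/Buchstab.lean`, lines 10-175 (there the sign of the integral is
`+`; the proofs are the same), and extend by `Q (max 1 s)`. This gives the third statement by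
subtraction.
Decay: put `ρ(u) = (u+1) Q(u+1)`, `u ≥ 0`: `ρ = 1` on `[0,1]`, `ρ(u) = 1 - ∫_1^u Q` for `u ≥ 1`, so
`ρ'(u) = -Q(u) = -ρ(u-1)/u`. The function `D(u) = u ρ(u) - ∫_{u-1}^u ρ` (`u ≥ 1`) has derivative
`ρ(u) + u ρ'(u) - ρ(u) + ρ(u-1) = 0` and `D(1) = 1 - 1 = 0`. So `u ρ(u) = ∫_{u-1}^u ρ` for `u ≥ 1`,
hence `|ρ(u)| ≤ (1/u) M(u)`, `M(u) = max_{[u-1,u]} |ρ|`. Consequently
`m_n = max_{[n, n+1]} |ρ|` satisfies `m_n ≤ (1/n) max (m_{n-1}, m_n)`, for `n ≥ 2` so
`m_n ≤ m_{n-1}/n`, so `m_n ≤ C/n!` and `|Q(s)| ≤ |ρ(s-1)|/s ≤ C exp (-s)`. -/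
theorem exists_Q : ∃ (Q : ℝ → ℝ) (C : ℝ), 0 < C ∧ Continuous Q ∧
    (∀ s, 1 ≤ s → s ≤ 2 → Q s = 1 / s) ∧
    (∀ s t, 2 ≤ s → s ≤ t → ∫ x in (s - 1)..(t - 1), Q x = s * Q s - t * Q t) ∧
    (∀ s, 1 ≤ s → |Q s| ≤ C * Real.exp (-s)) := by
  refine ⟨qt, Real.exp (Real.exp 1 + 2), Real.exp_pos _, continuous_qt,
    fun s h1 h2 => qt_of_le h1 h2, ?_, ?_⟩
  · intro s t hs hst
    rw [mul_qt hs, mul_qt (hs.trans hst)]
    have h := intervalIntegral.integral_interval_sub_left (μ := volume) (f := qt) (a := 1)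
      (b := t - 1) (c := s - 1)
      (continuous_qt.intervalIntegrable _ _) (continuous_qt.intervalIntegrable _ _)
    linarith
  · intro s hs
    have hn : ((⌊s - 1⌋₊ : ℕ) : ℝ) ≤ s - 1 := Nat.floor_le (by linarith)
    have hn' : s - 1 < (⌊s - 1⌋₊ : ℝ) + 1 := Nat.lt_floor_add_one _
    have hb := rq_bound ⌊s - 1⌋₊ (s - 1) hn hn'.le
    rw [rq_sub_one, abs_mul, abs_of_nonneg (show 0 ≤ s by linarith)] at hb
    have h1 : |qt s| ≤ s * |qt s| := by nlinarith [abs_nonneg (qt s)]
    have h2 := Real.pow_div_factorial_le_exp (Real.exp 1) (Real.exp_pos 1).le ⌊s - 1⌋₊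
    rw [← Real.exp_nat_mul] at h2
    have h3 : 1 / ((⌊s - 1⌋₊).factorial : ℝ) ≤
        Real.exp (Real.exp 1) * Real.exp (-((⌊s - 1⌋₊ : ℝ) * 1)) := by
      have h4 : 1 / ((⌊s - 1⌋₊).factorial : ℝ) =
          (Real.exp ((⌊s - 1⌋₊ : ℝ) * 1) / ((⌊s - 1⌋₊).factorial : ℝ)) *
            Real.exp (-((⌊s - 1⌋₊ : ℝ) * 1)) := by
        rw [Real.exp_neg]
        field_simp
      rw [h4]
      gcongr
    calc |qt s| ≤ 1 / ((⌊s - 1⌋₊).factorial : ℝ) := h1.trans hb
      _ ≤ Real.exp (Real.exp 1) * Real.exp (-((⌊s - 1⌋₊ : ℝ) * 1)) := h3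
      _ ≤ Real.exp (Real.exp 1) * Real.exp (2 - s) := by
          gcongr
          linarith
      _ = Real.exp (Real.exp 1 + 2) * Real.exp (-s) := by
          rw [← Real.exp_add, ← Real.exp_add]
          congr 1
          ring

end Pool.Agent.LibLin93
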