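import Pool.Agent.LibLin93.Defs
import Pool.Agent.LibMaier.Buchstab

/-! Row LS C2: the function of Buchstab minus its limit. -/

set_option autoImplicit false

namespace Pool.Agent.LibLin93

open Finset Filter Topology MeasureTheory

open Pool.Agent.LibMaier Pool.Agent.LibMaier.Buch in
private lemma C2_q_anti {u v : ℝ} (hu : 0 < u) (huv : u ≤ v) : q v ≤ q u := by
  unfold q
  apply setIntegral_mono_on (integrable_q (lt_of_lt_of_le hu huv)) (integrable_q hu)
    measurableSet_Ioi
  intro x hx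
  have hx' : (0:ℝ) < x := hx
  apply mul_le_mul_of_nonneg_right _ (ker_pos x).le
  apply Real.exp_le_exp.2
  have := mul_le_mul_of_nonneg_right huv hx'.le
  linarith

open Pool.Agent.LibMaier Pool.Agent.LibMaier.Buch in
private lemma C2_step {u B : ℝ} (hu : 2 ≤ u) (hB : ∀ t, u - 1 ≤ t → t ≤ u → |ww t| ≤ B) :
    |ww u| ≤ B / u := by
  have h1 := jj_eq hu
  unfold jj at h1
  have hq : 0 < q u := q_pos (by linarith)
  have hB0 : 0 ≤ B := (abs_nonneg _).trans (hB u (by linarith) le_rfl)
  have h2 : ‖∫ t in (u-1)..u, ww t * qt t‖ ≤ (B * q u) * |u - (u - 1)| := by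
    apply intervalIntegral.norm_integral_le_of_norm_le_const
    intro t ht
    rw [Set.uIoc_of_le (by linarith)] at ht
    rw [norm_mul, Real.norm_eq_abs, Real.norm_eq_abs]
    have h3 : |qt t| ≤ q u := by
      rw [qt_eq (by linarith [ht.1]), abs_of_pos (q_pos (by linarith [ht.1]))]
      exact C2_q_anti (by linarith) (by linarith [ht.1])
    exact mul_le_mul (hB t ht.1.le ht.2) h3 (abs_nonneg _) hB0
  rw [show u - (u - 1) = 1 by ring, abs_one, mul_one, Real.norm_eq_abs] at h2
  have h3 : |u * ww u * q u| ≤ B * q u := by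
    have h4 : u * ww u * q u = - ∫ t in (u-1)..u, ww t * qt t := by linarith
    rw [h4, abs_neg]
    exact h2
  rw [abs_mul, abs_mul, abs_of_pos hq, abs_of_pos (show 0 < u by linarith)] at h3
  have h5 : u * |ww u| ≤ B := le_of_mul_le_mul_right h3 hq
  rw [le_div_iff₀ (by linarith)]
  linarith

open Pool.Agent.LibMaier Pool.Agent.LibMaier.Buch in
private lemma C2_fact (n : ℕ) : ∀ t : ℝ, (n : ℝ) + 1 ≤ t →
    |ww t| ≤ 1 / ((n + 1).factorial : ℝ) := by
  induction n with
  | zero =>
    intro t ht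
    have ht' : 1 ≤ t := by simpa using ht
    have h1 := half_le_bt ht'
    have h2 := bt_le_one ht'
    have h3 : 0 < cg := Real.exp_pos _
    have h4 : cg ≤ 1 := Real.exp_le_one_iff.2 (by
      have := Real.one_half_lt_eulerMascheroniConstant
      linarith)
    have h5 : (1 : ℝ) / ((0 + 1).factorial : ℝ) = 1 := by norm_num
    rw [h5]
    unfold ww
    rw [abs_le]
    constructor <;> linarith
  | succ n ih =>
    intro t ht
    push_cast at ht
    have hn : (0:ℝ) ≤ n := Nat.cast_nonneg n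
    have h1 := C2_step (u := t) (B := 1 / ((n + 1).factorial : ℝ)) (by linarith)
      (fun x hx _ => ih x (by linarith))
    refine h1.trans ?_
    have hf : (0:ℝ) < ((n + 1).factorial : ℝ) := by exact_mod_cast Nat.factorial_pos _
    have h2 : (((n + 1) + 1).factorial : ℝ) = ((n : ℝ) + 1 + 1) * ((n + 1).factorial : ℝ) := by
      rw [Nat.factorial_succ (n + 1)]
      push_cast
      ring
    rw [h2, div_div]
    apply one_div_le_one_div_of_le (by positivity)
    rw [mul_comm]
    exact mul_le_mul_of_nonneg_left ht hf.le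

/-- PROOF. `w = LibMaier's Buch.ww` (`= bt - cg`, `cg = exp (-γ)`; open the right namespaces).
Continuity: `continuous_ww`. On `[1,2]`: `mul_bt'`. The integral formula: `mul_bt` at `t` and `s`,
subtracted. Decay: `jj_eq` (`u ww(u) q(u) + ∫_{u-1}^u ww(t) q(t+1) dt = 0` for `u ≥ 2`); as `q > 0`
is decreasing (`hasDerivAt_q`, `q_pos`), `q (t+1) ≤ q u` for `t ≥ u - 1`, so
`|ww u| ≤ (1/u) max_{[u-1,u]} |ww|`; as in row C1 `m_n = max_{[n,n+1]} |ww|` satisfies
`m_n ≤ (1/n) max (m_{n-1}, m_n)`, so `m_n ≤ m_{n-1} / n` for `n ≥ 2` and `m_n ≤ C / n!`. -/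
theorem exists_w : ∃ (w : ℝ → ℝ) (C : ℝ), 0 < C ∧ Continuous w ∧
    (∀ s, 1 ≤ s → s ≤ 2 → w s = 1 / s - Real.exp (-Real.eulerMascheroniConstant)) ∧
    (∀ s t, 2 ≤ s → s ≤ t → ∫ x in (s - 1)..(t - 1), w x = t * w t - s * w s) ∧
    (∀ s, 1 ≤ s → |w s| ≤ C * Real.exp (-s)) := by
  refine ⟨LibMaier.Buch.ww, Real.exp (Real.exp 1) * Real.exp 1, by positivity,
    LibMaier.Buch.continuous_ww, ?_, ?_, ?_⟩
  · intro s h1 h2
    have h3 := LibMaier.Buch.mul_bt' h1 h2
    have hs : s ≠ 0 := by linarith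
    have h4 : LibMaier.Buch.bt s = 1 / s := by
      rw [eq_div_iff hs, mul_comm]
      exact h3
    show LibMaier.Buch.bt s - LibMaier.Buch.cg = _
    rw [h4]
    rfl
  · intro s t hs hst
    have h1 := LibMaier.Buch.mul_bt hs
    have h2 := LibMaier.Buch.mul_bt (hs.trans hst)
    have h3 : (∫ x in (1:ℝ)..(s-1), LibMaier.Buch.bt x) +
        ∫ x in (s-1)..(t-1), LibMaier.Buch.bt x = ∫ x in (1:ℝ)..(t-1), LibMaier.Buch.bt x :=
      intervalIntegral.integral_add_adjacent_intervals
        (LibMaier.Buch.continuous_bt.intervalIntegrable _ _)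
        (LibMaier.Buch.continuous_bt.intervalIntegrable _ _)
    have h4 : ∫ x in (s - 1)..(t - 1), LibMaier.Buch.ww x =
        (∫ x in (s-1)..(t-1), LibMaier.Buch.bt x) - ∫ x in (s-1)..(t-1), LibMaier.Buch.cg := by
      rw [← intervalIntegral.integral_sub
        (LibMaier.Buch.continuous_bt.intervalIntegrable _ _)
        (continuous_const.intervalIntegrable _ _)]
      rfl
    rw [h4, intervalIntegral.integral_const, smul_eq_mul]
    unfold LibMaier.Buch.ww
    linarith
  · intro s hs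
    obtain ⟨n, hn⟩ : ∃ n : ℕ, ⌊s⌋₊ = n + 1 := by
      have : 1 ≤ ⌊s⌋₊ := Nat.le_floor (by simpa using hs)
      exact ⟨⌊s⌋₊ - 1, by omega⟩
    have h1 : ((n : ℝ) + 1) ≤ s := by
      have := Nat.floor_le (show 0 ≤ s by linarith)
      rw [hn] at this
      push_cast at this
      exact this
    have h2 : s < (n : ℝ) + 1 + 1 := by
      have := Nat.lt_floor_add_one s
      rw [hn] at this
      push_cast at this
      exact this
    have h3 := C2_fact n s h1
    have h4 := Real.pow_div_factorial_le_exp (Real.exp 1) (Real.exp_pos 1).le (n + 1)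
    have h5 : Real.exp 1 ^ (n + 1) = Real.exp ((n : ℝ) + 1) := by
      rw [← Real.exp_nat_mul]
      push_cast
      ring_nf
    rw [h5] at h4
    have h6 : (1 : ℝ) / ((n + 1).factorial : ℝ) =
        Real.exp ((n : ℝ) + 1) / ((n + 1).factorial : ℝ) * Real.exp (-((n : ℝ) + 1)) := by
      rw [div_mul_eq_mul_div, ← Real.exp_add, add_neg_cancel, Real.exp_zero]
    rw [h6] at h3
    refine h3.trans ?_
    rw [mul_assoc, ← Real.exp_add]
    apply mul_le_mul h4 _ (Real.exp_pos _).le (Real.exp_pos _).le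
    apply Real.exp_le_exp.2
    linarith

end Pool.Agent.LibLin93
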