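import Pool.Agent.LibLin93.C1
import Pool.Agent.LibLin93.C2

/-! Row LS C3: the functions `F` and `f` of the linear sieve. -/

set_option autoImplicit false

namespace Pool.Agent.LibLin93

open Finset Filter Topology MeasureTheory

/-- PROOF. With `Q`, `w` from `exists_Q`, `exists_w` and `g = exp γ`:
`F s = 1 + g (w s + Q s)`, `f s = 1 + g (w s - Q s)`.
* Decay: clear.
* For `2 ≤ s ≤ t`: `s (f s - 1) - t (f t - 1) = g ((s w s - t w t) - (s Q s - t Q t)) =
  -g ∫_{s-1}^{t-1} (w + Q) = -∫_{s-1}^{t-1} (F - 1)`; substitute `x ↦ x - 1` in the integral.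
  This is the last statement. In the same way
  `s (F s - 1) - t (F t - 1) = -g ∫_{s-1}^{t-1} (w - Q) = ∫_{s-1}^{t-1} (1 - f)` for `2 ≤ s ≤ t`
  (for the fifth statement only `s ≥ 3` is claimed).
* `F` on `[1,3]`: on `[1,2]`, `s F s = s + g (1 - s/g + 1) = 2 g`. For `s ∈ [2,3]`, `t = 3`: on
  `[1,2]` one has `w - Q = -1/g`, so `s (F s - 1) - 3 (F 3 - 1) = -g ∫_{s-1}^{2} (-1/g) = 3 - s`,
  that is `s F s = 3 F 3`; with `s = 2`: `= 2 F 2 = 2 g`. So `A = 2 exp γ`.
* `f 2 = 1 + g (1/2 - 1/g - 1/2) = 0`, and for `s ∈ [2,4]`: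
  `s (f s - 1) = 2 (f 2 - 1) + ∫_1^{s-1} (F - 1) = -2 + A log (s-1) - (s - 2)`. -/
theorem exists_Ff : ∃ (F f : ℝ → ℝ) (A C : ℝ), 0 < A ∧ 0 < C ∧ Continuous F ∧ Continuous f ∧
    (∀ s, 1 ≤ s → s ≤ 3 → F s = A / s) ∧
    (∀ s, 2 ≤ s → s ≤ 4 → f s = A * Real.log (s - 1) / s) ∧
    (∀ s, 1 ≤ s → |F s - 1| ≤ C * Real.exp (-s)) ∧
    (∀ s, 1 ≤ s → |f s - 1| ≤ C * Real.exp (-s)) ∧
    (∀ s t, 3 ≤ s → s ≤ t →
      ∫ x in s..t, (1 - f (x - 1)) = s * (F s - 1) - t * (F t - 1)) ∧
    (∀ s t, 2 ≤ s → s ≤ t →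
      ∫ x in s..t, (F (x - 1) - 1) = s * (1 - f s) - t * (1 - f t)) := by
  obtain ⟨Q, CQ, hCQ, hQc, hQ12, hQi, hQd⟩ := exists_Q
  obtain ⟨w, Cw, hCw, hwc, hw12, hwi, hwd⟩ := exists_w
  obtain ⟨g, hg⟩ : ∃ g, g = Real.exp Real.eulerMascheroniConstant := ⟨_, rfl⟩
  have hg0 : 0 < g := by rw [hg]; exact Real.exp_pos _
  have hginv : g * Real.exp (-Real.eulerMascheroniConstant) = 1 := by
    rw [hg, ← Real.exp_add]
    simp
  have hFc : Continuous (fun s => 1 + g * (w s + Q s)) := by fun_prop
  have hfc : Continuous (fun s => 1 + g * (w s - Q s)) := by fun_prop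
  -- the two integral formulas
  have G1 : ∀ s t, 2 ≤ s → s ≤ t → ∫ x in (s - 1)..(t - 1), (1 - (1 + g * (w x - Q x))) =
      s * ((1 + g * (w s + Q s)) - 1) - t * ((1 + g * (w t + Q t)) - 1) := by
    intro s t hs hst
    have e1 : ∫ x in (s - 1)..(t - 1), (1 - (1 + g * (w x - Q x))) =
        ∫ x in (s - 1)..(t - 1), (g * Q x - g * w x) := by
      apply intervalIntegral.integral_congr
      intro x _
      simp only
      ring
    have i1 : IntervalIntegrable (fun x => g * Q x) volume (s - 1) (t - 1) :=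
      (continuous_const.mul hQc).intervalIntegrable _ _
    have i2 : IntervalIntegrable (fun x => g * w x) volume (s - 1) (t - 1) :=
      (continuous_const.mul hwc).intervalIntegrable _ _
    rw [e1, intervalIntegral.integral_sub i1 i2,
      intervalIntegral.integral_const_mul, intervalIntegral.integral_const_mul,
      hQi s t hs hst, hwi s t hs hst]
    ring
  have G2 : ∀ s t, 2 ≤ s → s ≤ t → ∫ x in (s - 1)..(t - 1), ((1 + g * (w x + Q x)) - 1) =
      s * (1 - (1 + g * (w s - Q s))) - t * (1 - (1 + g * (w t - Q t))) := by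
    intro s t hs hst
    have e1 : ∫ x in (s - 1)..(t - 1), ((1 + g * (w x + Q x)) - 1) =
        ∫ x in (s - 1)..(t - 1), (g * Q x + g * w x) := by
      apply intervalIntegral.integral_congr
      intro x _
      simp only
      ring
    have i1 : IntervalIntegrable (fun x => g * Q x) volume (s - 1) (t - 1) :=
      (continuous_const.mul hQc).intervalIntegrable _ _
    have i2 : IntervalIntegrable (fun x => g * w x) volume (s - 1) (t - 1) :=
      (continuous_const.mul hwc).intervalIntegrable _ _
    rw [e1, intervalIntegral.integral_add i1 i2,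
      intervalIntegral.integral_const_mul, intervalIntegral.integral_const_mul,
      hQi s t hs hst, hwi s t hs hst]
    ring
  -- values on `[1, 2]`
  have F12 : ∀ s, 1 ≤ s → s ≤ 2 → 1 + g * (w s + Q s) = 2 * g / s := by
    intro s h1 h2
    rw [hw12 s h1 h2, hQ12 s h1 h2]
    have hs0 : s ≠ 0 := by linarith
    have : 1 + g * (1 / s - Real.exp (-Real.eulerMascheroniConstant) + 1 / s) =
        1 + 2 * g / s - g * Real.exp (-Real.eulerMascheroniConstant) := by
      field_simp
      ring
    rw [this, hginv]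
    ring
  have f12 : ∀ s, 1 ≤ s → s ≤ 2 → 1 + g * (w s - Q s) = 0 := by
    intro s h1 h2
    rw [hw12 s h1 h2, hQ12 s h1 h2]
    have : 1 + g * (1 / s - Real.exp (-Real.eulerMascheroniConstant) - 1 / s) =
        1 - g * Real.exp (-Real.eulerMascheroniConstant) := by
      ring
    rw [this, hginv]
    ring
  have F13 : ∀ s, 1 ≤ s → s ≤ 3 → 1 + g * (w s + Q s) = 2 * g / s := by
    intro s h1 h3
    rcases le_total s 2 with h2 | h2
    · exact F12 s h1 h2
    · have h := G1 2 s le_rfl h2
      have e1 : ∫ x in ((2:ℝ) - 1)..(s - 1), (1 - (1 + g * (w x - Q x))) =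
          ∫ x in ((2:ℝ) - 1)..(s - 1), (1 : ℝ) := by
        apply intervalIntegral.integral_congr
        intro x hx
        rw [Set.uIcc_of_le (by linarith)] at hx
        simp only
        rw [f12 x (by linarith [hx.1]) (by linarith [hx.2])]
        ring
      rw [e1, intervalIntegral.integral_const, smul_eq_mul, F12 2 (by norm_num) le_rfl] at h
      rw [eq_div_iff (by linarith)]
      linarith
  refine ⟨fun s => 1 + g * (w s + Q s), fun s => 1 + g * (w s - Q s), 2 * g, g * (Cw + CQ),
    by positivity, by positivity, hFc, hfc, F13, ?_, ?_, ?_, ?_, ?_⟩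
  · intro s h2 h4
    simp only
    have h := G2 2 s le_rfl h2
    have e1 : ∫ x in ((2:ℝ) - 1)..(s - 1), ((1 + g * (w x + Q x)) - 1) =
        ∫ x in ((2:ℝ) - 1)..(s - 1), (2 * g * (1 / x) - 1) := by
      apply intervalIntegral.integral_congr
      intro x hx
      rw [Set.uIcc_of_le (by linarith)] at hx
      simp only
      rw [F13 x (by linarith [hx.1]) (by linarith [hx.2])]
      ring
    have hii : IntervalIntegrable (fun x : ℝ => 2 * g * (1 / x)) volume ((2:ℝ) - 1) (s - 1) := by
      apply ContinuousOn.intervalIntegrable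
      intro x hx
      rw [Set.uIcc_of_le (by linarith)] at hx
      apply ContinuousAt.continuousWithinAt
      exact continuousAt_const.mul (continuousAt_const.div continuousAt_id (by
        linarith [hx.1]))
    rw [e1, intervalIntegral.integral_sub hii (by simp), intervalIntegral.integral_const_mul,
      integral_one_div_of_pos (by norm_num) (by linarith), intervalIntegral.integral_const,
      smul_eq_mul, f12 2 (by norm_num) le_rfl] at h
    have e2 : (s - 1) / (2 - 1) = s - 1 := by norm_num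
    rw [e2] at h
    rw [eq_div_iff (by linarith)]
    linarith
  · intro s hs
    have e1 : 1 + g * (w s + Q s) - 1 = g * (w s + Q s) := by ring
    rw [e1, abs_mul, abs_of_pos hg0]
    calc g * |w s + Q s| ≤ g * (|w s| + |Q s|) := by gcongr; exact abs_add_le _ _
      _ ≤ g * (Cw * Real.exp (-s) + CQ * Real.exp (-s)) := by
          gcongr
          · exact hwd s hs
          · exact hQd s hs
      _ = _ := by ring
  · intro s hs
    have e1 : 1 + g * (w s - Q s) - 1 = g * (w s - Q s) := by ring
    rw [e1, abs_mul, abs_of_pos hg0]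
    calc g * |w s - Q s| ≤ g * (|w s| + |Q s|) := by gcongr; exact abs_sub _ _
      _ ≤ g * (Cw * Real.exp (-s) + CQ * Real.exp (-s)) := by
          gcongr
          · exact hwd s hs
          · exact hQd s hs
      _ = _ := by ring
  · intro s t hs hst
    rw [← G1 s t (by linarith) hst]
    exact intervalIntegral.integral_comp_sub_right (fun x => 1 - (1 + g * (w x - Q x))) 1
  · intro s t hs hst
    rw [← G2 s t hs hst]
    exact intervalIntegral.integral_comp_sub_right (fun x => (1 + g * (w x + Q x)) - 1) 1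

end Pool.Agent.LibLin93
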