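import Pool.Agent.LibLin93.Defs

/-! Row LS C4: the contraction inequalities (pure calculus). -/

set_option autoImplicit false

namespace Pool.Agent.LibLin93

open Finset Filter Topology MeasureTheory

/-- PROOF. The two branches agree at `3`; `max 1 s > 0`. -/
theorem continuous_hX : Continuous hX := by
  unfold hX
  refine Continuous.if_le ?_ ?_ continuous_id continuous_const ?_
  · refine continuous_const.div (continuous_const.max continuous_id) ?_
    intro x
    exact ne_of_gt (lt_of_lt_of_le one_pos (le_max_left _ _))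
  · exact Real.continuous_exp.comp continuous_neg
  · intro x hx
    have hx' : x = 3 := hx
    subst hx'
    have : max (1 : ℝ) 3 = 3 := by norm_num
    rw [this]
    field_simp

theorem continuous_hY : Continuous hY := by
  unfold hY
  exact Real.continuous_exp.comp continuous_neg

theorem hX_pos (s : ℝ) : 0 < hX s := by
  unfold hX
  split_ifs
  · have : (0 : ℝ) < max 1 s := lt_of_lt_of_le one_pos (le_max_left _ _)
    positivity
  · positivity

private theorem int_exp_aux (s t : ℝ) :
    ∫ x in s..t, Real.exp (-(x - 1)) = Real.exp 1 * Real.exp (-s) - Real.exp 1 * Real.exp (-t) := by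
  have h : ∀ x ∈ Set.uIcc s t, HasDerivAt (fun x : ℝ => - Real.exp (-(x - 1)))
      (Real.exp (-(x - 1))) x := by
    intro x _
    have h1 : HasDerivAt (fun x : ℝ => -(x - 1)) (-1) x :=
      ((hasDerivAt_id x).sub_const 1).neg
    have h2 : HasDerivAt (fun x : ℝ => - Real.exp (-(x - 1))) (-(Real.exp (-(x - 1)) * (-1))) x :=
      h1.exp.neg
    have h3 : -(Real.exp (-(x - 1)) * (-1)) = Real.exp (-(x - 1)) := by ring
    rw [h3] at h2
    exact h2
  rw [intervalIntegral.integral_eq_sub_of_hasDerivAt h]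
  · rw [← Real.exp_add, ← Real.exp_add]
    ring_nf
  · apply Continuous.intervalIntegrable
    fun_prop

/-- PROOF. `∫_s^t exp (-(x-1)) = exp (1 - s) - exp (1 - t) ≤ exp 1 exp (-s)`, and
`exp 1 / s ≤ 2.7183 / 3 ≤ 19/20` (`Real.exp_one_lt_d9`). -/
theorem int_hY (s t : ℝ) (hs : 3 ≤ s) (hst : s ≤ t) :
    (1 / s) * (∫ x in s..t, hY (x - 1)) ≤ 19 / 20 * Real.exp (-s) := by
  unfold hY
  rw [int_exp_aux]
  have hs0 : 0 < s := by linarith
  rw [one_div, inv_mul_le_iff₀ hs0]
  have he := Real.exp_one_lt_d9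
  have h1 : 0 < Real.exp 1 * Real.exp (-t) := by positivity
  have h2 : 0 < Real.exp (-s) := Real.exp_pos _
  have h3 : Real.exp 1 ≤ s * (19 / 20) := by linarith
  have h4 := mul_le_mul_of_nonneg_right h3 h2.le
  nlinarith

private theorem log_three_le : Real.log 3 ≤ 1.1 := by
  rw [Real.log_le_iff_le_exp (by norm_num)]
  have h1 := Real.exp_one_gt_d9
  have h2 := Real.quadratic_le_exp_of_nonneg (x := (0.1 : ℝ)) (by norm_num)
  have h3 : Real.exp 1.1 = Real.exp 1 * Real.exp 0.1 := by
    rw [← Real.exp_add]; norm_num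
  rw [h3]
  nlinarith [Real.exp_pos 0.1, Real.exp_pos 1]

private theorem chord (u : ℝ) (h1 : 1 ≤ u) (h3 : u ≤ 3) :
    (u - 1) / 2 * Real.log 3 ≤ Real.log u := by
  have hm1 : (1 : ℝ) ∈ Set.Ioi (0 : ℝ) := by norm_num
  have hm3 : (3 : ℝ) ∈ Set.Ioi (0 : ℝ) := by norm_num
  have ha : 0 ≤ (3 - u) / 2 := by linarith
  have hb : 0 ≤ (u - 1) / 2 := by linarith
  have hab : (3 - u) / 2 + (u - 1) / 2 = 1 := by ring
  have hc := strictConcaveOn_log_Ioi.concaveOn.2 hm1 hm3 ha hb hab
  simp only [smul_eq_mul, Real.log_one, mul_zero, zero_add] at hc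
  have : (3 - u) / 2 * 1 + (u - 1) / 2 * 3 = u := by ring
  rw [this] at hc
  exact hc

private theorem key (s : ℝ) (h2 : 2 ≤ s) (h4 : s ≤ 4) :
    Real.exp (-3) * (3 * Real.log (3 / (s - 1)) + 1) ≤ s * (19 / 20 * Real.exp (-s)) := by
  have hl := chord (s - 1) (by linarith) (by linarith)
  have hl3 := log_three_le
  have hlog : Real.log (3 / (s - 1)) = Real.log 3 - Real.log (s - 1) := by
    rw [Real.log_div (by norm_num) (by linarith)]
  have hA : 3 * Real.log (3 / (s - 1)) + 1 ≤ 1 + 1.65 * (4 - s) := by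
    rw [hlog]
    nlinarith
  have hb : |3 - s| ≤ 1 := by rw [abs_le]; constructor <;> linarith
  have hex := Real.exp_bound (x := 3 - s) hb (n := 4) (by norm_num)
  rw [abs_le] at hex
  have hex1 := hex.1
  simp only [Finset.sum_range_succ, Finset.sum_range_zero, Nat.factorial] at hex1
  norm_num at hex1
  have habs : |3 - s| ^ 4 = (3 - s) ^ 4 := by
    rw [← abs_pow, abs_of_nonneg (by positivity)]
  rw [habs] at hex1
  have hexp : Real.exp (-s) = Real.exp (-3) * Real.exp (3 - s) := by
    rw [← Real.exp_add]; ring_nf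
  rw [hexp]
  have hkey : 1 + 1.65 * (4 - s) ≤ s * (19 / 20 * Real.exp (3 - s)) := by
    set y := 3 - s with hy
    have hs : s = 3 - y := by rw [hy]; ring
    have hy1 : -1 ≤ y := by linarith
    have hy2 : y ≤ 1 := by linarith
    have h5 : 1 + y + y ^ 2 / 2 + y ^ 3 / 6 - 5 / 96 * y ^ 4 ≤ Real.exp y := by
      linarith
    have hs0 : 0 ≤ s := by linarith
    have h6 : s * (19 / 20 * (1 + y + y ^ 2 / 2 + y ^ 3 / 6 - 5 / 96 * y ^ 4))
        ≤ s * (19 / 20 * Real.exp y) := by
      apply mul_le_mul_of_nonneg_left _ hs0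
      linarith
    refine le_trans ?_ h6
    rw [hs]
    have hy4 : y ^ 4 ≤ y ^ 2 := by nlinarith [sq_nonneg y, mul_nonneg (sq_nonneg y) (sub_nonneg.mpr hy2), mul_nonneg (sq_nonneg y) (by linarith : (0:ℝ) ≤ y + 1)]
    have hy5 : -(y ^ 4) ≤ y ^ 5 := by nlinarith [mul_nonneg (pow_nonneg (sq_nonneg y) 2) (by linarith : (0:ℝ) ≤ y + 1)]
    nlinarith [sq_nonneg (y + 1/2), sq_nonneg y]
  have he3 : 0 < Real.exp (-3) := Real.exp_pos _
  calc Real.exp (-3) * (3 * Real.log (3 / (s - 1)) + 1)
      ≤ Real.exp (-3) * (s * (19 / 20 * Real.exp (3 - s))) :=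
        mul_le_mul_of_nonneg_left (le_trans hA hkey) he3.le
    _ = s * (19 / 20 * (Real.exp (-3) * Real.exp (3 - s))) := by ring

private theorem int_tail (s t : ℝ) (hs : 4 ≤ s) (hst : s ≤ t) :
    ∫ x in s..t, hX (x - 1) = Real.exp 1 * Real.exp (-s) - Real.exp 1 * Real.exp (-t) := by
  rw [← int_exp_aux]
  apply intervalIntegral.integral_congr
  intro x hx
  rw [Set.uIcc_of_le hst] at hx
  have hx1 := hx.1
  show hX (x - 1) = Real.exp (-(x - 1))
  unfold hX
  split_ifs with h
  · have hx3 : x - 1 = 3 := by linarith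
    rw [hx3]
    norm_num
  · rfl

private theorem int_head (s : ℝ) (h2 : 2 ≤ s) (h4 : s ≤ 4) :
    ∫ x in s..4, hX (x - 1) = 3 * Real.exp (-3) * Real.log (3 / (s - 1)) := by
  have h1 : ∫ x in s..4, hX (x - 1) = ∫ x in s..4, 3 * Real.exp (-3) * (x - 1)⁻¹ := by
    apply intervalIntegral.integral_congr
    intro x hx
    rw [Set.uIcc_of_le h4] at hx
    have hx1 := hx.1
    have hx2 := hx.2
    show hX (x - 1) = 3 * Real.exp (-3) * (x - 1)⁻¹
    unfold hX
    rw [if_pos (by linarith), max_eq_right (by linarith)]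
    rfl
  rw [h1, intervalIntegral.integral_const_mul]
  congr 1
  rw [intervalIntegral.integral_comp_sub_right (fun x => x⁻¹) 1, integral_inv_of_pos (by linarith) (by norm_num)]
  norm_num

/-- PROOF. see the board. -/
theorem int_hX (s t : ℝ) (hs : 2 ≤ s) (hst : s ≤ t) :
    (1 / s) * (∫ x in s..t, hX (x - 1)) ≤ 19 / 20 * Real.exp (-s) := by
  have hs0 : 0 < s := by linarith
  rw [one_div, inv_mul_le_iff₀ hs0]
  have hcont : Continuous (fun x : ℝ => hX (x - 1)) := continuous_hX.comp (by fun_prop)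
  rcases le_total 4 s with h4 | h4
  · rw [int_tail s t h4 hst]
    have he := Real.exp_one_lt_d9
    have h1 : 0 < Real.exp 1 * Real.exp (-t) := by positivity
    have h2 : 0 < Real.exp (-s) := Real.exp_pos _
    have h3 : Real.exp 1 ≤ s * (19 / 20) := by linarith
    have h4 := mul_le_mul_of_nonneg_right h3 h2.le
    nlinarith
  · have hsplit : ∫ x in s..(max t 4), hX (x - 1)
        = (∫ x in s..4, hX (x - 1)) + ∫ x in (4:ℝ)..(max t 4), hX (x - 1) := by
      rw [intervalIntegral.integral_add_adjacent_intervals] <;>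
        exact hcont.intervalIntegrable _ _
    have hmono : ∫ x in s..t, hX (x - 1) ≤ ∫ x in s..(max t 4), hX (x - 1) := by
      have hadd : ∫ x in s..(max t 4), hX (x - 1)
          = (∫ x in s..t, hX (x - 1)) + ∫ x in t..(max t 4), hX (x - 1) := by
        rw [intervalIntegral.integral_add_adjacent_intervals] <;>
          exact hcont.intervalIntegrable _ _
      have hnn : 0 ≤ ∫ x in t..(max t 4), hX (x - 1) := by
        apply intervalIntegral.integral_nonneg (le_max_left _ _)
        intro x _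
        exact (hX_pos _).le
      linarith
    refine le_trans hmono ?_
    rw [hsplit, int_head s hs h4, int_tail 4 (max t 4) le_rfl (le_max_right _ _)]
    refine le_trans ?_ (key s hs h4)
    have h1 : 0 < Real.exp 1 * Real.exp (-(max t 4)) := by positivity
    have h2 : Real.exp 1 * Real.exp (-4) = Real.exp (-3) := by
      rw [← Real.exp_add]; norm_num
    rw [h2]
    nlinarith

end Pool.Agent.LibLin93
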