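import Pool.Agent.LibLin93.B1
import Pool.Agent.LibLin93.B2
import Pool.Agent.LibLin93.B3
import Pool.Agent.LibLin93.C4

/-! Row LS D1: one step of the iteration. -/

set_option autoImplicit false

namespace Pool.Agent.LibLin93

open Finset Filter Topology MeasureTheory

private theorem d1_t (K s₁ ε : ℝ) (hε : 0 < ε) :
    ∃ t : ℝ, s₁ ≤ t ∧ 3 ≤ t ∧ K * t * Real.exp (-t) ≤ ε := by
  have h1 : Tendsto (fun t : ℝ => K * (t ^ 1 * Real.exp (-t))) atTop (𝓝 (K * 0)) :=
    (Real.tendsto_pow_mul_exp_neg_atTop_nhds_zero 1).const_mul K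
  rw [mul_zero] at h1
  have h2 := h1.eventually (gt_mem_nhds hε)
  obtain ⟨t, h3, h4, h5⟩ := (h2.and ((eventually_ge_atTop s₁).and (eventually_ge_atTop 3))).exists
  refine ⟨t, h4, h5, ?_⟩
  have h6 : K * t * Real.exp (-t) = K * (t ^ 1 * Real.exp (-t)) := by ring
  rw [h6]
  exact h3.le

/-- elementary facts on `s = rt N z` -/
private theorem d1_rt {z N : ℕ} (hz : 3 ≤ z) {c : ℝ} :
    (c * Real.log z ≤ Real.log N ↔ c ≤ rt N z) ∧ (Real.log N ≤ c * Real.log z ↔ rt N z ≤ c) := by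
  have hz1 : (1 : ℝ) < z := by
    have : (3 : ℝ) ≤ z := by exact_mod_cast hz
    linarith
  have hlog : 0 < Real.log z := Real.log_pos hz1
  unfold rt
  exact ⟨(le_div_iff₀ hlog).symm, (div_le_iff₀ hlog).symm⟩

private theorem d1_NV (N z : ℕ) : 0 ≤ (N : ℝ) * V z := mul_nonneg (Nat.cast_nonneg _) (V_pos z).le

private theorem d1_hX_ge {s : ℝ} (hs : 3 ≤ s) : hX s = Real.exp (-s) := by
  unfold hX
  split_ifs with h
  · have h1 : s = 3 := le_antisymm h hs
    subst h1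
    rw [max_eq_right (by norm_num)]
    ring
  · rfl

private theorem d1_hX_le {s : ℝ} (hs1 : 1 ≤ s) (hs : s ≤ 3) : hX s = 3 * Real.exp (-3) / s := by
  unfold hX
  rw [if_pos hs, max_eq_right hs1]

/-- PROOF. Let `θ = 19/20`, `C₀` from `fund`.
LOWER. Given `s₁` and `ε`, apply `step_lower` to `Fu = F + Δ hX` with a large `t ≥ max s₁ 2` in
place of `s₁` (and a small `ε'`): for `2 ≤ s ≤ t`,
`S ≥ N V z (1 - (1/s) ∫_s^t (F (x-1) - 1) - (Δ/s) ∫_s^t hX (x-1) - C₀ t e^(-t) - ε')`, by `hFf`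
`(1/s) ∫_s^t (F (x-1) - 1) = (1 - f s) - (t/s)(1 - f t)`, `|(t/s)(1 - f t)| ≤ t C e^(-t)`, and
`(1/s) ∫ hX ≤ θ e^(-s) = θ hY s` (`int_hX`). So `S ≥ N V z (f s - Δ θ hY s - (C + C₀) t e^(-t) - ε')`
and `t e^(-t) → 0`.
UPPER. For `3 ≤ s ≤ t` in the same way with `step_upper`, `fl = f - Δ hY`, `hfF`, `int_hY`:
`S ≤ N V z (F s + Δ θ e^(-s) + ...)` and `hX s = e^(-s)` for `s ≥ 3` (at `s = 3` too). This gives the
bound for `3 ≤ s ≤ s₁`. For `1 ≤ s ≤ 3`: `step_short` with `Φ = F + Δ θ hX` gives the constant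
`3 (F 3 + Δ θ e^(-3)) / s = F s + Δ θ hX s` (by `hF13`, `F s = A/s = 3 (F 3)/s`). Take the larger
`Z` of the two ranges. -/
theorem iterate (F f : ℝ → ℝ) (A C : ℝ) (hA : 0 < A) (hC : 0 < C) (hFc : Continuous F)
    (hfc : Continuous f) (hF13 : ∀ s, 1 ≤ s → s ≤ 3 → F s = A / s)
    (hFd : ∀ s, 1 ≤ s → |F s - 1| ≤ C * Real.exp (-s))
    (hfd : ∀ s, 1 ≤ s → |f s - 1| ≤ C * Real.exp (-s))
    (hfF : ∀ s t, 3 ≤ s → s ≤ t → ∫ x in s..t, (1 - f (x - 1)) = s * (F s - 1) - t * (F t - 1))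
    (hFf : ∀ s t, 2 ≤ s → s ≤ t → ∫ x in s..t, (F (x - 1) - 1) = s * (1 - f s) - t * (1 - f t))
    (Δ : ℝ) (hΔ : 0 ≤ Δ) (hU : UBc (fun s => F s + Δ * hX s)) (hL : LBc (fun s => f s - Δ * hY s)) :
    UBc (fun s => F s + 19 / 20 * Δ * hX s) ∧ LBc (fun s => f s - 19 / 20 * Δ * hY s) := by
  obtain ⟨C₀, hC₀, hfund⟩ := fund
  have hXc := continuous_hX
  have hYc := continuous_hY
  have hX1 : Continuous fun x : ℝ => hX (x - 1) := hXc.comp (continuous_id.sub continuous_const)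
  have hY1 : Continuous fun x : ℝ => hY (x - 1) := hYc.comp (continuous_id.sub continuous_const)
  have hF1 : Continuous fun x : ℝ => F (x - 1) := hFc.comp (continuous_id.sub continuous_const)
  have hf1 : Continuous fun x : ℝ => f (x - 1) := hfc.comp (continuous_id.sub continuous_const)
  -- the tail term
  have htail : ∀ (g : ℝ → ℝ) (s t : ℝ), (∀ s, 1 ≤ s → |g s - 1| ≤ C * Real.exp (-s)) → 1 ≤ s →
      s ≤ t → |1 / s * (t * (g t - 1))| ≤ C * t * Real.exp (-t) := by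
    intro g s t hg hs hst
    have ht : 1 ≤ t := hs.trans hst
    rw [abs_mul, abs_mul, abs_of_nonneg (by positivity : 0 ≤ 1 / s),
      abs_of_nonneg (by linarith : 0 ≤ t)]
    have h1 : 1 / s ≤ 1 := by
      rw [div_le_one (by linarith)]
      exact hs
    calc 1 / s * (t * |g t - 1|) ≤ 1 * (t * |g t - 1|) :=
          mul_le_mul_of_nonneg_right h1 (mul_nonneg (by linarith) (abs_nonneg _))
      _ ≤ 1 * (t * (C * Real.exp (-t))) := by
          rw [one_mul, one_mul]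
          exact mul_le_mul_of_nonneg_left (hg t ht) (by linarith)
      _ = C * t * Real.exp (-t) := by ring
  -- upper bound for `3 ≤ s`
  have hup : ∀ s₁ ε : ℝ, 0 < ε → ∃ Z : ℕ, ∀ z N : ℕ, Z ≤ z → 3 * Real.log z ≤ Real.log N →
      Real.log N ≤ s₁ * Real.log z → ∀ a : ℕ → ℕ,
      (S a N z : ℝ) ≤ ((F (rt N z) + 19 / 20 * Δ * hX (rt N z)) + ε) * (N * V z) := by
    intro s₁ ε hε
    obtain ⟨t, ht1, ht3, ht⟩ := d1_t (C + C₀) s₁ (ε / 2) (by linarith)
    obtain ⟨Z, hZ⟩ := step_upper (fun s => f s - Δ * hY s) (hfc.sub (hYc.const_mul Δ)) hL C₀ hC₀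
      (fun ε hε => by
        obtain ⟨Z, hZ⟩ := hfund ε hε
        exact ⟨Z, fun z N h1 h2 a => (hZ z N h1 h2 a).2⟩) t ht3 (ε / 2) (by linarith)
    refine ⟨max Z 3, ?_⟩
    intro z N hz h3 h1 a
    have hz3 : 3 ≤ z := le_trans (le_max_right _ _) hz
    have hs3 : 3 ≤ rt N z := (d1_rt hz3).1.1 h3
    have hss : rt N z ≤ s₁ := (d1_rt hz3).2.1 h1
    have hst : rt N z ≤ t := hss.trans ht1
    have h2 := hZ z N (le_trans (le_max_left _ _) hz) h3 ((d1_rt hz3).2.2 hst) a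
    refine h2.trans (mul_le_mul_of_nonneg_right ?_ (d1_NV N z))
    beta_reduce
    set s := rt N z with hs
    have hi : ∫ x in s..t, (1 - (f (x - 1) - Δ * hY (x - 1)))
        = (s * (F s - 1) - t * (F t - 1)) + Δ * ∫ x in s..t, hY (x - 1) := by
      rw [← hfF s t hs3 hst, ← intervalIntegral.integral_const_mul,
        ← intervalIntegral.integral_add]
      · refine intervalIntegral.integral_congr fun x _ => ?_
        ring
      · exact (continuous_const.sub hf1).intervalIntegrable _ _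
      · exact (hY1.const_mul Δ).intervalIntegrable _ _
    rw [hi]
    have h4 := int_hY s t hs3 hst
    have h5 := mul_le_mul_of_nonneg_left h4 hΔ
    have h6 := (abs_le.1 (htail F s t hFd (by linarith) hst)).1
    have hs0 : s ≠ 0 := by linarith
    have h7 : 1 / s * ((s * (F s - 1) - t * (F t - 1)) + Δ * ∫ x in s..t, hY (x - 1))
        = (F s - 1) - 1 / s * (t * (F t - 1)) + Δ * (1 / s * ∫ x in s..t, hY (x - 1)) := by
      field_simp
    rw [h7, d1_hX_ge hs3]
    have h8 : (C + C₀) * t * Real.exp (-t) = C * t * Real.exp (-t) + C₀ * t * Real.exp (-t) := by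
      ring
    have h9 : 19 / 20 * Δ * Real.exp (-s) = Δ * (19 / 20 * Real.exp (-s)) := by ring
    rw [h9]
    linarith
  constructor
  · intro s₁ ε hε
    obtain ⟨Z₁, hZ₁⟩ := hup s₁ ε hε
    obtain ⟨Z₂, hZ₂⟩ := step_short (fun s => F s + 19 / 20 * Δ * hX s)
      (hFc.add (hXc.const_mul _)) (hup 4) ε hε
    refine ⟨max (max Z₁ Z₂) 3, ?_⟩
    intro z N hz h1 h2 a
    have hz3 : 3 ≤ z := le_trans (le_max_right _ _) hz
    have hz1 : Z₁ ≤ z := le_trans (le_trans (le_max_left _ _) (le_max_left _ _)) hz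
    have hz2 : Z₂ ≤ z := le_trans (le_trans (le_max_right _ _) (le_max_left _ _)) hz
    rcases le_total (3 * Real.log z) (Real.log N) with h3 | h3
    · exact hZ₁ z N hz1 h3 h2 a
    · have h4 := hZ₂ z N hz2 h1 h3 a
      refine h4.trans (le_of_eq ?_)
      beta_reduce
      have hs3 : rt N z ≤ 3 := (d1_rt hz3).2.1 h3
      have hs1 : 1 ≤ rt N z := (d1_rt hz3).1.1 (by rw [one_mul]; exact h1)
      rw [d1_hX_le hs1 hs3, d1_hX_le (by norm_num) le_rfl, hF13 _ hs1 hs3,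
        hF13 3 (by norm_num) le_rfl]
      have hs0 : rt N z ≠ 0 := by linarith
      field_simp
  · intro s₁ ε hε
    obtain ⟨t, ht1, ht3, ht⟩ := d1_t (C + C₀) s₁ (ε / 2) (by linarith)
    obtain ⟨Z, hZ⟩ := step_lower (fun s => F s + Δ * hX s) (hFc.add (hXc.const_mul Δ)) hU C₀ hC₀
      (fun ε hε => by
        obtain ⟨Z, hZ⟩ := hfund ε hε
        exact ⟨Z, fun z N h1 h2 a => (hZ z N h1 h2 a).1⟩) t (by linarith) (ε / 2) (by linarith)
    refine ⟨max Z 3, ?_⟩
    intro z N hz h3 h1 a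
    have hz3 : 3 ≤ z := le_trans (le_max_right _ _) hz
    have hs2 : 2 ≤ rt N z := (d1_rt hz3).1.1 h3
    have hss : rt N z ≤ s₁ := (d1_rt hz3).2.1 h1
    have hst : rt N z ≤ t := hss.trans ht1
    have h2 := hZ z N (le_trans (le_max_left _ _) hz) h3 ((d1_rt hz3).2.2 hst) a
    refine le_trans (mul_le_mul_of_nonneg_right ?_ (d1_NV N z)) h2
    beta_reduce
    set s := rt N z with hs
    have hi : ∫ x in s..t, ((F (x - 1) + Δ * hX (x - 1)) - 1)
        = (s * (1 - f s) - t * (1 - f t)) + Δ * ∫ x in s..t, hX (x - 1) := by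
      rw [← hFf s t hs2 hst, ← intervalIntegral.integral_const_mul,
        ← intervalIntegral.integral_add]
      · refine intervalIntegral.integral_congr fun x _ => ?_
        ring
      · exact (hF1.sub continuous_const).intervalIntegrable _ _
      · exact (hX1.const_mul Δ).intervalIntegrable _ _
    rw [hi]
    have h4 := int_hX s t hs2 hst
    have h5 := mul_le_mul_of_nonneg_left h4 hΔ
    have h6 := (abs_le.1 (htail f s t hfd (by linarith) hst)).1
    have hs0 : s ≠ 0 := by linarith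
    have h7 : 1 / s * ((s * (1 - f s) - t * (1 - f t)) + Δ * ∫ x in s..t, hX (x - 1))
        = (1 - f s) + 1 / s * (t * (f t - 1)) + Δ * (1 / s * ∫ x in s..t, hX (x - 1)) := by
      field_simp
      ring
    have h6' := (abs_le.1 (htail f s t hfd (by linarith) hst)).2
    rw [h7]
    have h8 : (C + C₀) * t * Real.exp (-t) = C * t * Real.exp (-t) + C₀ * t * Real.exp (-t) := by
      ring
    have h9 : 19 / 20 * Δ * hY s = Δ * (19 / 20 * Real.exp (-s)) := by
      unfold hY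
      ring
    rw [h9]
    linarith

end Pool.Agent.LibLin93
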