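import Pool.Agent.LibLin93.C3
import Pool.Agent.LibLin93.D1

/-! Row LS D2: the linear sieve. -/

set_option autoImplicit false

namespace Pool.Agent.LibLin93

open Finset Filter Topology MeasureTheory

lemma hX_lower {s : ℝ} (hs : 1 ≤ s) : Real.exp (-s) / 10 ≤ hX s := by
  unfold hX
  have hpos := Real.exp_pos (-s)
  split_ifs with h
  · rw [max_eq_right hs]
    have he : Real.exp 1 < 3 := lt_trans Real.exp_one_lt_d9 (by norm_num)
    have he' : Real.exp 1 < 2.7182818286 := Real.exp_one_lt_d9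
    have h1 : Real.exp (-s) ≤ Real.exp (-1) := Real.exp_le_exp.2 (by linarith)
    have h2 : Real.exp (-1) = Real.exp (-3) * (Real.exp 1 * Real.exp 1) := by
      rw [← Real.exp_add, ← Real.exp_add]
      norm_num
    have h3 : Real.exp 1 * Real.exp 1 ≤ 10 := by
      have := Real.exp_pos 1
      nlinarith
    have h4 : Real.exp (-3) ≤ 3 * Real.exp (-3) / s := by
      rw [le_div_iff₀ (by linarith)]
      have := Real.exp_pos (-3)
      nlinarith
    have h5 : Real.exp (-3) * (Real.exp 1 * Real.exp 1) ≤ Real.exp (-3) * 10 := by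
      have := Real.exp_pos (-3)
      gcongr
    linarith
  · linarith

lemma rt_facts {z N : ℕ} (hz : 2 ≤ z) (h : Real.log z ≤ Real.log N) :
    z ≤ N ∧ 0 < Real.log z ∧ 1 ≤ rt N z := by
  have hz' : (2:ℝ) ≤ z := by exact_mod_cast hz
  have hl : 0 < Real.log z := Real.log_pos (by linarith)
  have hN : N ≠ 0 := by
    rintro rfl
    simp at h
    linarith
  have hN' : (0:ℝ) < N := by exact_mod_cast Nat.pos_of_ne_zero hN
  refine ⟨?_, hl, ?_⟩
  · have := (Real.log_le_log_iff (by linarith) hN').1 h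
    exact_mod_cast this
  · unfold rt
    rw [le_div_iff₀ hl]
    linarith

/-- THE LINEAR SIEVE for an interval and arbitrary residue classes: for `2 < ρ ≤ s ≤ 4` a positive
proportion of the expected number survives.
PROOF. Take `F, f, A, C` from `exists_Ff`. BASE: with `C₀` from `fund`, `UBc (F + Δ₀ hX)` and
`LBc (f - Δ₀ hY)` for `Δ₀ = 10 (C + C₀)`: by `fund`, `S ≤ (1 + C₀ e^(-s) + ε) N V z` (all `s ≥ 1`) and
`1 + C₀ e^(-s) ≤ F s + (C + C₀) e^(-s) ≤ F s + Δ₀ hX s` because `hX s = e^(-s)` for `s ≥ 3` and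
`hX s ≥ 3 e^(-3)/3 ≥ e^(-s)/10` for `1 ≤ s ≤ 3`; the lower bound likewise. ITERATION: `iterate`
`n` times gives `LBc (f - θ^n Δ₀ hY)`, `θ = 19/20`. For `s ∈ [ρ, 4]`:
`f s = A log (s-1)/s ≥ A log (ρ-1)/4 =: 3 δ > 0`; choose `n` with `θ^n Δ₀ ≤ δ` and `ε = δ` in `LBc`
with `s₁ = 4`. -/
theorem linear_lower (ρ : ℝ) (hρ : 2 < ρ) : ∃ δ : ℝ, 0 < δ ∧ ∃ Z : ℕ, ∀ z N : ℕ, Z ≤ z →
    ρ * Real.log z ≤ Real.log N → Real.log N ≤ 4 * Real.log z →
      ∀ a : ℕ → ℕ, δ * (N * V z) ≤ (S a N z : ℝ) := by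
  obtain ⟨F, f, A, C, hA, hC, hFc, hfc, hF13, hf24, hFd, hfd, hfF, hFf⟩ := exists_Ff
  obtain ⟨C₀, hC₀, hfund⟩ := fund
  obtain ⟨D, hD⟩ : ∃ D, D = 10 * (C + C₀) := ⟨_, rfl⟩
  have hD0 : 0 < D := by rw [hD]; positivity
  have hNV : ∀ z N : ℕ, (0:ℝ) ≤ N * V z := fun z N =>
    mul_nonneg (Nat.cast_nonneg _) (V_pos z).le
  -- base of the iteration
  have base : UBc (fun s => F s + D * hX s) ∧ LBc (fun s => f s - D * hY s) := by
    constructor
    · intro s₁ ε hε
      obtain ⟨Z, hZ⟩ := hfund ε hε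
      refine ⟨max Z 2, fun z N hz h1 _ a => ?_⟩
      obtain ⟨hzN, hlz, hr⟩ := rt_facts (le_trans (le_max_right _ _) hz) h1
      refine ((hZ z N (le_trans (le_max_left _ _) hz) hzN a).2).trans ?_
      refine mul_le_mul_of_nonneg_right ?_ (hNV z N)
      have h2 := hFd _ hr
      have h3 := (abs_le.1 h2).1
      have h4 := hX_lower hr
      have h5 : (C + C₀) * Real.exp (-rt N z) ≤ D * hX (rt N z) := by
        rw [hD]
        have : 0 < C + C₀ := by positivity
        nlinarith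
      simp only
      linarith
    · intro s₁ ε hε
      obtain ⟨Z, hZ⟩ := hfund ε hε
      refine ⟨max Z 2, fun z N hz h1 _ a => ?_⟩
      have hz2 : 2 ≤ z := le_trans (le_max_right _ _) hz
      have hlz0 : 0 ≤ Real.log z := Real.log_natCast_nonneg z
      obtain ⟨hzN, hlz, hr⟩ := rt_facts hz2 (show Real.log z ≤ Real.log N by linarith)
      refine le_trans ?_ ((hZ z N (le_trans (le_max_left _ _) hz) hzN a).1)
      refine mul_le_mul_of_nonneg_right ?_ (hNV z N)
      have h2 := hfd _ hr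
      have h3 := (abs_le.1 h2).2
      have h6 := Real.exp_pos (-rt N z)
      have h5 : (C + C₀) * Real.exp (-rt N z) ≤ D * hY (rt N z) := by
        rw [hD]
        unfold hY
        have : 0 < C + C₀ := by positivity
        nlinarith [mul_pos this h6]
      simp only
      linarith
  -- iteration
  have iter : ∀ n : ℕ, UBc (fun s => F s + (19 / 20) ^ n * D * hX s) ∧
      LBc (fun s => f s - (19 / 20) ^ n * D * hY s) := by
    intro n
    induction n with
    | zero => simpa using base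
    | succ n ih =>
      have h := iterate F f A C hA hC hFc hfc hF13 hFd hfd hfF hFf ((19 / 20) ^ n * D)
        (by positivity) ih.1 ih.2
      have e : (19 / 20 : ℝ) ^ (n + 1) * D = 19 / 20 * ((19 / 20) ^ n * D) := by ring
      rw [e]
      exact h
  have hlog : 0 < Real.log (ρ - 1) := Real.log_pos (by linarith)
  obtain ⟨δ, hδ⟩ : ∃ δ, δ = A * Real.log (ρ - 1) / 12 := ⟨_, rfl⟩
  have hδ0 : 0 < δ := by rw [hδ]; positivity
  obtain ⟨n, hn⟩ : ∃ n : ℕ, (19 / 20 : ℝ) ^ n < δ / D :=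
    exists_pow_lt_of_lt_one (by positivity) (by norm_num)
  rw [lt_div_iff₀ hD0] at hn
  obtain ⟨Z, hZ⟩ := (iter n).2 4 δ hδ0
  refine ⟨δ, hδ0, max Z 2, fun z N hz h1 h4 a => ?_⟩
  have hz2 : 2 ≤ z := le_trans (le_max_right _ _) hz
  have hlz0 : 0 ≤ Real.log z := Real.log_natCast_nonneg z
  have h2 : 2 * Real.log z ≤ Real.log N := by nlinarith
  obtain ⟨hzN, hlz, hr⟩ := rt_facts hz2 (show Real.log z ≤ Real.log N by linarith)
  refine le_trans ?_ (hZ z N (le_trans (le_max_left _ _) hz) h2 h4 a)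
  refine mul_le_mul_of_nonneg_right ?_ (hNV z N)
  simp only
  have hr1 : ρ ≤ rt N z := by
    unfold rt
    rwa [le_div_iff₀ hlz]
  have hr4 : rt N z ≤ 4 := by
    unfold rt
    rwa [div_le_iff₀ hlz]
  have hf := hf24 (rt N z) (by linarith) hr4
  have hf' : 3 * δ ≤ f (rt N z) := by
    rw [hf, le_div_iff₀ (by linarith), hδ]
    have hl : Real.log (ρ - 1) ≤ Real.log (rt N z - 1) :=
      Real.log_le_log (by linarith) (by linarith)
    calc 3 * (A * Real.log (ρ - 1) / 12) * rt N z = A * Real.log (ρ - 1) * (rt N z / 4) := by ring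
      _ ≤ A * Real.log (ρ - 1) * 1 := by
          apply mul_le_mul_of_nonneg_left _ (by positivity)
          linarith
      _ ≤ A * Real.log (rt N z - 1) := by rw [mul_one]; gcongr
  have hY1 : hY (rt N z) ≤ 1 := by
    unfold hY
    rw [Real.exp_le_one_iff]
    linarith
  have hY0 : 0 ≤ hY (rt N z) := (Real.exp_pos _).le
  have h7 : (19 / 20) ^ n * D * hY (rt N z) ≤ δ := by
    calc (19 / 20) ^ n * D * hY (rt N z) ≤ (19 / 20) ^ n * D * 1 := by gcongr
      _ ≤ δ := by linarith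
  linarith

end Pool.Agent.LibLin93
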