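import Mathlib

/-!
# The linear sieve for intervals and arbitrary residue classes: definitions

For every prime `p < z` one residue class `a p mod p` is removed from an interval of length `N`.
-/

set_option autoImplicit false

namespace Pool.Agent.LibLin93

open Finset Filter Topology

/-- `∏_{p < z} (1 - 1/p)` over the primes `p`. -/
noncomputable def V (z : ℕ) : ℝ := ∏ p ∈ (range z).filter Nat.Prime, (1 - 1 / (p : ℝ))

open Classical in
/-- The number of the `n < N` outside of the classes `a p mod p`, `p < z` prime. -/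
noncomputable def S (a : ℕ → ℕ) (N z : ℕ) : ℕ :=
  #{n ∈ range N | ∀ p : ℕ, p.Prime → p < z → ¬ n ≡ a p [MOD p]}

open Classical in
/-- The number of the `n < N` in the class `a p mod p` and outside of the classes `a q mod q`,
`q < p` prime. -/
noncomputable def T (a : ℕ → ℕ) (N p : ℕ) : ℕ :=
  #{n ∈ range N | n ≡ a p [MOD p] ∧ ∀ q : ℕ, q.Prime → q < p → ¬ n ≡ a q [MOD q]}

open Classical in
/-- Selberg's sum: squarefree `d ≤ R` with all prime factors `< z`. -/
noncomputable def GG (R z : ℕ) : ℝ :=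
  ∑ d ∈ (Icc 1 R).filter (fun d => Squarefree d ∧ ∀ p : ℕ, p.Prime → p ∣ d → p < z),
    1 / (Nat.totient d : ℝ)

/-- the logarithmic ratio `s = log N / log z`. -/
noncomputable def rt (N z : ℕ) : ℝ := Real.log N / Real.log z

/-- upper bounds by the function `F`, on compact ranges of `s ≥ 1`. -/
def UBc (F : ℝ → ℝ) : Prop :=
  ∀ s₁ : ℝ, ∀ ε : ℝ, 0 < ε → ∃ Z : ℕ, ∀ z N : ℕ, Z ≤ z → Real.log z ≤ Real.log N →
    Real.log N ≤ s₁ * Real.log z → ∀ a : ℕ → ℕ, (S a N z : ℝ) ≤ (F (rt N z) + ε) * (N * V z)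

/-- lower bounds by the function `f`, on compact ranges of `s ≥ 2`. -/
def LBc (f : ℝ → ℝ) : Prop :=
  ∀ s₁ : ℝ, ∀ ε : ℝ, 0 < ε → ∃ Z : ℕ, ∀ z N : ℕ, Z ≤ z → 2 * Real.log z ≤ Real.log N →
    Real.log N ≤ s₁ * Real.log z → ∀ a : ℕ → ℕ, (f (rt N z) - ε) * (N * V z) ≤ (S a N z : ℝ)

/-- the error functions of the iteration -/
noncomputable def hX (s : ℝ) : ℝ := if s ≤ 3 then 3 * Real.exp (-3) / max 1 s else Real.exp (-s)

noncomputable def hY (s : ℝ) : ℝ := Real.exp (-s)

end Pool.Agent.LibLin93
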